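import Pool.Agent.MP_4168de_an.W.Cov

/-! Chains on the cover, null chains, good pairs. -/

namespace Pool.Agent.MP_4168de_an.W

open Set Filter Topology Shift Matrix G

variable {A : Type} [Fintype A] [DecidableEq A] [TopologicalSpace A] {D : Shift A} {ℓ : A → ℝ}
  {c : ℝ} {σ : DSub D ℓ c} {d e : ℕ}

namespace Cover

variable (C : Cover σ d e)

/-- The chain of the tiles of a strand from index `0` to index `n`. -/
noncomputable def ch (y : D.X × Lat d) (n : ℤ) : A → Rg d :=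
  isum (fun i => tile (lab (C.s i y))) n

/-- The matrix of the inflation. -/
noncomputable def J : Matrix A A (Rg d) :=
  fun b x => C.ch (C.S ((C.occ x).choose, 0)) (σ.r (C.occ x).choose.1) b

/-- The inflation of chains. -/
noncomputable def E : (A → Rg d) →+ (A → Rg d) where
  toFun z := C.J *ᵥ fun x => mu C.Bz (z x)
  map_zero' := by simp [← Pi.zero_def]
  map_add' z z' := by
    rw [← Matrix.mulVec_add]
    simp [Pi.add_def]

/-- The boundary of a chain. -/
noncomputable def bd : (A → Rg d) →ₗ[Rg d] (A → Rg d) := (bdM C.st C.en C.δ).mulVecLin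

/-- The start vertex of the tile of a lifted point. -/
noncomputable def vtx (y : D.X × Lat d) : A → Rg d := tile (C.st (y.1.1 0), y.2)

/-- Chains that are asymptotically cancelled by the inflation. -/
def Null (z : A → Rg d) : Prop := Tendsto (fun k => len ℓ (C.E^[k] z) / c ^ k) atTop (𝓝 0)

lemma E_apply (z : A → Rg d) : C.E z = C.J *ᵥ fun x => mu C.Bz (z x) := rfl

lemma bd_apply (z : A → Rg d) : C.bd z = bdM C.st C.en C.δ *ᵥ z := rfl

lemma E_smul (P : Rg d) (z : A → Rg d) : C.E (P • z) = mu C.Bz P • C.E z := by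
  rw [E_apply, E_apply, ← Matrix.mulVec_smul]
  simp [Pi.smul_def]

@[simp] lemma ch_zero (y : D.X × Lat d) : C.ch y 0 = 0 := isum_zero _

lemma ch_succ (y : D.X × Lat d) (n : ℤ) : C.ch y (n + 1) = C.ch y n + tile (lab (C.s n y)) :=
  isum_succ _ _

lemma ch_one (y : D.X × Lat d) : C.ch y 1 = tile (lab y) := by simp [ch]

lemma ch_add (y : D.X × Lat d) (m n : ℤ) : C.ch y (m + n) = C.ch y m + C.ch (C.s m y) n := by
  simp only [ch, isum_add_index, s_s]

lemma ch_tr (v : Lat d) (y : D.X × Lat d) (n : ℤ) : C.ch (tr v y) n = mono v • C.ch y n := by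
  have := map_isum (DistribSMul.toAddMonoidHom (A → Rg d) (mono v))
    (fun i => tile (lab (C.s i y))) n
  simp only [DistribSMul.toAddMonoidHom_apply] at this
  simp only [ch, this, s_tr]
  exact isum_congr fun i _ _ => tile_add _ _ _

lemma lab_S_congr {y y' : D.X × Lat d} (h : lab y = lab y') {i : ℤ} (h0 : 0 ≤ i)
    (h1 : i < σ.r y.1.1) : lab (C.s i (C.S y)) = lab (C.s i (C.S y')) := by
  have h2 : y.1.1 0 = y'.1.1 0 := congrArg Prod.fst h
  have h3 : y.2 = y'.2 := congrArg (Prod.snd : A × Lat d → Lat d) h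
  have h4 := σ.loc _ _ h2
  refine Prod.ext (by simpa [lab, s, S] using h4 i h0 h1) ?_
  simp only [lab, s, S, h2, h3, add_right_inj, bs]
  exact isum_congr fun j a b => by
    simp only [τ_val, DSub.T_val, sh_apply, zero_add]
    rw [h4 j (by omega) (by omega)]

lemma E_tile (y : D.X × Lat d) : C.E (tile (lab y)) = C.ch (C.S y) (σ.r y.1.1) := by
  set x := (C.occ (y.1.1 0)).choose with hx
  have h1 : x.1 0 = y.1.1 0 := (C.occ (y.1.1 0)).choose_spec
  have h2 : lab (tr y.2 (x, 0)) = lab y := by simp [lab, tr, h1]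
  have h3 : C.ch (C.S y) (σ.r y.1.1) = C.ch (C.S (tr y.2 (x, 0))) (σ.r x.1) := by
    rw [σ.r_loc _ _ h1]
    have := σ.r_pos y.1.1
    exact isum_congr fun i a b => by rw [C.lab_S_congr h2.symm (by omega) (by omega)]
  rw [h3, S_tr, ch_tr, E_apply]
  have h4 : (fun a => mu C.Bz (tile (lab y) a)) = Pi.single (y.1.1 0) (mono (C.Bz y.2)) := by
    ext1 a
    by_cases h : a = y.1.1 0
    · simp [tile, lab, h]
    · simp [tile, lab, h]
  rw [h4, Matrix.mulVec_single]
  ext1 b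
  simp [J, hx, mul_comm]

lemma E_ch (y : D.X × Lat d) (n : ℤ) : C.E (C.ch y n) = C.ch (C.S y) (σ.cc y.1.1 n) := by
  rw [ch, map_isum]
  refine (eq_isum (F := fun n => C.ch (C.S y) (σ.cc y.1.1 n)) (by simp) (fun n => ?_) n).symm
  rw [RSub.cc_succ, ch_add, E_tile, S_s]
  rfl

lemma iter_E_ch (k : ℕ) (y : D.X × Lat d) (n : ℤ) :
    C.E^[k] (C.ch y n) = C.ch (C.S^[k] y) (C.ix y n k) := by
  induction k with
  | zero => rfl
  | succ k ih => rw [Function.iterate_succ_apply', ih, E_ch, Function.iterate_succ_apply']; rfl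

include C in
lemma exists_lab (t : A × Lat d) : ∃ y : D.X × Lat d, lab y = t := by
  obtain ⟨x, hx⟩ := C.occ t.1
  exact ⟨(x, t.2), by simp [lab, hx]⟩

lemma aug_J (b x : A) : aug (C.J b x) = C.Mx b x := by
  have h := C.hasMat (C.occ x).choose.1 b
  rw [(C.occ x).choose_spec] at h
  rw [← h]
  change aug (Pi.evalAddMonoidHom (fun _ : A => Rg d) b (isum _ _)) = _
  rw [map_isum, map_isum]
  refine isum_congr fun i _ _ => ?_
  simp only [Pi.evalAddMonoidHom_apply, tile, lab, s_letter, S, DSub.T_val]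
  by_cases h : σ.S (C.occ x).choose.1 i = b
  · simp [h]
  · simp [h, Ne.symm h]

lemma bd_tile (y : D.X × Lat d) : C.bd (tile (lab y)) = C.vtx (C.s 1 y) - C.vtx y := by
  rw [bd_apply, tile, Matrix.mulVec_single, s_one]
  ext1 q
  simp only [vtx, tile, lab, τ_val, sh_apply, zero_add, ← C.st_en, mono_add, Pi.sub_apply,
    Pi.single_apply, Matrix.col, MulOpposite.smul_eq_mul_unop, MulOpposite.unop_op, Pi.smul_apply,
    Matrix.transpose_apply, bdM, mul_sub, mul_ite, mul_zero, mul_one, eq_comm (a := q), mul_comm]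

lemma bd_ch (y : D.X × Lat d) (n : ℤ) : C.bd (C.ch y n) = C.vtx (C.s n y) - C.vtx y := by
  rw [ch, map_isum]
  simp only [bd_tile, s_s]
  simpa using isum_tel (fun i => C.vtx (C.s i y)) n

lemma bd_E {z : A → Rg d} (h : C.bd z = 0) : C.bd (C.E z) = 0 := by
  let F : (A → Rg d) →+ (A → Rg d) :=
    { toFun := fun z => ∑ q, mu C.Bz (z q) • tile (C.f q, C.κ q)
      map_zero' := by simp
      map_add' := fun z z' => by simp [add_smul, Finset.sum_add_distrib] }
  have h1 : ∀ y, F (C.vtx y) = C.vtx (C.S y) := fun y => by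
    simp only [F, vtx, AddMonoidHom.coe_mk, ZeroHom.coe_mk, S, C.hf, add_comm (C.Bz _), tile_add]
    rw [Finset.sum_eq_single (C.st (y.1.1 0)) (fun q _ hq => by simp [tile, hq]) (by simp)]
    simp [tile]
  have h2 : ∀ z, C.bd (C.E z) = F (C.bd z) := fun z => by
    induction z using chain_induction with
    | h0 => simp
    | h1 t =>
      obtain ⟨y, rfl⟩ := C.exists_lab t
      rw [E_tile, bd_ch, bd_tile, map_sub, h1, h1, S_s, RSub.cc_one]
    | h2 z z' a b => simp only [map_add, a, b]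
    | h3 z a => simp only [map_neg, a]
  rw [h2, h, map_zero]

open Classical in
lemma co_ch (y : D.X × Lat d) {m n : ℤ} (h : m ≤ n) (t : A × Lat d) :
    co t (C.ch y n - C.ch y m) = if ∃ j, m ≤ j ∧ j < n ∧ lab (C.s j y) = t then 1 else 0 := by
  rw [ch, ch, ← sum_Ico_eq_isum _ h, map_sum]
  simp only [co_tile]
  split_ifs with h1
  · obtain ⟨j, a1, a2, a3⟩ := h1
    rw [Finset.sum_eq_single j (fun i _ hi => if_neg fun h2 => hi (C.lab_s_inj y (h2.trans a3.symm)))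
      (fun h2 => absurd (Finset.mem_Ico.2 ⟨a1, a2⟩) h2), if_pos a3]
  · exact Finset.sum_eq_zero fun i hi => if_neg fun h2 =>
      h1 ⟨i, (Finset.mem_Ico.1 hi).1, (Finset.mem_Ico.1 hi).2, h2⟩

open Classical in
/-- The inflated piece of a strand consists of the tiles that start in the inflated window. -/
lemma co_piece (k : ℕ) (y : D.X × Lat d) {m n : ℤ} (h : m ≤ n) (t : A × Lat d) :
    co t (C.E^[k] (C.ch y n - C.ch y m)) = if C.On (C.S^[k] y) t ∧
      c ^ k * C.p (C.s m y) ≤ C.tm t ∧ C.tm t < c ^ k * C.p (C.s n y) then 1 else 0 := by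
  have h0 := C.p_s_strictMono (C.S^[k] y)
  have h1 : C.ix y m k ≤ C.ix y n k := h0.le_iff_le.1 (by
    simp only [p_ix]
    exact mul_le_mul_of_nonneg_left ((C.p_s_strictMono y).monotone h)
      (pow_nonneg (by linarith [C.one_lt]) k))
  rw [iterate_map_sub, iter_E_ch, iter_E_ch, C.co_ch _ h1, ← p_ix, ← p_ix]
  refine if_congr ⟨?_, ?_⟩ rfl rfl
  · rintro ⟨j, a1, a2, rfl⟩
    exact ⟨⟨j, rfl⟩, h0.monotone a1, h0 a2⟩
  · rintro ⟨⟨j, rfl⟩, a1, a2⟩
    exact ⟨j, h0.le_iff_le.1 a1, h0.lt_iff_lt.1 a2, rfl⟩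

/-- Locality of the inflation. -/
lemma on_loc {k : ℕ} {y y' : D.X × Lat d} (h : lab y = lab y') {t : A × Lat d}
    (h1 : C.On (C.S^[k] y) t) (h2 : c ^ k * C.p y ≤ C.tm t)
    (h3 : C.tm t < c ^ k * (C.p y + ℓ (y.1.1 0))) : C.On (C.S^[k] y') t := by
  have a1 := C.co_piece k y (m := 0) (n := 0 + 1) (by omega) t
  have a2 := C.co_piece k y' (m := 0) (n := 0 + 1) (by omega) t
  rw [p_s_succ, s_zero, if_pos ⟨h1, h2, h3⟩] at a1
  simp only [zero_add, ch_one, ch_zero, sub_zero] at a1 a2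
  rw [← h, a1] at a2
  by_contra hh
  simp [hh] at a2

end Cover

section

variable (C : Cover σ d e)

theorem ch_Null (y : D.X × Lat d) (n : ℕ) :
    lw_Null (fun t => ℓ t.1) (C.ch y n) ≤ pos ℓ y.1.1 n := by
  induction n with
  | zero => simp [zero_Null]
  | succ n ih =>
    rw [Nat.cast_succ, C.ch_succ, pos_succ]
    refine (add_Null (fun t => (C.ℓ_pos _).le) _ _).trans (add_le_add ih ?_)
    rw [tile_Null]
    exact (congrArg ℓ (C.s_letter _ _)).le

theorem lenE_Null (z : A → Rg d) : len ℓ (C.E z) ≤ c * len ℓ z := by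
  have h : ∀ t, lw_Null (fun t => ℓ t.1) (C.E (tile t)) ≤ c * ℓ t.1 := by
    intro t
    obtain ⟨y, rfl⟩ := C.exists_lab t
    obtain ⟨n, hn⟩ := Int.eq_ofNat_of_zero_le (zero_le_one.trans (σ.r_pos y.1.1))
    rw [C.E_tile, hn]
    refine (ch_Null C _ n).trans_eq ?_
    rw [← hn]
    exact σ.len y.1.1
  have h2 : lw_Null (fun t => ℓ t.1) z = ∑ t ∈ (fin_Null z).toFinset, |(co t z : ℝ)| * ℓ t.1 :=
    tsum_eq_sum fun t ht => by simp at ht; simp [ht]
  rw [len_Null, len_Null, h2, Finset.mul_sum]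
  conv_lhs => rw [dec_Null z, map_sum]
  refine (sum_Null (fun t => (C.ℓ_pos _).le) _ _).trans (Finset.sum_le_sum fun t _ => ?_)
  rw [map_zsmul, zsmul_Null, mul_left_comm]
  exact mul_le_mul_of_nonneg_left (h t) (abs_nonneg _)

theorem iter_mono_Null (k : ℕ) (v : Lat d) (z : A → Rg d) :
    C.E^[k] (mono v • z) = mono (C.Bz^[k] v) • C.E^[k] z := by
  induction k with
  | zero => rfl
  | succ k ih => simp only [Function.iterate_succ_apply', ih, C.E_smul, mu_mono]

theorem iter_poly_Null (k : ℕ) (P : Rg d) (z : A → Rg d) :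
    C.E^[k] (P • z) = ∑ v ∈ P.coeff.support, P.coeff v • mono (C.Bz^[k] v) • C.E^[k] z := by
  let F : AddMonoid.End (A → Rg d) := C.E
  have h : ∀ x, C.E^[k] x = (F ^ k) x := fun x => by
    rw [AddMonoid.End.coe_pow]; rfl
  conv_lhs => rw [poly_Null P, Finset.sum_smul, h, map_sum]
  refine Finset.sum_congr rfl fun v _ => ?_
  rw [smul_assoc, map_zsmul, ← h, iter_mono_Null]

theorem a_iter_Null (k : ℕ) (v : Lat d) : C.a (C.Bz^[k] v) = c ^ k * C.a v := by
  induction k with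
  | zero => simp
  | succ k ih => rw [Function.iterate_succ_apply', C.a_Bz, ih, pow_succ', mul_assoc]

theorem loc_Null (z : A → Rg d) : ∃ t₀ t₁ : ℝ, ∀ k t, co t (C.E^[k] z) ≠ 0 →
    c ^ k * t₀ ≤ C.tm t ∧ C.tm t < c ^ k * t₁ := by
  have hc : ∀ k : ℕ, 0 ≤ c ^ k := fun k => pow_nonneg (by linarith [C.one_lt]) k
  induction z using chain_induction with
  | h0 => exact ⟨0, 0, fun k t h => absurd (by simp) h⟩
  | h1 t =>
    obtain ⟨y, rfl⟩ := C.exists_lab t
    refine ⟨C.p (C.s 0 y), C.p (C.s 1 y), fun k t h => ?_⟩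
    have := C.co_piece k y (m := 0) (n := 1) zero_le_one t
    rw [C.ch_one, C.ch_zero, sub_zero] at this
    by_contra h1
    exact h (this.trans (if_neg fun x => h1 x.2))
  | h2 z z' a b =>
    obtain ⟨a0, a1, a⟩ := a
    obtain ⟨b0, b1, b⟩ := b
    refine ⟨min a0 b0, max a1 b1, fun k t h => ?_⟩
    rw [iterate_map_add, map_add] at h
    by_cases h1 : co t (C.E^[k] z) = 0
    · rw [h1, zero_add] at h
      exact ⟨(mul_le_mul_of_nonneg_left (min_le_right _ _) (hc k)).trans (b k t h).1,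
        (b k t h).2.trans_le (mul_le_mul_of_nonneg_left (le_max_right _ _) (hc k))⟩
    · exact ⟨(mul_le_mul_of_nonneg_left (min_le_left _ _) (hc k)).trans (a k t h1).1,
        (a k t h1).2.trans_le (mul_le_mul_of_nonneg_left (le_max_left _ _) (hc k))⟩
  | h3 z a =>
    obtain ⟨a0, a1, a⟩ := a
    refine ⟨a0, a1, fun k t h => a k t ?_⟩
    rwa [iterate_map_neg, map_neg, neg_ne_zero] at h

/-- The weight of the tiles that start late. -/
noncomputable def W_Null (s : ℝ) (k : ℕ) (t : A × Lat d) : ℝ :=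
  if c ^ k * s ≤ C.tm t then ℓ t.1 else 0

theorem W0_Null (s : ℝ) (k : ℕ) (t : A × Lat d) : 0 ≤ W_Null C s k t ∧ W_Null C s k t ≤ ℓ t.1 := by
  have := C.ℓ_pos t.1
  unfold W_Null
  split_ifs <;> constructor <;> linarith

theorem W1_Null {s s' : ℝ} (h : s ≤ s') (k : ℕ) (t : A × Lat d) :
    W_Null C s' k t ≤ W_Null C s k t := by
  have h1 := mul_le_mul_of_nonneg_left h (pow_nonneg (by linarith [C.one_lt] : 0 ≤ c) k)
  have := C.ℓ_pos t.1
  unfold W_Null
  split_ifs <;> linarith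

theorem W2_Null (s : ℝ) (k : ℕ) (v : Lat d) (z : A → Rg d) :
    lw_Null (W_Null C s k) (mono (C.Bz^[k] v) • z) = lw_Null (W_Null C (s - C.a v) k) z := by
  rw [shift_Null]
  congr 1
  funext t
  simp only [W_Null, Cover.tm, map_add, a_iter_Null, mul_sub, sub_le_iff_le_add, add_assoc]

theorem sat_Null (P : Rg d) (z : A → Rg d) (hP : P ≠ 0) (h : C.Null (P • z)) : C.Null z := by
  have hc : ∀ k : ℕ, 0 < c ^ k := fun k => pow_pos (by linarith [C.one_lt]) k
  obtain ⟨t₀, t₁, hl⟩ := loc_Null C z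
  obtain ⟨γ, hγ, hm⟩ := Finset.exists_max_image P.coeff.support C.a
    (Finsupp.support_nonempty_iff.2 fun h0 => hP (AddMonoidAlgebra.coeff_eq_zero.1 h0))
  obtain ⟨η, hη, hv⟩ : ∃ η : ℝ, 0 < η ∧ ∀ v ∈ P.coeff.support.erase γ, η ≤ C.a γ - C.a v := by
    refine (((eventually_all_finset _).2 fun v hv => ?_).and self_mem_nhdsWithin
      (f := 𝓝[>] (0 : ℝ))).exists.imp fun η x => ⟨x.2, x.1⟩
    have h1 := Finset.mem_erase.1 hv
    exact eventually_nhdsWithin_of_eventually_nhds (eventually_le_nhds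
      (sub_pos.2 (lt_of_le_of_ne (hm v h1.2) fun x => h1.1 (C.a_inj x))))
  let Z : ℝ → Prop := fun s =>
    Tendsto (fun k => lw_Null (W_Null C s k) (C.E^[k] z) / c ^ k) atTop (𝓝 0)
  have step : ∀ s, Z s → Z (s - η) := by
    intro s hs
    have h1 := h.add (hs.const_mul (∑ v ∈ P.coeff.support.erase γ, |(P.coeff v : ℝ)|))
    rw [mul_zero, add_zero] at h1
    refine squeeze_zero (fun k => div_nonneg (nonneg_Null (fun t => (W0_Null C _ k t).1) _)
      (hc k).le) (fun k => ?_) h1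
    rw [← mul_div_assoc, ← add_div]
    refine div_le_div_of_nonneg_right ?_ (hc k).le
    have h0 := fun t => (W0_Null C (s - η + C.a γ) k t).1
    have e1 : P.coeff γ • mono (C.Bz^[k] γ) • C.E^[k] z = C.E^[k] (P • z) +
        -∑ v ∈ P.coeff.support.erase γ, P.coeff v • mono (C.Bz^[k] v) • C.E^[k] z := by
      rw [iter_poly_Null, ← Finset.add_sum_erase _ _ hγ, add_neg_cancel_right]
    have e2 := congrArg (lw_Null (W_Null C (s - η + C.a γ) k)) e1
    rw [zsmul_Null, W2_Null, add_sub_cancel_right] at e2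
    have e3 : (1 : ℝ) ≤ |(P.coeff γ : ℝ)| := by
      exact_mod_cast Int.one_le_abs (Finsupp.mem_support_iff.1 hγ)
    refine (le_mul_of_one_le_left (nonneg_Null (fun t => (W0_Null C _ k t).1) _) e3).trans
      (e2.trans_le ((add_Null h0 _ _).trans (add_le_add ?_ ?_)))
    · rw [len_Null]
      exact mono_Null (fun t => (W0_Null C _ k t).2) _
    · rw [neg_Null, Finset.sum_mul]
      refine (sum_Null h0 _ _).trans (Finset.sum_le_sum fun v x => ?_)
      rw [zsmul_Null, W2_Null]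
      exact mul_le_mul_of_nonneg_left (mono_Null (W1_Null C (by linarith [hv v x]) k) _)
        (abs_nonneg _)
  have all : ∀ j : ℕ, Z (t₁ - j * η) := by
    intro j
    induction j with
    | zero =>
      refine tendsto_const_nhds.congr fun k => ?_
      rw [congr_Null (ω := W_Null C _ k) (ω' := fun _ => 0)
        fun t ht => if_neg (by simpa using (hl k t ht).2)]
      simp [lw_Null]
    | succ j ih =>
      have := step _ ih
      rwa [show t₁ - j * η - η = t₁ - (j + 1 : ℕ) * η by push_cast; ring] at this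
  obtain ⟨j, hj⟩ := exists_nat_ge ((t₁ - t₀) / η)
  rw [div_le_iff₀ hη] at hj
  refine (all j).congr fun k => ?_
  rw [len_Null, congr_Null (ω := W_Null C _ k) (ω' := fun t => ℓ t.1) fun t ht => if_pos
    ((mul_le_mul_of_nonneg_left (by linarith) (hc k).le).trans (hl k t ht).1)]

theorem null_facts :
    (∀ z z' : A → Rg d, len ℓ (z + z') ≤ len ℓ z + len ℓ z') ∧
    (∀ z : A → Rg d, len ℓ (-z) = len ℓ z) ∧
    (∀ (v : Lat d) (z : A → Rg d), len ℓ (mono v • z) = len ℓ z) ∧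
    (∀ z, len ℓ (C.E z) ≤ c * len ℓ z) ∧
    C.Null 0 ∧ (∀ z z', C.Null z → C.Null z' → C.Null (z + z')) ∧
    (∀ (P : Rg d) z, C.Null z → C.Null (P • z)) ∧ (∀ z, C.Null z → C.Null (C.E z)) ∧
    ∀ (P : Rg d) z, P ≠ 0 → C.Null (P • z) → C.Null z := by
  have hc : ∀ k : ℕ, 0 < c ^ k := fun k => pow_pos (by linarith [C.one_lt]) k
  have h0 : ∀ t : A × Lat d, 0 ≤ ℓ t.1 := fun t => (C.ℓ_pos _).le
  have hn : ∀ (z : A → Rg d) k, 0 ≤ len ℓ z / c ^ k := fun z k =>
    div_nonneg (by rw [len_Null]; exact nonneg_Null h0 z) (hc k).le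
  have a1 : ∀ z z' : A → Rg d, len ℓ (z + z') ≤ len ℓ z + len ℓ z' := fun z z' => by
    simp only [len_Null, add_Null h0]
  have a3 : ∀ (v : Lat d) (z : A → Rg d), len ℓ (mono v • z) = len ℓ z := fun v z => by
    simp only [len_Null, shift_Null]
  refine ⟨a1, fun z => by simp only [len_Null, neg_Null], a3, lenE_Null C, ?_,
    fun z z' h h' => ?_, fun P z h => ?_, fun z h => ?_, sat_Null C⟩
  · refine tendsto_const_nhds.congr fun k => ?_
    simp [len_Null, zero_Null]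
  · have h1 := h.add h'
    rw [add_zero] at h1
    refine squeeze_zero (fun k => hn _ k) (fun k => ?_) h1
    rw [← add_div, iterate_map_add]
    exact div_le_div_of_nonneg_right (a1 _ _) (hc k).le
  · have h1 := h.const_mul (∑ v ∈ P.coeff.support, |(P.coeff v : ℝ)|)
    rw [mul_zero] at h1
    refine squeeze_zero (fun k => hn _ k) (fun k => ?_) h1
    rw [← mul_div_assoc, iter_poly_Null, Finset.sum_mul, len_Null]
    refine div_le_div_of_nonneg_right ((sum_Null h0 _ _).trans_eq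
      (Finset.sum_congr rfl fun v _ => ?_)) (hc k).le
    rw [zsmul_Null, ← len_Null, a3]
  · have h1 := ((tendsto_add_atTop_iff_nat 1).2 h).const_mul c
    rw [mul_zero] at h1
    refine h1.congr fun k => ?_
    have := (hc 1).ne'
    rw [pow_one] at this
    rw [Function.iterate_succ_apply, pow_succ]
    field_simp

lemma rec_Box (ρ : ℝ) (hρ : 0 < ρ) : ∃ L : ℝ, ∀ t β, ∃ v, |C.a v - t| ≤ L ∧ ‖C.b v - β‖ < ρ := by
  obtain ⟨K, hK⟩ : ∃ K : ℝ, ∀ y : Fin d → ℝ, ‖y‖ ≤ 1 → ‖C.L.Ψ.symm y‖ ≤ K :=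
    ⟨_, fun y hy => (C.L.Ψ.symm : (Fin d → ℝ) →L[ℝ] (ℝ × (Fin e → ℝ))).unit_le_opNorm y hy⟩
  obtain ⟨F, hF⟩ := (isCompact_closedBall (0 : Fin e → ℝ) K).elim_finite_subcover
    (fun v : Lat d => Metric.ball (C.b v) ρ) (fun _ => Metric.isOpen_ball) fun γ _ => by
      obtain ⟨v, hv⟩ := C.dense_b.exists_dist_lt γ hρ
      exact mem_iUnion.2 ⟨v, hv⟩
  obtain ⟨W, hW⟩ := (F.finite_toSet.image fun v => |C.a v|).bddAbove
  refine ⟨K + W, fun t β => ?_⟩
  let v₀ : Lat d := fun i => ⌊C.L.Ψ (t, β) i⌋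
  have h1 := hK (C.L.Ψ (t, β) - toR v₀) ((pi_norm_le_iff_of_nonneg zero_le_one).2 fun i => by
    have a1 := Int.floor_le (C.L.Ψ (t, β) i)
    have a2 := Int.lt_floor_add_one (C.L.Ψ (t, β) i)
    rw [Real.norm_eq_abs, abs_le]
    constructor <;> simp only [Pi.sub_apply, toR, v₀] <;> linarith)
  rw [← C.Ψ_ab, ← map_sub, ContinuousLinearEquiv.symm_apply_apply, Prod.mk_sub_mk, Prod.norm_mk,
    max_le_iff, Real.norm_eq_abs] at h1
  obtain ⟨v, hv, h2⟩ := mem_iUnion₂.1 (hF (mem_closedBall_zero_iff.2 h1.2))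
  have h3 : |C.a v| ≤ W := hW ⟨v, hv, rfl⟩
  refine ⟨v₀ + v, ?_, ?_⟩
  · have a1 := abs_le.1 h1.1
    have a2 := abs_le.1 h3
    rw [map_add, abs_le]
    constructor <;> linarith
  · rw [Metric.mem_ball, dist_comm, dist_eq_norm] at h2
    rw [map_add, show C.b v₀ + C.b v - β = C.b v - (β - C.b v₀) by abel]
    exact h2

end

lemma conn_ex_One (C : Cover σ d e) (a a' : A) (γ : Lat d) :
    ∃ g, C.bd g = tile (C.st a, γ) - tile (C.st a', 0) := by
  obtain ⟨x₀, hx₀⟩ := C.base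
  set N := LinearMap.range C.bd with hN
  set r := C.st (x₀.1 0) with hr
  have h1 : ∀ a, tile (C.st a, (0 : Lat d)) - tile (r, 0) ∈ N := fun a => by
    obtain ⟨n, h1, h2⟩ := hx₀ a
    refine ⟨C.ch (x₀, 0) n, ?_⟩
    rw [C.bd_ch, Cover.vtx, Cover.vtx, Cover.s_letter, h1]
    simp only [Cover.s, h2, add_zero, hr]
  have h1' : ∀ a v, tile (C.st a, v) - tile (r, v) ∈ N := fun a v => by
    have := N.smul_mem (mono v) (h1 a)
    rwa [smul_sub, ← tile_add, ← tile_add, zero_add] at this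
  have h2 : ∀ a, tile (r, C.δ a) - tile (r, 0) ∈ N := fun a => by
    obtain ⟨x, hx⟩ := C.occ a
    have h3 : C.bd (tile (Cover.lab (x, (0 : Lat d)))) ∈ N := ⟨_, rfl⟩
    rw [C.bd_tile, C.s_one, Cover.vtx, Cover.vtx] at h3
    have h4 := h1' ((D.τ 1 x).1 0) (C.δ a)
    have h5 := h1 (x.1 0)
    have h6 := N.add_mem (N.sub_mem h3 h4) h5
    simp only [hx, zero_add] at h6
    rwa [show ∀ a b c' d' : A → Rg d, a - b - (a - c') + (b - d') = c' - d' from
      fun _ _ _ _ => by abel] at h6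
  let G : AddSubgroup (Lat d) :=
    { carrier := {γ | tile (r, γ) - tile (r, 0) ∈ N}
      zero_mem' := by simp
      add_mem' := fun {v w} hv hw => by
        have := N.add_mem (N.smul_mem (mono w) hv) hw
        rw [smul_sub, ← tile_add, ← tile_add, zero_add, sub_add_sub_cancel] at this
        exact this
      neg_mem' := fun {v} hv => by
        have := N.neg_mem (N.smul_mem (mono (-v)) hv)
        rw [smul_sub, ← tile_add, ← tile_add, zero_add, add_neg_cancel, neg_sub] at this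
        exact this }
  have h6 : AddSubgroup.closure (range C.δ) ≤ G :=
    (AddSubgroup.closure_le G).2 (by rintro _ ⟨a, rfl⟩; exact h2 a)
  rw [C.span_δ] at h6
  have h7 : tile (r, γ) - tile (r, 0) ∈ N := h6 (AddSubgroup.mem_top γ)
  obtain ⟨g, hg⟩ := N.sub_mem (N.add_mem (h1' a γ) h7) (h1 a')
  exact ⟨g, by rw [hg]; abel⟩

namespace Cover

variable (C : Cover σ d e)

/-- The index of the tile over a time. -/
noncomputable def ix_Nonzero (y : D.X × Lat d) (α : ℝ) : ℤ := (C.exists_K y α).choose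

/-- The tile over a time. -/
noncomputable def ed_Nonzero (y : D.X × Lat d) (α : ℝ) : A × Lat d :=
  lab (C.s (C.ix_Nonzero y α) y)

/-- The strand up to a time. -/
noncomputable def H_Nonzero (y : D.X × Lat d) (α : ℝ) : A → Rg d := C.ch y (C.ix_Nonzero y α)

lemma ix_mem_Nonzero (y : D.X × Lat d) (α : ℝ) : C.s (C.ix_Nonzero y α) y ∈ C.K α (C.z y) :=
  (C.exists_K y α).choose_spec

lemma ix_spec_Nonzero (y : D.X × Lat d) (α : ℝ) : C.p (C.s (C.ix_Nonzero y α) y) ≤ α ∧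
    α < C.p (C.s (C.ix_Nonzero y α + 1) y) := (C.mem_K_s.1 (C.ix_mem_Nonzero y α)).2

lemma ed_cov_Nonzero (y : D.X × Lat d) (α : ℝ) : C.tm (C.ed_Nonzero y α) ≤ α ∧
    α < C.tm (C.ed_Nonzero y α) + ℓ (C.ed_Nonzero y α).1 := (C.ix_mem_Nonzero y α).2

lemma ix_eq_Nonzero {y : D.X × Lat d} {α : ℝ} {n : ℤ} (h1 : C.tm (lab (C.s n y)) ≤ α)
    (h2 : α < C.tm (lab (C.s n y)) + ℓ (lab (C.s n y)).1) : C.ix_Nonzero y α = n :=
  C.K_unique (C.ix_mem_Nonzero y α) ⟨C.z_s _ _, h1, h2⟩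

lemma on_iff_Nonzero {y : D.X × Lat d} {α : ℝ} {t : A × Lat d} (h1 : C.tm t ≤ α)
    (h2 : α < C.tm t + ℓ t.1) : C.On y t ↔ C.ed_Nonzero y α = t := by
  refine ⟨?_, fun h => ⟨_, h⟩⟩
  rintro ⟨n, rfl⟩
  rw [ed_Nonzero, C.ix_eq_Nonzero h1 h2]

lemma ix_s_Nonzero (n : ℤ) (y : D.X × Lat d) (α : ℝ) :
    C.ix_Nonzero y α = n + C.ix_Nonzero (C.s n y) α := by
  have h := C.ed_cov_Nonzero (C.s n y) α
  rw [ed_Nonzero, s_s] at h
  exact C.ix_eq_Nonzero h.1 h.2

lemma step_Nonzero {y y' : D.X × Lat d} {α : ℝ} (h : C.ed_Nonzero y α = C.ed_Nonzero y' α) :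
    C.ed_Nonzero (C.S y) (c * α) = C.ed_Nonzero (C.S y') (c * α) ∧
      C.H_Nonzero (C.S y) (c * α) - C.E (C.H_Nonzero y α) =
        C.H_Nonzero (C.S y') (c * α) - C.E (C.H_Nonzero y' α) := by
  have c0 : 0 < c := by linarith [C.one_lt]
  have key : ∀ y : D.X × Lat d, C.ed_Nonzero (C.S y) (c * α) = C.ed_Nonzero
      (C.S (C.s (C.ix_Nonzero y α) y)) (c * α) ∧
      C.H_Nonzero (C.S y) (c * α) - C.E (C.H_Nonzero y α) =
        C.H_Nonzero (C.S (C.s (C.ix_Nonzero y α) y)) (c * α) := fun y => by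
    have h1 := C.ix_s_Nonzero (σ.cc y.1.1 (C.ix_Nonzero y α)) (C.S y) (c * α)
    constructor
    · rw [ed_Nonzero, h1, ← s_s, S_s, ed_Nonzero]
    · rw [H_Nonzero, h1, ch_add, H_Nonzero, E_ch, S_s, H_Nonzero, add_sub_cancel_left]
  rw [(key y).1, (key y).2, (key y').1, (key y').2]
  have b := C.ix_spec_Nonzero y α
  rw [← s_s] at b
  change lab _ = lab _ at h
  generalize C.s (C.ix_Nonzero y α) y = u at h b
  generalize C.s (C.ix_Nonzero y' α) y' = u' at h
  obtain ⟨a1, a2⟩ := C.ix_spec_Nonzero (C.S u) (c * α)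
  have hm := C.p_s_strictMono (C.S u)
  have a3 : 0 < C.ix_Nonzero (C.S u) (c * α) + 1 := hm.lt_iff_lt.1 (by
    simp only [s_zero, p_S]
    exact (mul_le_mul_of_nonneg_left b.1 c0.le).trans_lt a2)
  have a4 : C.ix_Nonzero (C.S u) (c * α) < σ.r u.1.1 := hm.lt_iff_lt.1 (by
    rw [← σ.cc_one, ← S_s, p_S]
    exact a1.trans_lt (mul_lt_mul_of_pos_left b.2 c0))
  have a5 := C.lab_S_congr h (by omega) a4
  have a6 := C.ed_cov_Nonzero (C.S u) (c * α)
  rw [ed_Nonzero, a5] at a6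
  have a7 := C.ix_eq_Nonzero a6.1 a6.2
  refine ⟨by rw [ed_Nonzero, ed_Nonzero, a7, a5], ?_⟩
  rw [H_Nonzero, H_Nonzero, a7]
  exact isum_congr fun i b1 b2 => by rw [C.lab_S_congr h (by omega) (by omega)]

open Classical in
lemma co_H_Nonzero (y : D.X × Lat d) {t₁ t₂ : ℝ} (h : t₁ ≤ t₂) (t : A × Lat d) :
    co t (C.H_Nonzero y t₂ - C.H_Nonzero y t₁) =
      if C.On y t ∧ t₁ < C.tm t + ℓ t.1 ∧ C.tm t + ℓ t.1 ≤ t₂ then 1 else 0 := by
  have hm := C.p_s_strictMono y
  obtain ⟨a1, a2⟩ := C.ix_spec_Nonzero y t₁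
  obtain ⟨a3, a4⟩ := C.ix_spec_Nonzero y t₂
  have a5 : C.ix_Nonzero y t₁ < C.ix_Nonzero y t₂ + 1 := hm.lt_iff_lt.1 ((a1.trans h).trans_lt a4)
  have a6 : ∀ j, C.tm (lab (C.s j y)) + ℓ (lab (C.s j y)).1 = C.p (C.s (j + 1) y) := fun j => by
    rw [p_s_succ, ← C.s_letter j y]; rfl
  rw [H_Nonzero, H_Nonzero, C.co_ch y (by omega)]
  refine if_congr ⟨?_, ?_⟩ rfl rfl
  · rintro ⟨j, b1, b2, rfl⟩
    rw [a6]
    exact ⟨⟨j, rfl⟩, a2.trans_le (hm.monotone (by omega)), (hm.monotone (by omega)).trans a3⟩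
  · rintro ⟨⟨j, rfl⟩, b1, b2⟩
    rw [a6] at b1 b2
    have b3 := hm.lt_iff_lt.1 (a1.trans_lt b1)
    have b4 := hm.lt_iff_lt.1 (b2.trans_lt a4)
    exact ⟨j, by omega, by omega, rfl⟩

variable {m : ℕ}

/-- Two families of strands have the same tiles over the time `α`. -/
def Ag_Nonzero (y y' : Fin m → D.X × Lat d) (α : ℝ) : Prop :=
  ∃ π : Equiv.Perm (Fin m), ∀ i, C.ed_Nonzero (y' (π i)) α = C.ed_Nonzero (y i) α

/-- The difference of two families between two times. -/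
noncomputable def W_Nonzero (y y' : Fin m → D.X × Lat d) (t₁ t₂ : ℝ) : A → Rg d :=
  ∑ i, (C.H_Nonzero (y i) t₂ - C.H_Nonzero (y i) t₁) -
    ∑ i, (C.H_Nonzero (y' i) t₂ - C.H_Nonzero (y' i) t₁)

variable {C} {y y' : Fin m → D.X × Lat d}

lemma Ag_Nonzero.sum_eq {α : ℝ} (h : C.Ag_Nonzero y y' α) {G : Type} [AddCommMonoid G]
    (f : D.X × Lat d → G) (hf : ∀ u u', C.ed_Nonzero u α = C.ed_Nonzero u' α → f u = f u') :
    ∑ i, f (y i) = ∑ i, f (y' i) := by
  obtain ⟨π, h⟩ := h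
  rw [← Equiv.sum_comp π fun i => f (y' i)]
  exact Finset.sum_congr rfl fun i _ => hf _ _ (h i).symm

lemma Ag_Nonzero.S {α : ℝ} (h : C.Ag_Nonzero y y' α) :
    C.Ag_Nonzero (fun i => C.S (y i)) (fun i => C.S (y' i)) (c * α) :=
  h.imp fun _ h i => (C.step_Nonzero (h i)).1

lemma Ag_Nonzero.sum {α : ℝ} (h : C.Ag_Nonzero y y' α) :
    ∑ i, (C.H_Nonzero (C.S (y i)) (c * α) - C.E (C.H_Nonzero (y i) α)) =
      ∑ i, (C.H_Nonzero (C.S (y' i)) (c * α) - C.E (C.H_Nonzero (y' i) α)) :=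
  h.sum_eq (fun u => C.H_Nonzero (C.S u) (c * α) - C.E (C.H_Nonzero u α))
    fun _ _ h => (C.step_Nonzero h).2

lemma E_W_Nonzero {t₁ t₂ : ℝ} (h1 : C.Ag_Nonzero y y' t₁) (h2 : C.Ag_Nonzero y y' t₂) :
    C.E (C.W_Nonzero y y' t₁ t₂) =
      C.W_Nonzero (fun i => C.S (y i)) (fun i => C.S (y' i)) (c * t₁) (c * t₂) := by
  have a1 := h1.sum
  have a2 := h2.sum
  simp only [W_Nonzero, map_sub, map_sum, Finset.sum_sub_distrib] at a1 a2 ⊢
  rw [sub_eq_iff_eq_add] at a1 a2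
  rw [a1, a2]
  abel

lemma iter_W_Nonzero {t₁ t₂ : ℝ} (h1 : C.Ag_Nonzero y y' t₁) (h2 : C.Ag_Nonzero y y' t₂) (k : ℕ) :
    C.Ag_Nonzero (fun i => C.S^[k] (y i)) (fun i => C.S^[k] (y' i)) (c ^ k * t₁) ∧
    C.Ag_Nonzero (fun i => C.S^[k] (y i)) (fun i => C.S^[k] (y' i)) (c ^ k * t₂) ∧
    C.E^[k] (C.W_Nonzero y y' t₁ t₂) = C.W_Nonzero (fun i => C.S^[k] (y i))
      (fun i => C.S^[k] (y' i)) (c ^ k * t₁) (c ^ k * t₂) := by
  induction k with
  | zero => simpa using ⟨h1, h2⟩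
  | succ k ih =>
    obtain ⟨a1, a2, a3⟩ := ih
    simp only [Function.iterate_succ_apply', pow_succ', mul_assoc, a3]
    exact ⟨a1.S, a2.S, E_W_Nonzero a1 a2⟩

lemma co_W_Nonzero {t₁ t₂ α : ℝ} (h : t₁ ≤ t₂) (hα : C.Ag_Nonzero y y' α) {t : A × Lat d}
    (h1 : C.tm t ≤ α) (h2 : α < C.tm t + ℓ t.1) : co t (C.W_Nonzero y y' t₁ t₂) = 0 := by
  rw [W_Nonzero, map_sub, map_sum, map_sum, sub_eq_zero]
  refine hα.sum_eq (fun u => co t (C.H_Nonzero u t₂ - C.H_Nonzero u t₁)) fun u u' hu => ?_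
  simp only [C.co_H_Nonzero _ h, C.on_iff_Nonzero h1 h2, hu]

lemma ag_of_Nonzero {β : Fin e → ℝ} {α : ℝ} (hy : C.Stack β y)
    (h : ∀ i, ∃ j, C.On (y' j) (C.ed_Nonzero (y i) α)) : C.Ag_Nonzero y y' α := by
  have h1 : ∀ i, ∃ j, C.ed_Nonzero (y' j) α = C.ed_Nonzero (y i) α := fun i => by
    obtain ⟨j, hj⟩ := h i
    exact ⟨j, (C.on_iff_Nonzero (C.ed_cov_Nonzero _ _).1 (C.ed_cov_Nonzero _ _).2).1 hj⟩
  choose f hf using h1
  have h2 : Function.Injective f := fun i j hij => by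
    by_contra hne
    refine hy.2 i j hne 0 (C.ed_Nonzero (y i) α) ⟨_, rfl⟩ ⟨C.ix_Nonzero (y j) α, ?_⟩
    rw [← hf i, hij, hf j]
    rfl
  exact ⟨Equiv.ofBijective f (Finite.injective_iff_bijective.1 h2), hf⟩

lemma Stack.iter_Nonzero {β : Fin e → ℝ} (hy : C.Stack β y) (k : ℕ) :
    C.Stack (C.L.B'^[k] β) fun i => C.S^[k] (y i) :=
  ⟨fun i => by rw [z_iter, hy.1], fun i j h => (hy.2 i j h).iter k⟩

end Cover

namespace Cover

variable (C : Cover σ d e)

/-- All tiles of the chain start at time `τ` or later. -/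
def Late (τ : ℝ) (z : A → Rg d) : Prop := ∀ t, co t z ≠ 0 → τ ≤ C.tm t

/-- The chain `z` represents `P` times the forward half of the family `u`, up to null chains. -/
def Good2 {r : ℕ} (u : Fin r → D.X × Lat d) (P : Rg d) (z : A → Rg d) : Prop :=
  ∀ τ, ∀ᶠ m : ℤ in atTop, ∃ n, C.Null n ∧ C.Late τ (P • ∑ i, C.ch (u i) m - z - n)

/-- The same, with the right boundary. -/
def Good {r : ℕ} (u : Fin r → D.X × Lat d) (P : Rg d) (z : A → Rg d) : Prop :=
  C.bd z = -(P • ∑ i, C.vtx (u i)) ∧ C.Good2 u P z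

variable {C}

lemma late_zero (τ : ℝ) : C.Late τ 0 := fun _ h => absurd (map_zero _) h

lemma Late.le {τ τ' : ℝ} {z : A → Rg d} (h : C.Late τ z) (h' : τ' ≤ τ) : C.Late τ' z :=
  fun t ht => h'.trans (h t ht)

lemma Late.add {τ : ℝ} {z z' : A → Rg d} (h : C.Late τ z) (h' : C.Late τ z') :
    C.Late τ (z + z') := fun t ht => by
  by_cases h1 : co t z = 0
  · exact h' t fun h2 => ht (by rw [map_add, h1, h2, add_zero])
  · exact h t h1

lemma Late.neg {τ : ℝ} {z : A → Rg d} (h : C.Late τ z) : C.Late τ (-z) :=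
  fun t ht => h t fun h2 => ht (by rw [map_neg, h2, neg_zero])

lemma Late.sub {τ : ℝ} {z z' : A → Rg d} (h : C.Late τ z) (h' : C.Late τ z') :
    C.Late τ (z - z') := by
  rw [sub_eq_add_neg]
  exact h.add h'.neg

lemma Late.zsmul {τ : ℝ} {z : A → Rg d} (h : C.Late τ z) (n : ℤ) : C.Late τ (n • z) :=
  fun t ht => h t fun h2 => ht (by rw [map_zsmul, h2, smul_zero])

lemma late_sum {τ : ℝ} {ι : Type} {s : Finset ι} {z : ι → A → Rg d}
    (h : ∀ i ∈ s, C.Late τ (z i)) : C.Late τ (∑ i ∈ s, z i) :=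
  Finset.sum_induction z (C.Late τ) (fun _ _ => Late.add) (late_zero τ) h

lemma tm_add (t : A × Lat d) (v : Lat d) : C.tm (t.1, t.2 + v) = C.tm t + C.a v := by
  simp only [tm, map_add, add_assoc]

lemma Late.mono_smul {τ : ℝ} {z : A → Rg d} (h : C.Late τ z) (v : Lat d) :
    C.Late (τ + C.a v) (mono v • z) := fun t ht => by
  have e1 : t = ((t.1, t.2 - v).1, (t.1, t.2 - v).2 + v) := by simp
  rw [e1, co_mono_smul] at ht
  rw [e1, tm_add]
  linarith [h _ ht]

lemma late_smul (C : Cover σ d e) (P : Rg d) : ∃ R : ℝ, ∀ τ z, C.Late τ z →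
    C.Late (τ - R) (P • z) := by
  refine ⟨∑ v ∈ P.coeff.support, |C.a v|, fun τ z h => ?_⟩
  conv => enter [3]; rw [poly_Null P, Finset.sum_smul]
  refine late_sum fun v hv => ?_
  rw [smul_assoc]
  refine ((h.mono_smul v).zsmul _).le ?_
  linarith [Finset.single_le_sum (f := fun v => |C.a v|) (fun _ _ => abs_nonneg _) hv,
    neg_abs_le (C.a v)]

lemma Late.iter {τ : ℝ} {z : A → Rg d} (h : C.Late τ z) (k : ℕ) :
    C.Late (c ^ k * τ) (C.E^[k] z) := by
  let F : (A → Rg d) →+ (A → Rg d) := AddMonoidHom.mk' C.E^[k] (iterate_map_add C.E k)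
  change C.Late _ (F z)
  rw [dec_Null z, map_sum]
  refine late_sum fun t ht => ?_
  rw [map_zsmul]
  refine Late.zsmul (fun t' ht' => ?_) _
  obtain ⟨y, rfl⟩ := C.exists_lab t
  have h1 := C.co_piece k y (m := 0) (n := 1) zero_le_one t'
  rw [C.ch_one, C.ch_zero, sub_zero, s_zero] at h1
  have h2 : c ^ k * C.p y ≤ C.tm t' := by
    by_contra h3
    exact ht' (h1.trans (if_neg fun x => h3 x.2.1))
  exact (mul_le_mul_of_nonneg_left (h _ (by simpa using ht))
    (pow_nonneg (by linarith [C.one_lt]) k)).trans h2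

lemma late_ch (y : D.X × Lat d) {m n : ℤ} (h : m ≤ n) :
    C.Late (C.p (C.s m y)) (C.ch y n - C.ch y m) := fun t ht => by
  have h1 := C.co_piece 0 y h t
  by_contra h3
  exact ht (h1.trans (if_neg fun x => h3 (by simpa using x.2.1)))

lemma p_s_atTop (C : Cover σ d e) (y : D.X × Lat d) (τ : ℝ) :
    ∀ᶠ m : ℤ in atTop, τ ≤ C.p (C.s m y) := by
  obtain ⟨n, hn⟩ := C.exists_K y τ
  filter_upwards [eventually_ge_atTop (n + 1)] with m hm
  exact (C.mem_K_s.1 hn).2.2.le.trans ((C.p_s_strictMono y).monotone hm)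

/-- The difference of two families that agree at relatively dense times is null. -/
theorem agree_null {m : ℕ} {y y' : Fin m → D.X × Lat d} {L : ℝ}
    (box : ∀ (k : ℕ) (s : ℝ), ∃ α, |α - s| ≤ L ∧
      C.Ag_Nonzero (fun i => C.S^[k] (y i)) (fun i => C.S^[k] (y' i)) α)
    {t₁ t₂ : ℝ} (h12 : t₁ ≤ t₂) (g1 : C.Ag_Nonzero y y' t₁) (g2 : C.Ag_Nonzero y y' t₂) :
    C.Null (C.W_Nonzero y y' t₁ t₂) := by
  classical
  have hE := lenE_Null C
  obtain ⟨l₀, l₁, h0, h1, h2⟩ := C.len_bounds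
  have c1 := C.one_lt
  have c0 : 0 < c := by linarith
  obtain ⟨a₀⟩ := D.nonempty_alph
  have hEk : ∀ (k : ℕ) z, len ℓ (C.E^[k] z) ≤ c ^ k * len ℓ z := fun k z => by
    induction k with
    | zero => simp
    | succ k ih =>
      rw [Function.iterate_succ_apply', pow_succ', mul_assoc]
      exact (hE _).trans (mul_le_mul_of_nonneg_left ih c0.le)
  obtain ⟨j, hj⟩ := pow_unbounded_of_one_lt (2 * (L + l₁) / l₀) c1
  rw [div_lt_iff₀ h0] at hj
  have l1 : 0 < l₁ := by linarith [h1 a₀, h2 a₀]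
  have cj := pow_pos c0 j
  refine tendsto_zero_Nonzero (θ := 1 - l₀ / l₁ / c ^ j) (j := j) (fun k => ?_) (fun k => ?_)
    (by have : 0 < l₀ / l₁ / c ^ j := by positivity
        linarith) fun k => ?_
  · refine div_nonneg (Finset.sum_nonneg fun x _ => Finset.sum_nonneg fun v _ => ?_) (by positivity)
    exact mul_nonneg (abs_nonneg _) (C.ℓ_pos x).le
  · rw [Function.iterate_succ_apply', div_le_div_iff₀ (by positivity) (by positivity), pow_succ]
    nlinarith [hE (C.E^[k] (C.W_Nonzero y y' t₁ t₂)), pow_pos c0 k]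
  · let F : (A → Rg d) →+ (A → Rg d) := AddMonoidHom.mk' C.E^[j] (iterate_map_add C.E j)
    have b1 := contract_Nonzero h0 h1 h2 F (hEk j) (C.E^[k] (C.W_Nonzero y y' t₁ t₂)) fun t => by
      obtain ⟨u, rfl⟩ := C.exists_lab t
      obtain ⟨α, b2, b3⟩ := box (j + k) (c ^ j * (C.p u + ℓ (u.1.1 0) / 2))
      obtain ⟨b4, b5⟩ := C.ed_cov_Nonzero (C.S^[j] u) α
      refine ⟨C.ed_Nonzero (C.S^[j] u) α, ?_, ?_⟩
      · have b6 := C.co_piece j u (m := 0) (n := 0 + 1) (by omega) (C.ed_Nonzero (C.S^[j] u) α)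
        rw [abs_le] at b2
        have b7 := mul_le_mul_of_nonneg_left (h1 (u.1.1 0)) cj.le
        have b8 := h2 (C.ed_Nonzero (C.S^[j] u) α).1
        rw [Cover.p_s_succ, Cover.s_zero, if_pos ⟨⟨_, rfl⟩, by linarith, by linarith⟩] at b6
        change co _ (C.E^[j] _) = 1
        simpa [Cover.ch_one] using b6
      · change co _ (C.E^[j] _) = 0
        rw [← Function.iterate_add_apply, (Cover.iter_W_Nonzero g1 g2 (j + k)).2.2]
        exact Cover.co_W_Nonzero (mul_le_mul_of_nonneg_left h12 (by positivity)) b3 b4 b5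
    change len ℓ (C.E^[j] _) ≤ _ at b1
    rw [← Function.iterate_add_apply, add_comm j k] at b1
    rw [div_le_iff₀ (by positivity)]
    refine b1.trans (le_of_eq ?_)
    rw [pow_add]
    field_simp

variable {r : ℕ} {u : Fin r → D.X × Lat d}

lemma good2_zero : C.Good2 u 0 0 := fun τ => .of_forall fun m =>
  ⟨0, (null_facts C).2.2.2.2.1, by simpa using late_zero τ⟩

lemma Good2.add {P P' : Rg d} {z z' : A → Rg d} (a2 : C.Good2 u P z) (b2 : C.Good2 u P' z') :
    C.Good2 u (P + P') (z + z') := fun τ => by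
  filter_upwards [a2 τ, b2 τ] with m ⟨n, a3, a4⟩ ⟨n', b3, b4⟩
  refine ⟨n + n', (null_facts C).2.2.2.2.2.1 _ _ a3 b3, ?_⟩
  have h := a4.add b4
  rwa [show ∀ x : A → Rg d, P • x - z - n + (P' • x - z' - n') =
    (P + P') • x - (z + z') - (n + n') from fun x => by rw [add_smul]; abel] at h

lemma Good2.smul {P : Rg d} {z : A → Rg d} (a2 : C.Good2 u P z) (Q : Rg d) :
    C.Good2 u (Q * P) (Q • z) := fun τ => by
  obtain ⟨R, hR⟩ := C.late_smul Q
  filter_upwards [a2 (τ + R)] with m ⟨n, a3, a4⟩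
  refine ⟨Q • n, (null_facts C).2.2.2.2.2.2.1 _ _ a3, ?_⟩
  have h := hR _ _ a4
  rwa [add_sub_cancel_right, smul_sub, smul_sub, ← mul_smul] at h

lemma Good2.null {z : A → Rg d} (h : C.Good2 u 0 z) : C.Null z := by
  have hc : ∀ k : ℕ, 0 < c ^ k := fun k => pow_pos (by linarith [C.one_lt]) k
  obtain ⟨t₀, t₁, hl⟩ := loc_Null C z
  obtain ⟨m, n, a3, a4⟩ := (h t₁).exists
  have h0 : ∀ t : A × Lat d, 0 ≤ ℓ t.1 := fun t => (C.ℓ_pos _).le
  refine squeeze_zero (fun k => div_nonneg (by rw [len_Null]; exact nonneg_Null h0 _) (hc k).le)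
    (fun k => div_le_div_of_nonneg_right ?_ (hc k).le) a3
  rw [len_Null, len_Null]
  refine (summ_Null _ _).tsum_le_tsum (fun t => mul_le_mul_of_nonneg_right ?_ (h0 t))
    (summ_Null _ _)
  by_cases h1 : co t (C.E^[k] z) = 0
  · simp [h1]
  · have h2 : co t (C.E^[k] ((0 : Rg d) • ∑ i, C.ch (u i) m - z - n)) = 0 := by
      by_contra h3
      exact absurd (hl k t h1).2 (not_lt.2 (a4.iter k t h3))
    rw [zero_smul, zero_sub, iterate_map_sub, iterate_map_neg, map_sub, map_neg,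
      sub_eq_zero] at h2
    rw [← h2, Int.cast_neg, abs_neg]

/-- The cross relation. -/
lemma Good2.cross {P P' : Rg d} {z z' : A → Rg d} (h : C.Good2 u P z) (h' : C.Good2 u P' z') :
    C.Null (P • z' - P' • z) := by
  have h1 := (h'.smul P).add (h.smul (-P'))
  rw [neg_mul, mul_comm P', add_neg_cancel, neg_smul, ← sub_eq_add_neg] at h1
  exact h1.null

/-- The good pairs form a submodule. -/
def goodM (C : Cover σ d e) (u : Fin r → D.X × Lat d) : Submodule (Rg d) (Rg d × (A → Rg d)) where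
  carrier := {x | C.Good u x.1 x.2}
  zero_mem' := ⟨by simp, good2_zero⟩
  add_mem' := by
    rintro ⟨P, z⟩ ⟨P', z'⟩ ⟨a1, a2⟩ ⟨b1, b2⟩
    refine ⟨?_, a2.add b2⟩
    dsimp only at a1 b1
    simp only [Prod.fst_add, Prod.snd_add, map_add, a1, b1, add_smul, neg_add]
  smul_mem' := by
    rintro Q ⟨P, z⟩ ⟨a1, a2⟩
    refine ⟨?_, a2.smul Q⟩
    dsimp only at a1
    simp only [Prod.smul_fst, Prod.smul_snd, map_smul, a1, smul_neg, smul_assoc]

/-- The null chains form a submodule. -/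
def nullM (C : Cover σ d e) : Submodule (Rg d) (A → Rg d) where
  carrier := {z | C.Null z}
  zero_mem' := (null_facts C).2.2.2.2.1
  add_mem' := fun a b => (null_facts C).2.2.2.2.2.1 _ _ a b
  smul_mem' := fun P _ a => (null_facts C).2.2.2.2.2.2.1 P _ a

end Cover

theorem contr (C : Cover σ d e) (v : Lat d) :
    Tendsto (fun k => C.b (C.Bz^[k] v)) atTop (𝓝 0) := by
  obtain ⟨K, -, hK⟩ := bound_Lin2 C.L C.one_lt C.uB
  have h1 : ∀ j k, (C.L.φ j ⬝ᵥ fun i => (toR (C.Bz^[k] v) i : ℂ)) =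
      C.L.lam j ^ k * (C.L.φ j ⬝ᵥ fun i => (toR v i : ℂ)) := fun j k => by
    induction k with
    | zero => simp
    | succ k ih =>
      rw [Function.iterate_succ_apply', pow_succ', mul_assoc, ← ih, ← phiB_Lin2, ← toR_mulVec]
      rfl
  refine squeeze_zero_norm (fun k => hK (toR (C.Bz^[k] v))) ?_
  simp only [h1]
  have h2 := (tendsto_finsetSum Finset.univ fun j _ =>
    ((tendsto_pow_atTop_nhds_zero_of_norm_lt_one (C.L.lam_lt j)).mul_const
      (C.L.φ j ⬝ᵥ fun i => (toR v i : ℂ))).norm).const_mul K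
  simpa using h2

theorem isConn (C : Cover σ d e) : IsConn C.bd (range C.st) := by
  refine ⟨fun z p hp => Finset.sum_eq_zero fun x _ => ?_, fun y h1 h2 => ?_⟩
  · obtain ⟨u, rfl⟩ := C.occ x
    have a1 : C.en (u.1 0) ≠ p := fun h => hp ⟨_, (C.st_en u).symm.trans h⟩
    have a2 : C.st (u.1 0) ≠ p := fun h => hp ⟨_, h⟩
    simp [bdM, a1, a2]
  · obtain ⟨a₀⟩ := D.nonempty_alph
    let T : (A → Rg d) →+ ℤ :=
      { toFun := tot
        map_zero' := by simp [tot]
        map_add' := fun _ _ => by simp [tot, Finset.sum_add_distrib] }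
    have h3 : ∀ t, T (tile t) = 1 := fun t => by
      change ∑ p, aug (tile t p) = 1
      rw [← map_sum]
      simp [tile]
    have h4 : T y = ∑ t ∈ (fin_Null y).toFinset, co t y := by
      conv_lhs => rw [dec_Null y, map_sum]
      simp only [map_zsmul, h3, smul_eq_mul, mul_one]
    have h5 : y - T y • tile (C.st a₀, 0) ∈ LinearMap.range C.bd := by
      rw [h4, Finset.sum_smul]
      conv => enter [2, 1]; rw [dec_Null y]
      rw [← Finset.sum_sub_distrib]
      refine sum_mem fun t ht => ?_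
      obtain ⟨a, ha⟩ : t.1 ∈ range C.st := by
        by_contra h
        simp [co_apply, h1 _ h] at ht
      rw [← smul_sub, show t = (C.st a, t.2) by rw [ha]]
      exact zsmul_mem (show _ ∈ LinearMap.range C.bd from conn_ex_One C a a₀ t.2) _
    rwa [show T y = 0 from h2, zero_smul, sub_zero] at h5

theorem nil (C : Cover σ d e) :
    ∃ n₀ : ℕ, ∀ z, C.bd z = 0 → ∀ x, aug (C.E^[n₀] z x) = 0 := by
  obtain ⟨N, hN⟩ := C.nil C.Mx C.hasMat
  have h1 : ∀ k z, (fun x => aug (C.E^[k] z x)) = C.Mx ^ k *ᵥ fun x => aug (z x) := fun k z => by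
    induction k with
    | zero => simp
    | succ k ih =>
      rw [Function.iterate_succ_apply', pow_succ', ← Matrix.mulVec_mulVec, ← ih]
      funext b
      simp [C.E_apply, Matrix.mulVec, dotProduct, C.aug_J, aug_mu]
  refine ⟨N, fun z hz x => ?_⟩
  obtain ⟨a1, a2⟩ := aug_Nil hz
  have a3 := hN (fun a => aug (z a)) (fun p => by exact_mod_cast a1 p) (fun i => by
    have := congrFun a2 i
    simp only [Finset.sum_apply, Pi.smul_apply, smul_eq_mul, mul_comm (aug _)] at this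
    exact_mod_cast this) x
  rw [congrFun (h1 N z) x]
  exact_mod_cast a3

lemma iter_smul_Fin (C : Cover σ d e) (k : ℕ) (P : Rg d) (z : A → Rg d) :
    C.E^[k] (P • z) = (mu C.Bz)^[k] P • C.E^[k] z := by
  induction k with
  | zero => rfl
  | succ k ih => simp only [Function.iterate_succ_apply', ih, C.E_smul]

lemma lower_Fin (C : Cover σ d e) (y : D.X × Lat d) {m n : ℤ} (h : m ≤ n) {z : A → Rg d}
    (hz : ∀ i, m ≤ i → i < n → co (Cover.lab (C.s i y)) z ≠ 0) :
    C.p (C.s n y) - C.p (C.s m y) ≤ len ℓ z := by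
  refine le_trans ?_ (sum_le_len_One C.ℓ_pos
    ((Finset.Ico m n).image fun j => Cover.lab (C.s j y)) z)
  rw [Finset.sum_image fun i _ j _ hij => C.lab_s_inj y hij, C.p_s, C.p_s, add_sub_add_left_eq_sub,
    pos, pos, ← sum_Ico_eq_isum _ h]
  refine Finset.sum_le_sum fun j hj => ?_
  have h1 : (1 : ℝ) ≤ |((co (Cover.lab (C.s j y)) z : ℤ) : ℝ)| := by
    exact_mod_cast Int.one_le_abs (hz j (Finset.mem_Ico.1 hj).1 (Finset.mem_Ico.1 hj).2)
  have h2 : (Cover.lab (C.s j y)).1 = y.1.1 j := C.s_letter j y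
  rw [h2]
  exact le_mul_of_one_le_left (C.ℓ_pos _).le h1

end Pool.Agent.MP_4168de_an.W
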