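import Pool.Agent.Mg.F4168de.G5fb391

/-! The abelian cover for an arbitrary Pisot dilatation: data, strands, existence. -/

namespace Pool.Agent.MP_4168de_an.W

open Set Filter Topology Shift Matrix G

/-- Linear algebra of a nonsingular integer matrix with a Pisot eigenvalue. -/
structure LinData {d : ℕ} (B : Matrix (Fin d) (Fin d) ℤ) (u : Fin d → ℝ) (c : ℝ) (e : ℕ) where
  Ψ : (ℝ × (Fin e → ℝ)) ≃L[ℝ] (Fin d → ℝ)
  B' : (Fin e → ℝ) ≃L[ℝ] (Fin e → ℝ)
  fst_symm : ∀ y, (Ψ.symm y).1 = u ⬝ᵥ y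
  snd_B : ∀ y, (Ψ.symm (B.map (Int.cast : ℤ → ℝ) *ᵥ y)).2 = B' (Ψ.symm y).2
  u_inj : ∀ v : Lat d, u ⬝ᵥ toR v = 0 → v = 0
  φ : Fin e → Fin d → ℂ
  lam : Fin e → ℂ
  φB : ∀ j, φ j ᵥ* B.map (Int.cast : ℤ → ℂ) = lam j • φ j
  sep : ∀ y : Fin d → ℂ, (fun i => (u i : ℂ)) ⬝ᵥ y = 0 → (∀ j, φ j ⬝ᵥ y = 0) → y = 0
  lam_lt : ∀ j, ‖lam j‖ < 1

section

variable {A : Type} [Fintype A] [DecidableEq A] [TopologicalSpace A]

/-- The first homology of the graph, with the lifted substitution. -/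
structure GraphData {D : Shift A} {ℓ : A → ℝ} {c : ℝ} (σ : DSub D ℓ c) (d : ℕ)
    extends Vert D where
  δ : A → Lat d
  κ : A → Lat d
  f : A → A
  w : A → ℝ
  B : Matrix (Fin d) (Fin d) ℤ
  u : Fin d → ℝ
  detB : B.det ≠ 0
  u_ne : u ≠ 0
  uB : u ᵥ* B.map (Int.cast : ℤ → ℝ) = c • u
  hw : ∀ a, w (en a) + u ⬝ᵥ toR (δ a) = w (st a) + ℓ a
  hf : ∀ x : D.X, st ((σ.T x).1 0) = f (st (x.1 0))
  hκ : ∀ x : D.X, σ.star (fun y => δ (y.1 0)) x =
    B *ᵥ δ (x.1 0) + κ (en (x.1 0)) - κ (st (x.1 0))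
  wT : ∀ x : D.X, w (st ((σ.T x).1 0)) + u ⬝ᵥ toR (κ (st (x.1 0))) = c * w (st (x.1 0))
  nil : ∀ M : Matrix A A ℤ, HasMat σ.toRSub M → ∃ N : ℕ, ∀ v : A → ℂ,
    (∀ p, ∑ a, (inc st en p a : ℂ) * v a = 0) → (∀ i, ∑ a, (δ a i : ℂ) * v a = 0) →
    ∀ b, ∑ a, ((M ^ N) b a : ℂ) * v a = 0
  span_δ : AddSubgroup.closure (range δ) = ⊤
  base : ∃ x₀ : D.X, ∀ a, ∃ n, st (x₀.1 n) = st a ∧ bs (fun y => δ (y.1 0)) x₀ n = 0

/-- The full data of the cover. -/
structure Cover {D : Shift A} {ℓ : A → ℝ} {c : ℝ} (σ : DSub D ℓ c) (d e : ℕ)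
    extends GraphData σ d where
  L : LinData B u c e
  Mx : Matrix A A ℤ
  hasMat : HasMat σ.toRSub Mx
  occ : ∀ a, ∃ x : D.X, x.1 0 = a
  ℓ_pos : ∀ a, 0 < ℓ a
  one_lt : 1 < c
  M : D.X → Fin e → ℝ
  contM : Continuous M
  hM : ∀ x, M (D.τ 1 x) + (L.Ψ.symm (toR (δ (x.1 0)))).2 = M x
  MT : ∀ x, M (σ.T x) + (L.Ψ.symm (toR (κ (st (x.1 0))))).2 = L.B' (M x)
  dense : DenseRange fun v : Lat d => (L.Ψ.symm (toR v)).2

end

section

variable {d e : ℕ} {B : Matrix (Fin d) (Fin d) ℤ} {u : Fin d → ℝ} {c : ℝ}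

theorem phiB_Lin2 (L : LinData B u c e) (j : Fin e) (y : Fin d → ℝ) :
    (L.φ j ⬝ᵥ fun i => ((B.map (Int.cast : ℤ → ℝ) *ᵥ y) i : ℂ)) =
      L.lam j * (L.φ j ⬝ᵥ fun i => (y i : ℂ)) := by
  rw [cast_Lin2, dotProduct_mulVec, L.φB, smul_dotProduct, smul_eq_mul]

theorem sep_Lin2 (L : LinData B u c e) (y : Fin d → ℝ) (h0 : u ⬝ᵥ y = 0)
    (h : ∀ j, (L.φ j ⬝ᵥ fun i => (y i : ℂ)) = 0) : y = 0 := by
  have h1 : ((fun i => (u i : ℂ)) ⬝ᵥ fun i => (y i : ℂ)) = ((u ⬝ᵥ y : ℝ) : ℂ) := by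
    simp [dotProduct]
  have h2 := L.sep (fun i => (y i : ℂ)) (by rw [h1, h0, Complex.ofReal_zero]) h
  funext i
  have := congrFun h2 i
  simpa using this

theorem eig_Lin2 (L : LinData B u c e) (j : Fin e) (y : Fin d → ℝ) (t : ℝ) (ht : 1 ≤ t)
    (h : B.map (Int.cast : ℤ → ℝ) *ᵥ y = t • y) : (L.φ j ⬝ᵥ fun i => (y i : ℂ)) = 0 := by
  have h1 := phiB_Lin2 L j y
  have h2 : (L.φ j ⬝ᵥ fun i => ((t • y) i : ℂ)) = t * (L.φ j ⬝ᵥ fun i => (y i : ℂ)) := by
    simp only [dotProduct, Pi.smul_apply, smul_eq_mul, Complex.ofReal_mul, Finset.mul_sum]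
    exact Finset.sum_congr rfl fun i _ => by ring
  rw [h, h2] at h1
  by_contra hne
  have h3 : (t : ℂ) = L.lam j := mul_right_cancel₀ hne h1
  have h4 := L.lam_lt j
  rw [← h3, Complex.norm_real, Real.norm_eq_abs, abs_of_pos (by linarith)] at h4
  linarith

theorem uPsi_Lin2 (L : LinData B u c e) (p : ℝ × (Fin e → ℝ)) : u ⬝ᵥ L.Ψ p = p.1 := by
  rw [← L.fst_symm, ContinuousLinearEquiv.symm_apply_apply]

theorem bound_Lin2 (L : LinData B u c e) (hc : 1 < c)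
    (hu : u ᵥ* B.map (Int.cast : ℤ → ℝ) = c • u) : ∃ K : ℝ, 0 ≤ K ∧
    ∀ y : Fin d → ℝ, ‖(L.Ψ.symm y).2‖ ≤ K * ∑ j, ‖L.φ j ⬝ᵥ fun i => (y i : ℂ)‖ := by
  have e0 : B.map (Int.cast : ℤ → ℝ) *ᵥ L.Ψ (1, 0) = c • L.Ψ (1, 0) := by
    apply L.Ψ.symm.injective
    refine Prod.ext ?_ ?_
    · rw [L.fst_symm, uB_Lin2 hu, uPsi_Lin2]
      simp
    · rw [L.snd_B]
      simp
  let F0 : (Fin d → ℝ) →ₗ[ℝ] (Fin e → ℂ) :=
    { toFun := fun y j => L.φ j ⬝ᵥ fun i => (y i : ℂ)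
      map_add' := fun y z => by
        funext j
        simp [dotProduct, mul_add, Finset.sum_add_distrib]
      map_smul' := fun t y => by
        funext j
        simp only [dotProduct, Pi.smul_apply, smul_eq_mul, Complex.ofReal_mul, RingHom.id_apply,
          Complex.real_smul, Finset.mul_sum]
        exact Finset.sum_congr rfl fun i _ => by ring }
  let F : (Fin e → ℝ) →ₗ[ℝ] (Fin e → ℂ) :=
    F0 ∘ₗ (L.Ψ.toLinearEquiv : (ℝ × (Fin e → ℝ)) →ₗ[ℝ] (Fin d → ℝ)) ∘ₗ LinearMap.inr ℝ ℝ (Fin e → ℝ)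
  have hF : ∀ β, F β = F0 (L.Ψ (0, β)) := fun β => rfl
  have hker : LinearMap.ker F = ⊥ := by
    rw [LinearMap.ker_eq_bot']
    intro β hβ
    have h1 := sep_Lin2 L (L.Ψ (0, β)) (uPsi_Lin2 L _) fun j => congrFun hβ j
    have h2 : ((0, β) : ℝ × (Fin e → ℝ)) = 0 := L.Ψ.injective (by rw [h1, map_zero])
    exact congrArg Prod.snd h2
  obtain ⟨K, -, hK⟩ := F.exists_antilipschitzWith hker
  refine ⟨K, K.2, fun y => ?_⟩
  have h0 : F0 (L.Ψ (1, 0)) = 0 := funext fun j => eig_Lin2 L j _ c hc.le e0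
  have h1 : F (L.Ψ.symm y).2 = F0 y := by
    have h2 : y = (L.Ψ.symm y).1 • L.Ψ (1, 0) + L.Ψ (0, (L.Ψ.symm y).2) := by
      rw [← map_smul, ← map_add]
      simp
    conv_rhs => rw [h2, map_add, map_smul, h0, smul_zero, zero_add]
    exact hF _
  refine (ZeroHomClass.bound_of_antilipschitz F hK _).trans
    (mul_le_mul_of_nonneg_left ?_ K.2)
  rw [h1]
  refine (pi_norm_le_iff_of_nonneg (Finset.sum_nonneg fun j _ => norm_nonneg _)).2 fun j => ?_
  exact Finset.single_le_sum (f := fun j => ‖L.φ j ⬝ᵥ fun i => (y i : ℂ)‖)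
    (fun j _ => norm_nonneg _) (Finset.mem_univ j)

theorem surj_Lin2 (L : LinData B u c e) (hu : u ᵥ* B.map (Int.cast : ℤ → ℝ) = c • u)
    (k : Fin e → ℝ) : ∃ m, L.B' m - m = k := by
  let T : (Fin e → ℝ) →ₗ[ℝ] (Fin e → ℝ) :=
    (L.B'.toLinearEquiv : (Fin e → ℝ) →ₗ[ℝ] (Fin e → ℝ)) - LinearMap.id
  have hT : ∀ m, T m = L.B' m - m := fun m => rfl
  have hinj : Function.Injective T := by
    rw [← LinearMap.ker_eq_bot, LinearMap.ker_eq_bot']
    intro m hm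
    rw [hT, sub_eq_zero] at hm
    have e0 : B.map (Int.cast : ℤ → ℝ) *ᵥ L.Ψ (0, m) = (1 : ℝ) • L.Ψ (0, m) := by
      apply L.Ψ.symm.injective
      refine Prod.ext ?_ ?_
      · rw [L.fst_symm, uB_Lin2 hu, uPsi_Lin2]
        simp
      · rw [L.snd_B]
        simp [hm]
    have h1 := sep_Lin2 L (L.Ψ (0, m)) (uPsi_Lin2 L _) fun j => eig_Lin2 L j _ 1 le_rfl e0
    have h2 : ((0, m) : ℝ × (Fin e → ℝ)) = 0 := L.Ψ.injective (by rw [h1, map_zero])
    exact congrArg Prod.snd h2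
  exact LinearMap.injective_iff_surjective.1 hinj k

theorem approx_Lin2 (L : LinData B u c e) (k : ℕ) : ∀ β : Fin e → ℝ,
    ∃ (v : Fin d → ℤ) (z : Fin d → ℝ), β - (L.Ψ.symm (toR v)).2 = (L.Ψ.symm z).2 ∧
      ∀ j, ‖L.φ j ⬝ᵥ fun i => (z i : ℂ)‖ ≤ ‖L.lam j‖ ^ k * ∑ i, ‖L.φ j i‖ := by
  induction k with
  | zero =>
    intro β
    refine ⟨fun i => ⌊L.Ψ (0, β) i⌋, L.Ψ (0, β) - toR fun i => ⌊L.Ψ (0, β) i⌋, by simp,
      fun j => ?_⟩
    rw [pow_zero, one_mul]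
    refine (norm_sum_le _ _).trans (Finset.sum_le_sum fun i _ => ?_)
    rw [norm_mul, Complex.norm_real, Real.norm_eq_abs]
    refine mul_le_of_le_one_right (norm_nonneg _) ?_
    change |Int.fract (L.Ψ (0, β) i)| ≤ 1
    rw [abs_of_nonneg (Int.fract_nonneg _)]
    exact (Int.fract_lt_one _).le
  | succ k ih =>
    intro β
    obtain ⟨v, z, h1, h2⟩ := ih (L.B'.symm β)
    refine ⟨B *ᵥ v, B.map (Int.cast : ℤ → ℝ) *ᵥ z, ?_, fun j => ?_⟩
    · rw [toR_Lin2, L.snd_B, L.snd_B, ← h1, map_sub, ContinuousLinearEquiv.apply_symm_apply]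
    · rw [phiB_Lin2, norm_mul, pow_succ', mul_assoc]
      exact mul_le_mul_of_nonneg_left (h2 j) (norm_nonneg _)

end

theorem lin2 {d e : ℕ} {B : Matrix (Fin d) (Fin d) ℤ} {u : Fin d → ℝ} {c : ℝ}
    (L : LinData B u c e) (hc : 1 < c) (hu : u ᵥ* B.map (Int.cast : ℤ → ℝ) = c • u) :
    (∃ K : ℝ, ∀ y : Fin d → ℝ, ‖(L.Ψ.symm y).2‖ ≤ K * ∑ j, ‖L.φ j ⬝ᵥ fun i => (y i : ℂ)‖) ∧
    (∀ k : Fin e → ℝ, ∃ m, L.B' m - m = k) ∧
    DenseRange fun v : Lat d => (L.Ψ.symm (toR v)).2 := by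
  obtain ⟨K, hK0, hK⟩ := bound_Lin2 L hc hu
  refine ⟨⟨K, hK⟩, surj_Lin2 L hu, Metric.denseRange_iff.2 fun β ε hε => ?_⟩
  have t : Tendsto (fun k : ℕ => K * ∑ j, ‖L.lam j‖ ^ k * ∑ i, ‖L.φ j i‖) atTop
      (𝓝 (K * ∑ j : Fin e, 0 * ∑ i, ‖L.φ j i‖)) :=
    (tendsto_finsetSum _ fun j _ =>
      (tendsto_pow_atTop_nhds_zero_of_lt_one (norm_nonneg _) (L.lam_lt j)).mul_const _).const_mul K
  simp only [zero_mul, Finset.sum_const_zero, mul_zero] at t
  obtain ⟨k, hk⟩ := (t.eventually (gt_mem_nhds hε)).exists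
  obtain ⟨v, z, h1, h2⟩ := approx_Lin2 L k β
  refine ⟨v, ?_⟩
  rw [dist_eq_norm, h1]
  exact ((hK z).trans (mul_le_mul_of_nonneg_left (Finset.sum_le_sum fun j _ => h2 j) hK0)).trans_lt
    hk

open Polynomial Module in
theorem lin {d d' : ℕ} (B : Matrix (Fin d) (Fin d) ℤ) (u : Fin d → ℝ) {c : ℝ} (hc : IsPisot c d')
    (hd : d ≤ d') (hB : B.det ≠ 0) (hu : u ≠ 0) (huB : u ᵥ* B.map (Int.cast : ℤ → ℝ) = c • u) :
    ∃ e, Nonempty (LinData B u c e) := by
  classical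
  have hmap : ∀ (K : Type) [Field K], (B.map (Int.cast : ℤ → K)).charpoly =
      B.charpoly.map (algebraMap ℤ K) := fun K _ => Matrix.charpoly_map B (algebraMap ℤ K)
  have hroot : ∀ (K : Type) [Field K] (z : K), (B.map (Int.cast : ℤ → K)).charpoly.IsRoot z ↔
      aeval z B.charpoly = 0 := fun K _ z => by rw [hmap, IsRoot.def, eval_map_algebraMap]
  have hdet : ∀ (K : Type) [Field K], (B.map (Int.cast : ℤ → K)).det = (B.det : K) :=
    fun K _ => ((Int.castRingHom K).map_det B).symm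
  have r1 := (left_Lin _ c).1 ⟨u, hu, huB⟩
  have r2 := (hroot ℝ c).1 r1
  have hcQ : IsIntegral ℚ c := hc.int.tower_top
  have hmin : (B.map (Int.cast : ℤ → ℚ)).charpoly = minpoly ℚ c := by
    refine eq_of_monic_of_dvd_of_natDegree_le (minpoly.monic hcQ) (Matrix.charpoly_monic _)
      (minpoly.dvd ℚ c ?_) ?_
    · rw [hmap, aeval_map_algebraMap, r2]
    · rw [Matrix.charpoly_natDegree_eq_dim, Fintype.card_fin, hc.deg]
      exact hd
  have hirr : Irreducible (B.map (Int.cast : ℤ → ℚ)).charpoly := hmin ▸ minpoly.irreducible hcQ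
  set P := (B.map (Int.cast : ℤ → ℂ)).charpoly with hP
  have hPQ : P = (minpoly ℚ c).map (algebraMap ℚ ℂ) := by
    rw [← hmin, hP, hmap, hmap, Polynomial.map_map, ← IsScalarTower.algebraMap_eq]
  have hP0 : P ≠ 0 := (Matrix.charpoly_monic _).ne_zero
  have hnd : P.roots.Nodup := nodup_roots (hPQ ▸ (minpoly.irreducible hcQ).separable.map)
  have hcard : P.roots.card = d := by
    rw [← (IsAlgClosed.splits P).natDegree_eq_card_roots, hP, Matrix.charpoly_natDegree_eq_dim,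
      Fintype.card_fin]
  have huC : (fun i => (u i : ℂ)) ᵥ* B.map (Int.cast : ℤ → ℂ) = (c : ℂ) • fun i => (u i : ℂ) := by
    ext j
    have := congrArg (fun x : ℝ => (x : ℂ)) (congrFun huB j)
    simpa [Matrix.vecMul, dotProduct] using this
  have huC0 : (fun i => (u i : ℂ)) ≠ 0 := fun e => hu (by
    ext i
    simpa using congrFun e i)
  have hcP : (c : ℂ) ∈ P.roots := (mem_roots hP0).2 ((left_Lin _ _).1 ⟨_, huC0, huC⟩)
  let F : Finset ℂ := ⟨P.roots.erase c, hnd.erase _⟩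
  have hF : F.card + 1 = d := by
    rw [← hcard]
    exact Multiset.card_erase_add_one hcP
  let lam : Fin F.card → ℂ := fun j => F.equivFin.symm j
  have hlam : ∀ j, lam j ≠ c ∧ lam j ∈ P.roots := fun j =>
    hnd.mem_erase_iff.1 (F.equivFin.symm j).2
  have hinj : Function.Injective lam := Subtype.val_injective.comp F.equivFin.symm.injective
  choose φ φ0 φB using fun j => (left_Lin _ _).2 ((mem_roots hP0).1 (hlam j).2)
  have hsep : ∀ y : Fin d → ℂ, (fun i => (u i : ℂ)) ⬝ᵥ y = 0 → (∀ j, φ j ⬝ᵥ y = 0) → y = 0 := by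
    intro y h1 h2
    refine sep_Lin (ι := Option (Fin F.card)) (B.map (Int.cast : ℤ → ℂ))
      (fun o => o.elim (c : ℂ) lam) ?_ (fun o => o.elim (fun i => (u i : ℂ)) φ) ?_ ?_
      (by simpa using hF) y ?_
    · rintro (_ | a) (_ | b) hab
      · rfl
      · exact absurd hab.symm (hlam b).1
      · exact absurd hab (hlam a).1
      · exact congrArg some (hinj hab)
    · rintro (_ | a)
      exacts [huC0, φ0 a]
    · rintro (_ | a)
      exacts [huC, φB a]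
    · rintro (_ | a)
      exacts [h1, h2 a]
  obtain ⟨e1, e10, e1B⟩ := right_Lin _ c r1
  have hue : u ⬝ᵥ e1 ≠ 0 := by
    intro h
    have e1C : B.map (Int.cast : ℤ → ℂ) *ᵥ (fun i => (e1 i : ℂ)) =
        (c : ℂ) • fun i => (e1 i : ℂ) := by
      ext j
      have := congrArg (fun x : ℝ => (x : ℂ)) (congrFun e1B j)
      simpa [Matrix.mulVec, dotProduct] using this
    have h1 := hsep (fun i => (e1 i : ℂ)) (by
      have := congrArg (fun x : ℝ => (x : ℂ)) h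
      simpa [dotProduct] using this) fun j => by
      have h2 := dot_Lin _ (φB j) (fun i => (e1 i : ℂ))
      rw [e1C, dotProduct_smul, smul_eq_mul] at h2
      exact (mul_eq_mul_right_iff.1 h2).resolve_left (hlam j).1.symm
    exact e10 (by
      ext i
      simpa using congrFun h1 i)
  obtain ⟨Ψ, B', h1, h2⟩ := psi_Lin hF (B.map (Int.cast : ℤ → ℝ))
    (by rw [hdet]; exact_mod_cast hB) u ((u ⬝ᵥ e1)⁻¹ • e1) c huB
    (by rw [Matrix.mulVec_smul, e1B, smul_comm])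
    (by rw [dotProduct_smul, smul_eq_mul, inv_mul_cancel₀ hue])
  exact ⟨F.card, ⟨⟨Ψ, B', h1, h2, uinj_Lin B u c hu huB hirr, φ, lam, φB, hsep,
    fun j => hc.conj _ (by rw [aroots_def, ← hPQ]; exact (hlam j).2) (hlam j).1⟩⟩⟩

theorem cover {A : Type} [Fintype A] [DecidableEq A] [TopologicalSpace A] [DiscreteTopology A]
    {D : Shift A} {ℓ : A → ℝ} {c : ℝ} {σ : DSub D ℓ c} {M : Matrix A A ℤ} {d e : ℕ}
    (G : GraphData σ d) (L : LinData G.B G.u c e) (hℓ : ∀ a, 0 < ℓ a) (hc : 1 < c)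
    (occ : ∀ a, ∃ x : D.X, x.1 0 = a) (hr : ∀ x, 2 ≤ σ.r x) (hM : HasMat σ.toRSub M) :
    Nonempty (Cover σ d e) := by
  obtain ⟨⟨K, hK⟩, hm, hd⟩ := lin2 L hc G.uB
  let b : Lat d →+ (Fin e → ℝ) :=
    ((AddMonoidHom.snd ℝ (Fin e → ℝ)).comp
      (L.Ψ.symm : (Fin d → ℝ) →L[ℝ] ℝ × (Fin e → ℝ)).toLinearMap.toAddMonoidHom).comp
      (toRHom_Cover d)
  have hb : ∀ v, b v = (L.Ψ.symm (toR v)).2 := fun v => rfl
  have bB : ∀ v, b (G.B *ᵥ v) = L.B' (b v) := fun v => by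
    rw [hb, hb, toR_mulVec_Cover, L.snd_B]
  let δ' : D.X → Lat d := fun y => G.δ (y.1 0)
  let κ' : D.X → Lat d := fun y => G.κ (G.st (y.1 0))
  have lδ : IsLocallyConstant δ' := (lc_letter 0).comp G.δ
  have lκ : IsLocallyConstant κ' := (lc_letter 0).comp fun a => G.κ (G.st a)
  have hstar : ∀ x, σ.star δ' x = G.B *ᵥ δ' x + (κ' (D.τ 1 x) - κ' x) := fun x => by
    have h1 := G.hκ x
    rw [G.st_en] at h1
    have h2 : κ' (D.τ 1 x) = G.κ (G.st (x.1 1)) := by simp [κ', sh]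
    rw [h2, add_sub_assoc']
    exact h1
  have hj : ∀ j, ∃ Kj, ∀ x n, ‖bs (fun y => clin_Cover (L.φ j) (δ' y)) x n‖ ≤ Kj := fun j =>
    bdd_sums_Cover σ hr (k := fun y => clin_Cover (L.φ j) (κ' y))
      (lδ.comp (clin_Cover (L.φ j))).continuous (lκ.comp (clin_Cover (L.φ j))).continuous
      (L.lam_lt j) fun x => by
        rw [← σ.map_star, hstar, map_add, map_sub, clin_mulVec_Cover G.B (L.φB j)]
  choose Kj hKj using hj
  have hbd : ∀ x n, ‖b (bs δ' x n)‖ ≤ |K| * ∑ j, Kj j := fun x n => by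
    refine (hK (toR (bs δ' x n))).trans ((mul_le_mul_of_nonneg_right (le_abs_self K)
      (Finset.sum_nonneg fun j _ => norm_nonneg _)).trans
      (mul_le_mul_of_nonneg_left (Finset.sum_le_sum fun j _ => ?_) (abs_nonneg K)))
    have h1 := hKj j x n
    rw [← map_bs] at h1
    have e : (fun i => ((toR (bs δ' x n) i : ℝ) : ℂ)) = fun i => (bs δ' x n i : ℂ) := by
      ext i; simp [toR]
    rw [e]
    exact h1
  have hi : ∀ i : Fin e, ∃ M₀ : D.X → ℝ, Continuous M₀ ∧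
      ∀ x, M₀ (D.τ 1 x) + b (δ' x) i = M₀ x := fun i =>
    gottschalk (ψ := fun x => b (δ' x) i) (K := |K| * ∑ j, Kj j)
      (lδ.comp fun v => b v i).continuous fun x n => by
        have h1 := map_bs ((Pi.evalAddMonoidHom (fun _ : Fin e => ℝ) i).comp b) δ' x n
        simp only [AddMonoidHom.coe_comp, Function.comp_apply, Pi.evalAddMonoidHom_apply] at h1
        rw [← h1]
        exact (norm_le_pi_norm (b (bs δ' x n)) i).trans (hbd x n)
  choose M₁ cM₁ hM₁ using hi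
  let M₀ : D.X → Fin e → ℝ := fun x i => M₁ i x
  have cM₀ : Continuous M₀ := continuous_pi cM₁
  have hM₀ : ∀ x, M₀ (D.τ 1 x) = M₀ x + -b (δ' x) := fun x => by
    ext i
    have := hM₁ i x
    simp only [M₀, Pi.add_apply, Pi.neg_apply]
    linarith
  have Mτ : ∀ x n, M₀ (D.τ n x) = M₀ x - b (bs δ' x n) := fun x n => by
    rw [bs_of_eq hM₀, map_bs, sub_eq_add_neg]
    congr 1
    exact (map_bs (negAddMonoidHom : (Fin e → ℝ) →+ (Fin e → ℝ)) _ x n).symm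
  obtain ⟨x₀⟩ : Nonempty D.X := inferInstance
  have q2 := const_of_continuous (f := fun x => M₀ (σ.T x) + b (κ' x) - L.B' (M₀ x))
    (((cM₀.comp σ.continuous_T).add (lκ.comp b).continuous).sub
      (L.B'.continuous.comp cM₀)) (fun x => by
      have e1 := hstar x
      rw [DSub.star] at e1
      simp only [σ.T_τ, RSub.cc_one, Mτ (σ.T x), e1, hM₀, map_add, map_sub, map_neg, bB]
      abel) x₀
  generalize M₀ (σ.T x₀) + b (κ' x₀) - L.B' (M₀ x₀) = k₂ at q2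
  obtain ⟨m, hm⟩ := hm k₂
  refine ⟨{
    toGraphData := G, L := L, Mx := M, hasMat := hM, occ := occ, ℓ_pos := hℓ, one_lt := hc
    M := fun x => M₀ x + m, contM := cM₀.add continuous_const
    hM := fun x => ?_, MT := fun x => ?_, dense := hd }⟩
  · change M₀ (D.τ 1 x) + m + b (δ' x) = M₀ x + m
    rw [hM₀]; abel
  · change M₀ (σ.T x) + m + b (κ' x) = L.B' (M₀ x + m)
    have h1 := q2 x
    rw [map_add, ← hm] at *
    rw [← sub_eq_zero]
    rw [← sub_eq_zero] at h1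
    rw [← h1]
    abel

theorem graph {A : Type} [Fintype A] [DecidableEq A] [TopologicalSpace A] [DiscreteTopology A]
    {D : Shift A} {ℓ : A → ℝ} {c : ℝ} (σ : DSub D ℓ c) (M : Matrix A A ℤ) (d' : ℕ)
    (hℓ : ∀ a, 0 < ℓ a) (hc : 1 < c) (occ : ∀ a, ∃ x : D.X, x.1 0 = a) (hr : ∀ x, 2 ≤ σ.r x)
    (hM : HasMat σ.toRSub M) (hrk : RankAt D d') : ∃ d, d ≤ d' ∧ Nonempty (GraphData σ d) := by
  have hV := mat_stmt.2
  have hC := cob2_stmt mat_stmt.1
  have hQ := quot_stmt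
  obtain ⟨V⟩ := hV A D occ
  obtain ⟨f, hf⟩ := exists_f_Graph σ V occ
  obtain ⟨x₀⟩ : Nonempty D.X := inferInstance
  obtain ⟨n, hn, hn0⟩ := exists_n_Graph V.st occ x₀
  have se : ∀ x : D.X, V.en (x.1 0) = V.st ((D.τ 1 x).1 0) := fun x => by simp [V.st_en]
  obtain ⟨bd, hbd⟩ : ∃ bd : (A → ℤ) →ₗ[ℤ] (A → ℤ), ∀ a, bd (Pi.single a 1) =
      Pi.single (V.en a) 1 - Pi.single (V.st a) 1 := ⟨_, comb_Graph _⟩
  obtain ⟨Pl, hPl⟩ : ∃ Pl : (A → ℤ) →ₗ[ℤ] (A → ℤ), ∀ p, Pl (Pi.single p 1) =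
      bs (fun y : D.X => Pi.single (y.1 0) 1) x₀ (n p) := ⟨_, comb_Graph _⟩
  obtain ⟨Fl, hFl⟩ : ∃ Fl : (A → ℤ) →ₗ[ℤ] (A → ℤ), ∀ p, Fl (Pi.single p 1) =
      Pi.single (f p) 1 := ⟨_, comb_Graph _⟩
  obtain ⟨L, hL⟩ : ∃ L : (A → ℤ) →ₗ[ℤ] ℝ, ∀ a, L (Pi.single a 1) = ℓ a := ⟨_, comb_Graph _⟩
  have h1 : ∀ a, bd (Pl (Pi.single (V.st a) 1)) =
      Pi.single (V.st a) 1 - Pi.single (V.st (x₀.1 0)) 1 := fun a => by
    rw [hPl, map_bs]
    simp only [hbd, se]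
    rw [bs_tel (fun y : D.X => (Pi.single (V.st (y.1 0)) 1 : A → ℤ))]
    simp only [τ_val, sh_apply, zero_add, hn]
  have h2 : Pl (Pi.single (V.st (x₀.1 0)) 1) = 0 := by rw [hPl, hn0, bs_zero]
  obtain ⟨d₀, co, em, ce, be, ec⟩ := core_Graph bd Pl (ext_Graph (bd ∘ₗ Pl ∘ₗ bd) bd fun a => by
    obtain ⟨x, rfl⟩ := occ a
    simp only [LinearMap.comp_apply]
    rw [hbd, se, map_sub, map_sub, h1, h1, sub_sub_sub_cancel_right])
  have ec' : ∀ v, bd v = 0 → em (co v) = v := fun v hv => by rw [ec, hv, map_zero, sub_zero]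
  have h3 : ∀ v, bd (M *ᵥ v) = Fl (bd v) := ext_Graph (bd ∘ₗ M.mulVecLin) (Fl ∘ₗ bd) fun a => by
    obtain ⟨x, rfl⟩ := occ a
    simp only [LinearMap.comp_apply, mulVecLin_apply]
    rw [star_Graph hM]
    simp only [hbd, se]
    rw [σ.star_tel (fun y : D.X => (Pi.single (V.st (y.1 0)) 1 : A → ℤ)), map_sub, hFl, hFl, hf,
      hf]
  have h4 : ∀ v, L (M *ᵥ v) = c * L v := ext_Graph (L ∘ₗ M.mulVecLin) (c • L) fun a => by
    obtain ⟨x, rfl⟩ := occ a
    simp only [LinearMap.comp_apply, mulVecLin_apply, LinearMap.smul_apply, smul_eq_mul]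
    rw [star_Graph hM]
    simp only [hL]
    exact σ.star_len x
  have h7 : ∀ z, bd (M *ᵥ em z) = 0 := fun z => by rw [h3, be, map_zero]
  obtain ⟨B₀, hB₀⟩ : ∃ B₀ : Lat d₀ →ₗ[ℤ] Lat d₀, ∀ z, B₀ z = co (M *ᵥ em z) :=
    ⟨co ∘ₗ M.mulVecLin ∘ₗ em, fun _ => rfl⟩
  obtain ⟨d, N, pr, sc, ps, pk, pb⟩ := hQ d₀ B₀
  have k1 : ∀ (k : ℕ) z, (M ^ k) *ᵥ em z = em ((B₀ ^ k) z) := fun k => by
    induction k with
    | zero => simp
    | succ k ih =>
      intro z
      rw [pow_succ, ← mulVec_mulVec, ← ec' _ (h7 z), ← hB₀, ih, pow_succ, Module.End.mul_apply]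
  have k2 : ∀ z, pr (z - sc (pr z)) = 0 := fun z => by rw [map_sub, ps, sub_self]
  have k3 : ∀ z, pr (B₀ (sc (pr z))) = pr (B₀ z) := fun z => by
    rw [eq_comm, ← sub_eq_zero, ← map_sub, ← map_sub, pk, ← Module.End.mul_apply, ← pow_succ,
      pow_succ', Module.End.mul_apply, (pk _).1 (k2 z), map_zero]
  have k4 : ∀ z, L (em (sc (pr z))) = L (em z) := fun z => by
    have a1 : ∀ (k : ℕ) v, L ((M ^ k) *ᵥ v) = c ^ k * L v := fun k => by
      induction k with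
      | zero => simp
      | succ k ih => intro v; rw [pow_succ, ← mulVec_mulVec, ih, h4, pow_succ, mul_assoc]
    have a2 := a1 N (em (z - sc (pr z)))
    rw [k1, (pk _).1 (k2 z), map_zero, map_zero, map_sub, map_sub] at a2
    linarith [(mul_eq_zero.1 a2.symm).resolve_left (by positivity)]
  obtain ⟨B, h6⟩ : ∃ B : Matrix (Fin d) (Fin d) ℤ, ∀ z, B *ᵥ z = pr (B₀ (sc z)) :=
    ⟨LinearMap.toMatrix' (pr ∘ₗ B₀ ∘ₗ sc), fun z => LinearMap.toMatrix'_mulVec _ z⟩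
  have k5 : ∀ (k : ℕ) z, (B ^ k) *ᵥ pr z = pr ((B₀ ^ k) z) := fun k => by
    induction k with
    | zero => simp
    | succ k ih =>
      intro z
      rw [pow_succ, ← mulVec_mulVec, h6, k3, ih, pow_succ, Module.End.mul_apply]
  have k6 : B.det ≠ 0 := fun h => by
    obtain ⟨z, a1, a2⟩ := Matrix.exists_mulVec_eq_zero_iff.2 h
    rw [h6] at a2
    exact a1 ((ps z).symm.trans (pb _ a2))
  have h5 : ∀ z : Lat d, (fun i => L (em (sc (Pi.single i 1)))) ⬝ᵥ toR z = L (em (sc z)) :=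
    fun z => by
      rw [show L (em (sc z)) = (L ∘ₗ em ∘ₗ sc) z from rfl, lin_Graph]
      simp only [dotProduct, toR, LinearMap.comp_apply, zsmul_eq_mul, mul_comm]
  have hw : ∀ (k : ℝ) a, L (Pl (Pi.single (V.en a) 1)) + k
      + (fun i => L (em (sc (Pi.single i 1)))) ⬝ᵥ toR (pr (co (Pi.single a 1)))
      = L (Pl (Pi.single (V.st a) 1)) + k + ℓ a := fun k a => by
    rw [h5, k4, ec, hbd, map_sub, map_sub, map_sub, hL]
    ring
  have hd : d ≤ d' := by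
    by_contra hd
    have hd' : d' + 1 ≤ d := by omega
    obtain ⟨q, hq, hcob⟩ := hrk (fun i x => (pr (co (Pi.single (x.1 0) 1)) (Fin.castLE hd' i) : ℚ))
      fun i => (lc_letter 0).comp fun a => (pr (co (Pi.single a 1)) (Fin.castLE hd' i) : ℚ)
    obtain ⟨k, h, hh⟩ := hC A D ℓ c σ M V occ hr hM
      (fun a => ∑ i, q i * (pr (co (Pi.single a 1)) (Fin.castLE hd' i) : ℚ)) hcob
    refine hq (funext fun j => ?_)
    obtain ⟨φ, hφ⟩ : ∃ φ : Lat d →ₗ[ℤ] ℚ, ∀ z, φ z = ∑ i, q i * (z (Fin.castLE hd' i) : ℚ) :=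
      ⟨Fintype.linearCombination ℤ q ∘ₗ LinearMap.funLeft ℤ ℤ (Fin.castLE hd'), fun z => by
        simp only [LinearMap.comp_apply, Fintype.linearCombination_apply, LinearMap.funLeft_apply,
          zsmul_eq_mul, mul_comm]⟩
    have a1 := ext_Graph (φ ∘ₗ pr ∘ₗ co ∘ₗ (M ^ k).mulVecLin)
      (Fintype.linearCombination ℤ h ∘ₗ bd) (fun a => by
        simp only [LinearMap.comp_apply, mulVecLin_apply]
        rw [hbd, map_sub, comb_Graph, comb_Graph, ← hh,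
          show φ (pr (co ((M ^ k) *ᵥ Pi.single a 1))) = (φ ∘ₗ pr ∘ₗ co) ((M ^ k) *ᵥ Pi.single a 1)
            from rfl, lin_Graph]
        simp only [LinearMap.comp_apply, hφ, mulVec_single_one, col_apply, zsmul_eq_mul, mul_comm])
      (em (sc ((B ^ k).adjugate *ᵥ Pi.single (Fin.castLE hd' j) 1)))
    simp only [LinearMap.comp_apply, mulVecLin_apply] at a1
    rw [be, map_zero, k1, ce, ← k5, ps, mulVec_mulVec, mul_adjugate, smul_mulVec, one_mulVec,
      map_smul, hφ, det_pow] at a1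
    simpa [Pi.single_apply, k6] using a1
  have hu0 : (fun i => L (em (sc (Pi.single i 1)))) ≠ 0 := fun h0 => by
    refine not_cob_len (D := D) hℓ ⟨fun x => L (Pl (Pi.single (V.st (x.1 0)) 1)),
      (lc_letter 0).comp fun a => L (Pl (Pi.single (V.st a) 1)), fun x => ?_⟩
    have := hw 0 (x.1 0)
    rw [h0, zero_dotProduct, se] at this
    linarith
  have huB : (fun i => L (em (sc (Pi.single i 1)))) ᵥ* B.map (Int.cast : ℤ → ℝ) =
      c • fun i => L (em (sc (Pi.single i 1))) := funext fun j => by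
    have := h5 (B *ᵥ Pi.single j 1)
    rw [h6, k4, hB₀, ec' _ (h7 _), h4, ← hB₀, ← h6, mulVec_single_one] at this
    exact this
  refine ⟨d, hd, ⟨{ V with
    δ := fun a => pr (co (Pi.single a 1))
    κ := fun p => pr (co (M *ᵥ Pl (Pi.single p 1)))
    f := f
    w := fun p => L (Pl (Pi.single p 1)) + L (Pl (Pi.single (f (V.st (x₀.1 0))) 1)) / (c - 1)
    B := B
    u := fun i => L (em (sc (Pi.single i 1)))
    detB := k6
    u_ne := hu0
    uB := huB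
    hw := hw _
    hf := hf
    hκ := fun x => ?_
    wT := fun x => ?_
    nil := fun M' hM' => ⟨N, fun v v1 v2 b => ?_⟩
    span_δ := eq_top_iff.2 fun z _ => ?_
    base := ⟨x₀, fun a => ⟨n (V.st a), hn a, ?_⟩⟩ }⟩⟩
  · have a1 := star_Graph hM (pr ∘ₗ co) x
    simp only [LinearMap.comp_apply] at a1
    rw [← a1, h6, k3, hB₀, ec, hbd, map_sub, mulVec_sub, mulVec_sub, map_sub, map_sub, map_sub,
      map_sub]
    abel
  · have h9 : c - 1 ≠ 0 := by linarith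
    rw [h5, k4, ec, h3, h1, map_sub, map_sub, map_sub, map_sub, hFl, hFl, h4, hf]
    field_simp
    ring
  · rw [hM'.unique hM]
    have key : ∀ a, (M ^ N) b a =
        ∑ i, ((M ^ N) *ᵥ em (sc (Pi.single i 1))) b * pr (co (Pi.single a 1)) i
        + ∑ p, ((M ^ N) *ᵥ Pl (Pi.single p 1)) b * inc V.st V.en p a := fun a => by
      have a1 : (M ^ N) *ᵥ Pi.single a 1 =
          ((M ^ N).mulVecLin ∘ₗ em ∘ₗ sc) (pr (co (Pi.single a 1))) +
          ((M ^ N).mulVecLin ∘ₗ Pl) (bd (Pi.single a 1)) := by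
        have a2 := k1 N (co (Pi.single a 1) - sc (pr (co (Pi.single a 1))))
        rw [(pk _).1 (k2 _), map_zero, map_sub, ec, mulVec_sub, mulVec_sub, sub_sub,
          sub_eq_zero] at a2
        rw [a2, add_comm]
        rfl
      have a3 := congrFun a1 b
      rw [lin_Graph (_ ∘ₗ em ∘ₗ sc), lin_Graph (_ ∘ₗ Pl), hbd, mulVec_single_one, col_apply] at a3
      rw [a3]
      simp only [inc, Pi.single_apply, eq_comm, mul_comm, Pi.add_apply, Finset.sum_apply,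
        Pi.smul_apply, smul_eq_mul, Pi.sub_apply, LinearMap.comp_apply, mulVecLin_apply]
    simp only [key]
    push_cast
    simp only [add_mul, Finset.sum_add_distrib, Finset.sum_mul, mul_assoc]
    rw [Finset.sum_comm, Finset.sum_comm (f := fun a p => _ * ((inc V.st V.en p a : ℂ) * v a))]
    simp only [← Finset.mul_sum, v1, v2, mul_zero, Finset.sum_const_zero, add_zero]
  · rw [← ps z, ← ce (sc z), show pr (co (em (sc z))) = (pr ∘ₗ co) (em (sc z)) from rfl, lin_Graph]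
    exact AddSubgroup.sum_mem _ fun a _ =>
      AddSubgroup.zsmul_mem _ (AddSubgroup.subset_closure (mem_range_self a)) _
  · rw [← map_bs pr, ← map_bs co, ← hPl, ← ce (co _), ec, h1, map_sub Pl, h2, sub_zero, sub_self,
      map_zero, map_zero]

variable {A : Type} [Fintype A] [DecidableEq A] [TopologicalSpace A] {D : Shift A} {ℓ : A → ℝ}
  {c : ℝ} {σ : DSub D ℓ c} {d e : ℕ}

namespace Cover

variable (C : Cover σ d e)

/-- The time of a lattice vector. -/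
def a : Lat d →+ ℝ where
  toFun v := C.u ⬝ᵥ toR v
  map_zero' := by simp
  map_add' v w := by rw [toR_add, dotProduct_add]

/-- The internal coordinate of a lattice vector. -/
def b : Lat d →+ (Fin e → ℝ) where
  toFun v := (C.L.Ψ.symm (toR v)).2
  map_zero' := by simp
  map_add' v w := by rw [toR_add, map_add, Prod.snd_add]

/-- The action on the lattice. -/
def Bz : Lat d →+ Lat d where
  toFun v := C.B *ᵥ v
  map_zero' := by simp
  map_add' v w := Matrix.mulVec_add _ _ _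

lemma Ψ_ab (v : Lat d) : C.L.Ψ (C.a v, C.b v) = toR v := by
  rw [show (C.a v, C.b v) = C.L.Ψ.symm (toR v) from Prod.ext (C.L.fst_symm _).symm rfl,
    ContinuousLinearEquiv.apply_symm_apply]

lemma a_inj : Function.Injective C.a := (injective_iff_map_eq_zero _).2 C.L.u_inj

lemma a_Bz (v : Lat d) : C.a (C.Bz v) = c * C.a v := by
  change C.u ⬝ᵥ toR (C.B *ᵥ v) = c * (C.u ⬝ᵥ toR v)
  rw [toR_mulVec, Matrix.dotProduct_mulVec, C.uB, smul_dotProduct, smul_eq_mul]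

lemma b_Bz (v : Lat d) : C.b (C.Bz v) = C.L.B' (C.b v) := by
  change (C.L.Ψ.symm (toR (C.B *ᵥ v))).2 = _
  rw [toR_mulVec, C.L.snd_B]
  rfl

lemma Bz_inj : Function.Injective C.Bz := fun v w h => C.a_inj (mul_left_cancel₀
  (show c ≠ 0 by linarith [C.one_lt]) (by rw [← a_Bz, ← a_Bz, h]))

lemma dense_b : DenseRange C.b := C.dense

/-- The tile of a lifted point. -/
def lab (y : D.X × Lat d) : A × Lat d := (y.1.1 0, y.2)

/-- The start time of a tile. -/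
def tm (t : A × Lat d) : ℝ := C.w (C.st t.1) + C.a t.2

/-- The start time of the tile of a lifted point. -/
def p (y : D.X × Lat d) : ℝ := C.tm (lab y)

/-- The internal coordinate of a lifted point. -/
def z (y : D.X × Lat d) : Fin e → ℝ := C.M y.1 + C.b y.2

/-- The lifted shift. -/
noncomputable def s (n : ℤ) (y : D.X × Lat d) : D.X × Lat d :=
  (D.τ n y.1, y.2 + bs (fun x => C.δ (x.1 0)) y.1 n)

/-- The lifted substitution. -/
def S (y : D.X × Lat d) : D.X × Lat d := (σ.T y.1, C.Bz y.2 + C.κ (C.st (y.1.1 0)))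

/-- Deck translation. -/
def tr (v : Lat d) (y : D.X × Lat d) : D.X × Lat d := (y.1, y.2 + v)

/-- Lifted points over `β` whose tile contains `α`. -/
def K (α : ℝ) (β : Fin e → ℝ) : Set (D.X × Lat d) :=
  {y | C.z y = β ∧ C.p y ≤ α ∧ α < C.p y + ℓ (y.1.1 0)}

/-- Tiles over `β` that contain `α`. -/
def Lab (α : ℝ) (β : Fin e → ℝ) : Set (A × Lat d) := lab '' C.K α β

/-- The tile `t` lies on the strand of `y`. -/
def On (y : D.X × Lat d) (t : A × Lat d) : Prop := ∃ n, lab (C.s n y) = t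

/-- The strands of `y` and `y'` never coincide. -/
def NC (y y' : D.X × Lat d) : Prop := ∀ k t, C.On (C.S^[k] y) t → ¬ C.On (C.S^[k] y') t

/-- A family of pairwise never coincident strands over `β`. -/
def Stack {r : ℕ} (β : Fin e → ℝ) (y : Fin r → D.X × Lat d) : Prop :=
  (∀ i, C.z (y i) = β) ∧ ∀ i j, i ≠ j → C.NC (y i) (y j)

@[simp] lemma s_zero (y : D.X × Lat d) : C.s 0 y = y := by simp [s]

lemma s_s (m n : ℤ) (y : D.X × Lat d) : C.s m (C.s n y) = C.s (n + m) y := by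
  simp only [s, τ_τ, bs_add_index, add_assoc]

lemma s_letter (n : ℤ) (y : D.X × Lat d) : (C.s n y).1.1 0 = y.1.1 n := by simp [s]

lemma s_one (y : D.X × Lat d) : C.s 1 y = (D.τ 1 y.1, y.2 + C.δ (y.1.1 0)) := by simp [s]

lemma w_τ (x : D.X) (n : ℤ) : C.w (C.st (x.1 n)) + C.a (bs (fun x => C.δ (x.1 0)) x n) =
    C.w (C.st (x.1 0)) + pos ℓ x.1 n := by
  have := bs_of_eq (h := fun y : D.X => C.w (C.st (y.1 0)))
    (g := fun y => ℓ (y.1 0) - C.a (C.δ (y.1 0))) (fun y => by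
      have h1 := C.hw (y.1 0)
      rw [C.st_en] at h1
      simp only [τ_val, sh_apply, zero_add]
      change _ + C.a _ = _ at h1
      linarith) x n
  rw [bs_sub, bs_len, ← map_bs] at this
  simp only [τ_val, sh_apply, zero_add] at this
  linarith

lemma M_τ (x : D.X) (n : ℤ) : C.M (D.τ n x) + C.b (bs (fun x => C.δ (x.1 0)) x n) = C.M x := by
  rw [bs_of_eq (h := C.M) (g := fun y => -C.b (C.δ (y.1 0)))
    (fun y => by rw [← C.hM y]; exact (add_neg_cancel_right _ _).symm), map_bs, add_assoc,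
    ← bs_add]
  simp [bs, isum]

lemma p_s (n : ℤ) (y : D.X × Lat d) : C.p (C.s n y) = C.p y + pos ℓ y.1.1 n := by
  have := C.w_τ y.1 n
  simp only [p, tm, lab, s, map_add, τ_val, sh_apply, zero_add]
  linarith

lemma p_s_succ (n : ℤ) (y : D.X × Lat d) :
    C.p (C.s (n + 1) y) = C.p (C.s n y) + ℓ (y.1.1 n) := by
  rw [p_s, p_s, pos_succ, add_assoc]

lemma p_s_strictMono (y : D.X × Lat d) : StrictMono fun n => C.p (C.s n y) := fun m n h => by
  simp only [p_s]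
  linarith [pos_strictMono C.ℓ_pos y.1.1 h]

lemma lab_s_inj (y : D.X × Lat d) : Function.Injective fun n => lab (C.s n y) :=
  fun _ _ h => (C.p_s_strictMono y).injective (congrArg C.tm h)

@[simp] lemma z_s (n : ℤ) (y : D.X × Lat d) : C.z (C.s n y) = C.z y := by
  simp only [z, s, map_add]
  rw [← C.M_τ y.1 n]
  abel

lemma p_S (y : D.X × Lat d) : C.p (C.S y) = c * C.p y := by
  have := C.wT y.1
  change _ + C.a _ = _ at this
  simp only [p, tm, lab, S, map_add, a_Bz]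
  linarith

lemma z_S (y : D.X × Lat d) : C.z (C.S y) = C.L.B' (C.z y) := by
  have := C.MT y.1
  change _ + C.b _ = _ at this
  simp only [z, S, map_add, b_Bz, ← this]
  abel

lemma p_iter (k : ℕ) (y : D.X × Lat d) : C.p (C.S^[k] y) = c ^ k * C.p y := by
  induction k with
  | zero => simp
  | succ k ih => rw [Function.iterate_succ_apply', p_S, ih, pow_succ', mul_assoc]

lemma z_iter (k : ℕ) (y : D.X × Lat d) : C.z (C.S^[k] y) = C.L.B'^[k] (C.z y) := by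
  induction k with
  | zero => simp
  | succ k ih => rw [Function.iterate_succ_apply', z_S, ih, Function.iterate_succ_apply']

lemma S_s (n : ℤ) (y : D.X × Lat d) : C.S (C.s n y) = C.s (σ.cc y.1.1 n) (C.S y) := by
  refine Prod.ext (σ.T_τ _ _) ?_
  have h1 := σ.bs_star (fun x => C.δ (x.1 0)) y.1 n
  have h2 : σ.star (fun x => C.δ (x.1 0)) = fun x => C.Bz (C.δ (x.1 0)) +
      (C.κ (C.st ((D.τ 1 x).1 0)) - C.κ (C.st (x.1 0))) := funext fun x => by
    rw [C.hκ, C.st_en, add_sub_assoc]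
    simp only [τ_val, sh_apply, zero_add]
    rfl
  rw [h2, bs_add, bs_tel (fun x : D.X => C.κ (C.st (x.1 0))), ← map_bs] at h1
  simp only [S, s, map_add, ← h1]
  abel

/-- The index where the image of the `n`-th tile starts after `k` inflations. -/
noncomputable def ix (y : D.X × Lat d) (n : ℤ) : ℕ → ℤ
  | 0 => n
  | k + 1 => σ.cc (C.S^[k] y).1.1 (ix y n k)

lemma iter_s (k : ℕ) (n : ℤ) (y : D.X × Lat d) :
    C.S^[k] (C.s n y) = C.s (C.ix y n k) (C.S^[k] y) := by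
  induction k with
  | zero => rfl
  | succ k ih => rw [Function.iterate_succ_apply', ih, S_s, Function.iterate_succ_apply']; rfl

lemma p_ix (k : ℕ) (n : ℤ) (y : D.X × Lat d) :
    C.p (C.s (C.ix y n k) (C.S^[k] y)) = c ^ k * C.p (C.s n y) := by
  rw [← iter_s, p_iter]

lemma p_tr (v : Lat d) (y : D.X × Lat d) : C.p (tr v y) = C.p y + C.a v := by
  simp only [p, tm, lab, tr, map_add, add_assoc]

lemma z_tr (v : Lat d) (y : D.X × Lat d) : C.z (tr v y) = C.z y + C.b v := by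
  simp only [z, tr, map_add, add_assoc]

lemma s_tr (n : ℤ) (v : Lat d) (y : D.X × Lat d) : C.s n (tr v y) = tr v (C.s n y) := by
  simp only [s, tr, add_right_comm]

lemma S_tr (v : Lat d) (y : D.X × Lat d) : C.S (tr v y) = tr (C.Bz v) (C.S y) := by
  simp only [S, tr, map_add, add_right_comm]

lemma iter_tr (k : ℕ) (v : Lat d) (y : D.X × Lat d) :
    C.S^[k] (tr v y) = tr (C.Bz^[k] v) (C.S^[k] y) := by
  induction k with
  | zero => rfl
  | succ k ih => simp only [Function.iterate_succ_apply', ih, S_tr]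

lemma on_s {n : ℤ} {y : D.X × Lat d} {t : A × Lat d} : C.On (C.s n y) t ↔ C.On y t :=
  ⟨fun ⟨m, h⟩ => ⟨n + m, by rwa [← s_s]⟩,
    fun ⟨m, h⟩ => ⟨m - n, by rwa [s_s, add_sub_cancel]⟩⟩

lemma on_tr {v : Lat d} {y : D.X × Lat d} {t : A × Lat d} :
    C.On (tr v y) (t.1, t.2 + v) ↔ C.On y t := by
  refine exists_congr fun n => ?_
  rw [s_tr]
  simp [lab, tr, Prod.ext_iff]

lemma NC.symm {C : Cover σ d e} {y y' : D.X × Lat d} (h : C.NC y y') : C.NC y' y :=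
  fun k t h1 h2 => h k t h2 h1

lemma NC.s {C : Cover σ d e} {y y' : D.X × Lat d} (h : C.NC y y') (m n : ℤ) :
    C.NC (C.s m y) (C.s n y') := fun k t => by
  rw [iter_s, iter_s, on_s, on_s]
  exact h k t

lemma NC.iter {C : Cover σ d e} {y y' : D.X × Lat d} (h : C.NC y y') (j : ℕ) :
    C.NC (C.S^[j] y) (C.S^[j] y') := fun k t => by
  rw [← Function.iterate_add_apply, ← Function.iterate_add_apply]
  exact h _ t

lemma NC.tr {C : Cover σ d e} {y y' : D.X × Lat d} (h : C.NC y y') (v : Lat d) :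
    C.NC (tr v y) (tr v y') := fun k t => by
  have e1 : t = ((t.1, t.2 - C.Bz^[k] v).1, (t.1, t.2 - C.Bz^[k] v).2 + C.Bz^[k] v) := by simp
  rw [iter_tr, iter_tr, e1, on_tr, on_tr]
  exact h k _

lemma mem_K_s {n : ℤ} {y : D.X × Lat d} {α : ℝ} {β : Fin e → ℝ} : C.s n y ∈ C.K α β ↔
    C.z y = β ∧ C.p (C.s n y) ≤ α ∧ α < C.p (C.s (n + 1) y) := by
  simp only [K, mem_ofPred_eq, z_s, s_letter, p_s_succ]

lemma tr_mem_K {y : D.X × Lat d} {α : ℝ} {β : Fin e → ℝ} (h : y ∈ C.K α β) (v : Lat d) :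
    tr v y ∈ C.K (α + C.a v) (β + C.b v) := by
  obtain ⟨h1, h2, h3⟩ := h
  refine ⟨by rw [z_tr, h1], by rw [p_tr]; linarith, ?_⟩
  rw [p_tr]
  change _ < _ + ℓ (y.1.1 0)
  linarith

include C in
lemma len_bounds : ∃ l₀ l₁ : ℝ, 0 < l₀ ∧ (∀ a, l₀ ≤ ℓ a) ∧ ∀ a, ℓ a ≤ l₁ :=
  have := D.nonempty_alph
  exists_len_bounds C.ℓ_pos

lemma exists_K (y : D.X × Lat d) (α : ℝ) : ∃ n, C.s n y ∈ C.K α (C.z y) := by
  obtain ⟨l₀, l₁, h0, h1, -⟩ := C.len_bounds
  obtain ⟨n, hn⟩ := exists_idx (p := fun n => C.p (C.s n y)) h0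
    (fun n => by rw [p_s_succ]; linarith [h1 (y.1.1 n)]) α
  exact ⟨n, C.mem_K_s.2 ⟨rfl, hn⟩⟩

lemma K_unique {y : D.X × Lat d} {α : ℝ} {β : Fin e → ℝ} {m n : ℤ} (h1 : C.s m y ∈ C.K α β)
    (h2 : C.s n y ∈ C.K α β) : m = n := by
  obtain ⟨-, a1, a2⟩ := C.mem_K_s.1 h1
  obtain ⟨-, a3, a4⟩ := C.mem_K_s.1 h2
  exact idx_unique (C.p_s_strictMono y) a1 a2 a3 a4

lemma finite_box (R : ℝ) : {v : Lat d | |C.a v| ≤ R ∧ ‖C.b v‖ ≤ R}.Finite := by
  obtain ⟨N, hN⟩ := exists_nat_ge (‖(C.L.Ψ : (ℝ × (Fin e → ℝ)) →L[ℝ] (Fin d → ℝ))‖ * R)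
  refine (Set.finite_Icc (fun _ => -(N : ℤ)) fun _ => (N : ℤ)).subset ?_
  rintro v ⟨h1, h2⟩
  have key : ∀ i, |(v i : ℝ)| ≤ N := fun i => by
    have h3 := (C.L.Ψ : (ℝ × (Fin e → ℝ)) →L[ℝ] (Fin d → ℝ)).le_of_opNorm_le_of_le le_rfl
      (x := (C.a v, C.b v)) (b := R) (by rw [Prod.norm_mk]; exact max_le h1 h2)
    rw [ContinuousLinearEquiv.coe_coe, Ψ_ab] at h3
    exact ((norm_le_pi_norm (toR v) i).trans h3).trans hN
  constructor <;> intro i
  · exact_mod_cast (abs_le.1 (key i)).1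
  · exact_mod_cast (abs_le.1 (key i)).2

variable [DiscreteTopology A]

lemma continuous_s (n : ℤ) : Continuous (C.s n) := by
  have h : Continuous fun x : D.X => C.δ (x.1 0) := ((lc_letter 0).comp C.δ).continuous
  have := continuous_bs h n
  unfold s
  fun_prop

lemma continuous_S : Continuous C.S := by
  have h : Continuous fun x : D.X => C.κ (C.st (x.1 0)) :=
    ((lc_letter 0).comp fun a => C.κ (C.st a)).continuous
  have h2 : Continuous C.Bz := continuous_of_discreteTopology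
  exact (σ.continuous_T.comp continuous_fst).prodMk
    ((h2.comp continuous_snd).add (h.comp continuous_fst))

omit [Fintype A] [DecidableEq A] in
lemma continuous_lab : Continuous (lab : D.X × Lat d → A × Lat d) :=
  ((lc_letter (D := D) 0).continuous.comp continuous_fst).prodMk continuous_snd

lemma continuous_p : Continuous C.p :=
  (continuous_of_discreteTopology (f := C.tm)).comp continuous_lab

omit [DiscreteTopology A] in
lemma continuous_z : Continuous C.z := by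
  have h2 : Continuous C.b := continuous_of_discreteTopology
  have := C.contM
  unfold z
  fun_prop

lemma K_box (R : ℝ) : ∃ V : Set (Lat d), V.Finite ∧ ∀ y : D.X × Lat d, |C.p y| ≤ R →
    ‖C.z y‖ ≤ R → y.2 ∈ V := by
  obtain ⟨W, hW⟩ := (finite_range fun a => |C.w (C.st a)|).bddAbove
  obtain ⟨W', hW'⟩ := isCompact_univ.exists_bound_of_continuousOn C.contM.continuousOn
  refine ⟨_, C.finite_box (R + |W| + |W'|), fun y h1 h2 => ⟨?_, ?_⟩⟩
  · have h3 : |C.w (C.st (y.1.1 0))| ≤ W := hW ⟨_, rfl⟩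
    have h4 : C.a y.2 = C.p y - C.w (C.st (y.1.1 0)) := by simp [p, tm, lab]
    rw [h4]
    linarith [abs_sub (C.p y) (C.w (C.st (y.1.1 0))), le_abs_self W, abs_nonneg W']
  · have h4 : C.b y.2 = C.z y - C.M y.1 := by simp [z]
    rw [h4]
    linarith [norm_sub_le (C.z y) (C.M y.1), hW' y.1 trivial, le_abs_self W', abs_nonneg W]

lemma finite_Lab (α : ℝ) (β : Fin e → ℝ) : (C.Lab α β).Finite := by
  obtain ⟨l₀, l₁, h0, h1, h2⟩ := C.len_bounds
  obtain ⟨V, hV, h⟩ := C.K_box (|α| + |l₁| + ‖β‖)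
  refine ((finite_univ (α := A)).prod hV).subset ?_
  rintro _ ⟨y, ⟨a1, a2, a3⟩, rfl⟩
  refine ⟨trivial, h y (abs_le.2 ⟨?_, ?_⟩) ?_⟩
  · linarith [neg_abs_le α, le_abs_self l₁, h2 (y.1.1 0), norm_nonneg β]
  · linarith [le_abs_self α, abs_nonneg l₁, norm_nonneg β]
  · rw [a1]
    linarith [abs_nonneg α, abs_nonneg l₁]

end Cover

end Pool.Agent.MP_4168de_an.W
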