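import Pool.Agent.MP_4168de_an.Defs

/-! Fibres of the maximal equicontinuous factor of a tiling space. -/

namespace Pool.Agent.MP_4168de_an

variable {A : Type}

/-- Continuous eigenfunctions of the translation action on `Ω`. -/
def IsEigen (Ω : Set (Patch A)) (f : Patch A → ℂ) : Prop :=
  ContinuousOn f Ω ∧ ∃ α : ℝ, ∀ T ∈ Ω, ∀ t : ℝ,
    f (translate t T) = Complex.exp (2 * Real.pi * Complex.I * α * t) * f T

/-- The tilings of `Ω` that no continuous eigenfunction separates from `T`. -/
def fibre (Ω : Set (Patch A)) (T : Patch A) : Set (Patch A) :=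
  {T' | T' ∈ Ω ∧ ∀ f, IsEigen Ω f → f T' = f T}

end Pool.Agent.MP_4168de_an
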