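import Pool.Agent.MP_4168de_an.W.St

/-! Boxes, stacks and the prime factors of the number of tiles over a box. -/

namespace Pool.Agent.MP_4168de_an.W

open Set Filter Topology Shift Matrix G MeasureTheory

section

variable {A : Type} [Fintype A] [DecidableEq A] [TopologicalSpace A] {D : Shift A} {ℓ : A → ℝ}
  {c : ℝ} {σ : DSub D ℓ c} {d e : ℕ} (C : Cover σ d e)

lemma inv_Box (k : ℕ) : ∃ M : ℝ, 0 ≤ M ∧ ∀ x, ‖x‖ ≤ M * ‖C.L.B'^[k] x‖ := by
  obtain ⟨N, hN0, hN⟩ : ∃ N : ℝ, 0 < N ∧ ∀ x, ‖C.L.B'.symm x‖ ≤ N * ‖x‖ :=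
    (C.L.B'.symm : (Fin e → ℝ) →L[ℝ] (Fin e → ℝ)).bound
  induction k with
  | zero => exact ⟨1, zero_le_one, fun x => by simp⟩
  | succ k ih =>
    obtain ⟨M, hM0, hM⟩ := ih
    refine ⟨M * N, by positivity, fun x => (hM x).trans ?_⟩
    rw [Function.iterate_succ_apply', mul_assoc]
    refine mul_le_mul_of_nonneg_left ?_ hM0
    simpa using hN (C.L.B' (C.L.B'^[k] x))

variable [DiscreteTopology A]

lemma cpt_Box (k : ℕ) (R : ℝ) : ∃ Z : Set (D.X × Lat d), IsCompact Z ∧ Z ⊆ C.Wk k ∧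
    ∀ y ∈ C.Wk k, |C.p y| ≤ R → ‖C.z y‖ ≤ R → y ∈ Z := by
  obtain ⟨l₀, l₁, h0, h1, h2⟩ := C.len_bounds
  obtain ⟨M, hM0, hM⟩ := inv_Box C k
  obtain ⟨V, hV, hb⟩ := C.K_box (|R| + |l₁| + M * |R|)
  obtain ⟨N, hN⟩ := exists_nat_ge (c ^ k * l₁ / l₀)
  have c1 : 1 ≤ c ^ k := one_le_pow₀ C.one_lt.le
  have c0 : 0 < c ^ k := by linarith
  refine ⟨⋃ n ∈ Icc (-(N : ℤ)) N, (fun y' => C.s n (C.S^[k] y')) '' (univ ×ˢ V),
    (finite_Icc _ _).isCompact_biUnion fun n _ => (isCompact_univ.prod hV.isCompact).image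
      ((C.continuous_s n).comp (C.continuous_S.iterate k)), ?_, ?_⟩
  · intro y hy
    obtain ⟨n, -, y', -, rfl⟩ := mem_iUnion₂.1 hy
    exact ⟨y', n, rfl⟩
  · rintro y ⟨y', n, hy⟩ a1 a2
    obtain ⟨m, -, m1, m2⟩ := C.exists_K y' (C.p y / c ^ k)
    have e1 : y = C.s (n - C.ix y' m k) (C.S^[k] (C.s m y')) := by
      rw [C.iter_s, C.s_s, add_sub_cancel, hy]
    generalize n - C.ix y' m k = j at e1
    generalize C.s m y' = w at e1 m1 m2
    have e2 : C.p y = c ^ k * C.p w + pos ℓ (C.S^[k] w).1.1 j := by rw [e1, C.p_s, C.p_iter]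
    have e3 : C.z y = C.L.B'^[k] (C.z w) := by rw [e1, C.z_s, C.z_iter]
    have b1 := le_abs_pos_sub h1 (C.S^[k] w).1.1 j 0
    simp only [Int.cast_zero, sub_zero, pos_zero] at b1
    have m3 := (le_div_iff₀' c0).1 m1
    have m4 := (div_lt_iff₀' c0).1 (m2.trans_le (add_le_add_right (h2 _) _))
    have b2 : |(j : ℝ)| ≤ N := by
      refine le_trans ((le_div_iff₀' h0).2 (b1.trans ?_)) hN
      rw [abs_of_nonneg (by linarith)]
      linarith
    have b3 : |j| ≤ N := by exact_mod_cast b2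
    have b4 : |C.p y / c ^ k| ≤ |R| := by
      rw [abs_div, abs_of_pos c0]
      exact (div_le_self (abs_nonneg _) c1).trans (a1.trans (le_abs_self R))
    have b5 : 0 ≤ M * |R| := by positivity
    refine mem_iUnion₂.2 ⟨j, abs_le.1 b3, w, ⟨trivial, hb w (abs_le.2 ⟨?_, ?_⟩) ?_⟩, e1.symm⟩
    · linarith [(abs_le.1 b4).1, h2 (w.1.1 0), le_abs_self l₁]
    · linarith [(abs_le.1 b4).2, abs_nonneg l₁]
    · have := (hM (C.z w)).trans (mul_le_mul_of_nonneg_left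
        ((e3 ▸ a2 : ‖C.L.B'^[k] (C.z w)‖ ≤ R).trans (le_abs_self R)) hM0)
      linarith [abs_nonneg R, abs_nonneg l₁]

lemma cl_Box (k : ℕ) : IsClosed (C.Wk k) := by
  refine isClosed_of_closure_subset fun y hy => ?_
  obtain ⟨Z, z1, z2, z3⟩ := cpt_Box C k (|C.p y| + ‖C.z y‖ + 1)
  have hU : IsOpen ({w : D.X × Lat d | |C.p w| < |C.p y| + ‖C.z y‖ + 1} ∩
      {w | ‖C.z w‖ < |C.p y| + ‖C.z y‖ + 1}) :=
    (isOpen_lt C.continuous_p.abs continuous_const).inter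
      (isOpen_lt C.continuous_z.norm continuous_const)
  refine z2 (z1.isClosed.closure_subset (closure_mono ?_ (hU.inter_closure ⟨⟨?_, ?_⟩, hy⟩)))
  · rintro w ⟨⟨w1, w2⟩, w3⟩
    exact z3 w w3 (le_of_lt w1) (le_of_lt w2)
  · change |C.p y| < _
    linarith [norm_nonneg (C.z y)]
  · change ‖C.z y‖ < _
    linarith [abs_nonneg (C.p y)]

lemma usc_Box {k : ℕ} (hcl : IsClosed (C.Wk k)) {α : ℝ} {β : Fin e → ℝ}
    (h : ∀ l ∈ C.LabW k α β, C.tm l < α) :
    ∀ᶠ q : ℝ × (Fin e → ℝ) in 𝓝 (α, β), C.LabW k q.1 q.2 ⊆ C.LabW k α β := by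
  obtain ⟨l₀, l₁, -, -, hl⟩ := C.len_bounds
  obtain ⟨V, hV, hb⟩ := C.K_box (|α| + |l₁| + ‖β‖ + 1)
  have h1 : ∀ᶠ q : ℝ × (Fin e → ℝ) in 𝓝 (α, β), ∀ v ∈ V, ∀ x ∈ (univ : Set D.X),
      (x, v) ∈ C.Wk k → (x, v) ∈ C.K q.1 q.2 → Cover.lab (x, v) ∈ C.LabW k α β := by
    rw [eventually_all_finite hV]
    intro v _
    refine isCompact_univ.eventually_forall_of_forall_eventually fun x _ => ?_
    have e0 : ∀ᶠ r : (ℝ × (Fin e → ℝ)) × D.X in 𝓝 ((α, β), x), r.2.1 0 = x.1 0 :=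
      (continuous_snd.tendsto ((α, β), x)).eventually ((lc_letter 0).eventually_eq x)
    have e1 : ∀ᶠ r : (ℝ × (Fin e → ℝ)) × D.X in 𝓝 ((α, β), x),
        Cover.lab (r.2, v) = Cover.lab (x, v) := e0.mono fun r hr => Prod.ext hr rfl
    have c1 : Continuous fun r : (ℝ × (Fin e → ℝ)) × D.X => r.1.1 := by fun_prop
    by_cases hw : (x, v) ∈ C.Wk k
    swap
    · have c2 : Continuous fun r : (ℝ × (Fin e → ℝ)) × D.X => (r.2, v) := by fun_prop
      filter_upwards [(hcl.isOpen_compl.preimage c2).mem_nhds (x := ((α, β), x)) hw]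
        with r hr hr'
      exact absurd hr' hr
    by_cases hz : C.z (x, v) = β
    swap
    · have c2 : Continuous fun r : (ℝ × (Fin e → ℝ)) × D.X => C.z (r.2, v) - r.1.2 := by
        have := C.continuous_z
        fun_prop
      filter_upwards [c2.continuousAt.eventually_ne (x := ((α, β), x)) (sub_ne_zero.2 hz)]
        with r hr _ hr'
      exact absurd (sub_eq_zero.2 hr'.1) hr
    rcases lt_or_ge α (C.p (x, v)) with h2 | h2
    · filter_upwards [e1, c1.continuousAt.eventually_lt (x₀ := ((α, β), x)) continuousAt_const h2]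
        with r hr hr' _ hr''
      have : C.p (r.2, v) = C.p (x, v) := congrArg C.tm hr
      linarith [hr''.2.1]
    rcases lt_trichotomy α (C.p (x, v) + ℓ (x.1 0)) with h3 | h3 | h3
    · filter_upwards [e1] with r hr _ _
      rw [hr]
      exact ⟨_, ⟨⟨hz, h2, h3⟩, hw⟩, rfl⟩
    · exfalso
      have h6 : C.p (C.s 1 (x, v)) = α := by
        have := C.p_s_succ 0 (x, v)
        rw [zero_add, C.s_zero] at this
        rw [this, h3]
      have h4 : C.s 1 (x, v) ∈ C.K α β :=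
        C.mem_K_s.2 ⟨hz, h6.le, h6 ▸ C.p_s_strictMono (x, v) (lt_add_one 1)⟩
      exact (h _ ⟨_, ⟨h4, Cover.Wk_s hw 1⟩, rfl⟩).ne h6
    · filter_upwards [e1, continuousAt_const.eventually_lt (x₀ := ((α, β), x)) c1.continuousAt h3]
        with r hr hr' _ hr''
      have h4 : C.p (r.2, v) = C.p (x, v) := congrArg C.tm hr
      have h5 : r.2.1 0 = x.1 0 := congrArg Prod.fst hr
      have h6 := hr''.2.2
      simp only [h4, h5] at h6
      linarith
  have h2 : ∀ᶠ q : ℝ × (Fin e → ℝ) in 𝓝 (α, β), |q.1| < |α| + 1 :=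
    (by fun_prop : Continuous fun q : ℝ × (Fin e → ℝ) => |q.1|).continuousAt.eventually_lt
      continuousAt_const (lt_add_one _)
  have h3 : ∀ᶠ q : ℝ × (Fin e → ℝ) in 𝓝 (α, β), ‖q.2‖ < ‖β‖ + 1 :=
    (by fun_prop : Continuous fun q : ℝ × (Fin e → ℝ) => ‖q.2‖).continuousAt.eventually_lt
      continuousAt_const (lt_add_one _)
  filter_upwards [h1, h2, h3] with q a1 a2 a3
  rintro _ ⟨y, ⟨hy, hw⟩, rfl⟩
  refine a1 y.2 (hb y (abs_le.2 ⟨?_, ?_⟩) ?_) y.1 trivial hw hy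
  · linarith [neg_abs_le q.1, le_abs_self l₁, hl (y.1.1 0), norm_nonneg β, hy.2.2]
  · linarith [le_abs_self q.1, abs_nonneg l₁, norm_nonneg β, hy.2.1]
  · rw [hy.1]
    linarith [abs_nonneg α, abs_nonneg l₁]

lemma box_Box (hcl : ∀ k, IsClosed (C.Wk k)) : Nonempty C.Box := by
  obtain ⟨⟨k, α₀, β⟩, h0⟩ := exists_minimalFor_of_wellFoundedLT
    (fun _ : ℕ × ℝ × (Fin e → ℝ) => True)
    (fun q => (C.LabW q.1 q.2.1 q.2.2).ncard) ⟨(0, 0, 0), trivial⟩
  have hmin : ∀ k' α' β', (C.LabW k α₀ β).ncard ≤ (C.LabW k' α' β').ncard := fun k' α' β' =>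
    h0.le (j := (k', α', β')) trivial
  have hev : ∀ᶠ ε in 𝓝[>] (0 : ℝ), ∀ l ∈ C.LabW k α₀ β, α₀ + ε < C.tm l + ℓ l.1 := by
    rw [eventually_all_finite (C.finite_LabW _ _ _)]
    rintro _ ⟨y, hy, rfl⟩
    refine nhdsWithin_le_nhds ((by fun_prop : Continuous fun ε : ℝ => α₀ + ε).continuousAt
      |>.eventually_lt continuousAt_const ?_)
    rw [add_zero]
    exact hy.1.2.2
  obtain ⟨ε, h1, h2⟩ := (hev.and self_mem_nhdsWithin).exists
  have h2' : 0 < ε := h2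
  have hK : C.K (α₀ + ε) β ∩ C.Wk k ⊆ C.K α₀ β ∩ C.Wk k := by
    rintro y ⟨hy, hw⟩
    obtain ⟨n, hn⟩ := C.exists_K y α₀
    rw [hy.1] at hn
    have h3 : C.s n y ∈ C.K (α₀ + ε) β :=
      ⟨hn.1, by linarith [hn.2.1], h1 _ ⟨_, ⟨hn, Cover.Wk_s hw n⟩, rfl⟩⟩
    have := C.K_unique (y := y) (m := 0) (by simpa using hy) h3
    rw [← this, C.s_zero] at hn
    exact ⟨hn, hw⟩
  have hin : ∀ l ∈ C.LabW k (α₀ + ε) β, C.tm l < α₀ + ε := by
    rintro _ ⟨y, hy, rfl⟩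
    exact (hK hy).1.2.1.trans_lt (by linarith)
  have hmin' : ∀ k' α' β', (C.LabW k (α₀ + ε) β).ncard ≤ (C.LabW k' α' β').ncard :=
    fun k' α' β' => (ncard_le_ncard (image_mono hK) (C.finite_LabW _ _ _)).trans (hmin k' α' β')
  generalize α₀ + ε = α at hin hmin'
  obtain ⟨ρ₁, r1, r2⟩ := Metric.eventually_nhds_iff.1 (usc_Box C (hcl k) hin)
  have hev' : ∀ᶠ ρ in 𝓝[>] (0 : ℝ), ∀ l ∈ C.LabW k α β,
      C.tm l + 2 * ρ < α ∧ α + 2 * ρ < C.tm l + ℓ l.1 := by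
    rw [eventually_all_finite (C.finite_LabW _ _ _)]
    intro l hl
    refine nhdsWithin_le_nhds (Eventually.and
      ((by fun_prop : Continuous fun ε : ℝ => C.tm l + 2 * ε).continuousAt.eventually_lt
        continuousAt_const (by simpa using hin l hl))
      ((by fun_prop : Continuous fun ε : ℝ => α + 2 * ε).continuousAt.eventually_lt
        continuousAt_const ?_))
    obtain ⟨y, hy, rfl⟩ := hl
    rw [mul_zero, add_zero]
    exact hy.1.2.2
  obtain ⟨ρ, r3, r4⟩ := (hev'.and (Ioo_mem_nhdsGT r1)).exists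
  refine ⟨⟨k, α, β, ρ, r4.1, hmin', fun l hl => ⟨(r3 l hl).1.le, (r3 l hl).2.le⟩,
    fun α' β' a b => ?_⟩⟩
  refine eq_of_subset_of_ncard_le (r2 (y := (α', β')) ?_) (hmin' _ _ _) (C.finite_LabW _ _ _)
  rw [Prod.dist_eq, Real.dist_eq, dist_eq_norm]
  exact max_lt (a.trans r4.2) (b.trans r4.2)

end

theorem cl_s : ClS := fun _ _ _ _ _ _ _ _ _ _ _ C => cl_Box C

theorem box_s (h : ClS) : BoxS := fun A _ _ _ _ D ℓ c σ d e C => box_Box C (h A D ℓ c σ d e C)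

namespace Cover

section

variable {A : Type} [Fintype A] [DecidableEq A] [TopologicalSpace A] [DiscreteTopology A]
  {D : Shift A} {ℓ : A → ℝ} {c : ℝ} {σ : DSub D ℓ c} {d e : ℕ} {C : Cover σ d e}

lemma enum_Stack (Q : C.Box) : ∃ u : Fin Q.m → D.X × Lat d, (∀ i, C.z (u i) = Q.β) ∧
    ∀ t ∈ C.LabW Q.k Q.α Q.β, ∃ i, lab (u i) = t := by
  have : Finite (C.LabW Q.k Q.α Q.β) := C.finite_LabW _ _ _
  let f : C.LabW Q.k Q.α Q.β ≃ Fin Q.m := Finite.equivFinOfCardEq (Nat.card_coe_set_eq _)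
  choose u hu hl using fun i => (f.symm i).2
  exact ⟨u, fun i => (hu i).1.1, fun t ht => ⟨f ⟨t, ht⟩, by rw [hl, f.symm_apply_apply]⟩⟩

omit [DiscreteTopology A] in
lemma sep_Stack (Q : C.Box) {u : Fin Q.m → D.X × Lat d}
    (hu : ∀ t ∈ C.LabW Q.k Q.α Q.β, ∃ i, lab (u i) = t) (k : ℕ) {α : ℝ}
    (hα : |α - Q.α| < Q.ρ)
    {i j : Fin Q.m} {t : A × Lat d} (h1 : C.tm t ≤ c ^ k * α) (h2 : c ^ k * α < C.tm t + ℓ t.1)
    (hi : C.On (C.S^[k] (u i)) t) (hj : C.On (C.S^[k] (u j)) t) : i = j := by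
  have hc : 0 < c ^ k := pow_pos (by linarith [C.one_lt]) k
  choose n hn using fun i => C.exists_K (C.S^[k] (u i)) (c ^ k * α)
  have un : ∀ i t, C.tm t ≤ c ^ k * α → c ^ k * α < C.tm t + ℓ t.1 → C.On (C.S^[k] (u i)) t →
      t = lab (C.s (n i) (C.S^[k] (u i))) := by
    rintro i t a1 a2 ⟨m, rfl⟩
    rw [C.K_unique (hn i) (n := m) ⟨C.z_s _ _, a1, a2⟩]
  have sub : C.LabW (k + Q.k) (c ^ k * α) (C.L.B'^[k] Q.β) ⊆
      (fun i => lab (C.s (n i) (C.S^[k] (u i)))) '' univ := by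
    rintro _ ⟨y, ⟨⟨a0, a1, a2⟩, hw⟩, rfl⟩
    obtain ⟨y₀, w₀, m₀, e₀⟩ := Wk_add hw
    obtain ⟨n₀, b⟩ := C.exists_K y₀ α
    have b0 : C.z y₀ = Q.β := C.L.B'.injective.iterate k (by rw [← a0, e₀, z_s, z_iter])
    obtain ⟨i, hi⟩ := hu (lab (C.s n₀ y₀)) (by
      rw [← Q.const α Q.β hα (by simpa using Q.ρ_pos), ← b0]
      exact ⟨_, ⟨b, Wk_s w₀ n₀⟩, rfl⟩)
    have on : C.On (C.S^[k] (C.s n₀ y₀)) (lab y) := by
      rw [iter_s, on_s]
      exact ⟨m₀, by rw [e₀]⟩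
    refine ⟨i, trivial, (un i _ a1 a2 (C.on_loc hi.symm on ?_ (a1.trans_lt
      (mul_lt_mul_of_pos_left b.2.2 hc)))).symm⟩
    obtain ⟨m, hm⟩ := on
    have mono := (C.p_s_strictMono (C.S^[k] (C.s n₀ y₀))).monotone
    have e1 : C.p (C.s m (C.S^[k] (C.s n₀ y₀))) = C.p y := congrArg C.tm hm
    have e2 : (C.S^[k] (C.s n₀ y₀)).1.1 m = y.1.1 0 := by
      rw [← C.s_letter]
      exact congrArg Prod.fst hm
    by_cases h0 : 0 ≤ m
    · have := mono h0
      simp only [s_zero, p_iter, e1] at this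
      exact this
    · have := mono (show m + 1 ≤ 0 by omega)
      simp only [s_zero, p_iter, p_s_succ, e1, e2] at this
      linarith [mul_le_mul_of_nonneg_left b.2.1 hc.le]
  have inj : InjOn (fun i => lab (C.s (n i) (C.S^[k] (u i)))) univ := by
    refine injOn_of_ncard_image_eq (le_antisymm (ncard_image_le finite_univ) ?_) finite_univ
    rw [ncard_univ, Nat.card_fin]
    exact (Q.least (k + Q.k) _ _).trans (ncard_le_ncard sub (finite_univ.image _))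
  exact inj trivial trivial ((un i t h1 h2 hi).symm.trans (un j t h1 h2 hj))

omit [DiscreteTopology A] in
lemma a_iter_Stack (j : ℕ) (v : Lat d) : C.a (C.Bz^[j] v) = c ^ j * C.a v := by
  induction j with
  | zero => simp
  | succ j ih => rw [Function.iterate_succ_apply', a_Bz, ih, pow_succ', mul_assoc]

lemma approx_Stack (hR : ∀ ρ : ℝ, 0 < ρ → ∃ L : ℝ, ∀ t β, ∃ v,
    |C.a v - t| ≤ L ∧ ‖C.b v - β‖ < ρ) (Q : C.Box) (β : Fin e → ℝ) {l₁ : ℝ} (hl : ∀ a, ℓ a ≤ l₁)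
    (N : ℕ) : ∃ y : Fin Q.m → D.X × Lat d,
      (∀ i, ‖C.z (y i) - β‖ < 1 / ((N : ℝ) + 1) ∧ |C.p (y i)| ≤ l₁) ∧
      ∀ j i i' t, |C.tm t| < c ^ j * N → C.On (C.S^[j] (y i)) t → C.On (C.S^[j] (y i')) t →
        i = i' := by
  obtain ⟨u, hz, hu⟩ := enum_Stack Q
  obtain ⟨L, hL⟩ := hR (1 / ((N : ℝ) + 1)) (by positivity)
  obtain ⟨k, hk⟩ := pow_unbounded_of_one_lt ((L + N) / Q.ρ) C.one_lt
  rw [div_lt_iff₀ Q.ρ_pos] at hk
  obtain ⟨v, h1, h2⟩ := hL (-(c ^ k * Q.α)) (β - C.L.B'^[k] Q.β)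
  choose n hn using fun i => C.exists_K (tr v (C.S^[k] (u i))) 0
  refine ⟨fun i => C.s (n i) (tr v (C.S^[k] (u i))), fun i => ⟨?_, ?_⟩,
    fun j i i' t ht hi hi' => ?_⟩
  · rw [z_s, z_tr, z_iter, hz]
    rwa [show C.L.B'^[k] Q.β + C.b v - β = C.b v - (β - C.L.B'^[k] Q.β) by abel]
  · rw [abs_of_nonpos (hn i).2.1]
    linarith [(hn i).2.2, hl ((C.s (n i) (tr v (C.S^[k] (u i)))).1.1 0)]
  · have hc : 0 < c := by linarith [C.one_lt]
    have on : ∀ i, C.On (C.S^[j] (C.s (n i) (tr v (C.S^[k] (u i))))) t →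
        C.On (C.S^[j + k] (u i)) (t.1, t.2 - C.Bz^[j] v) := fun i h => by
      rw [iter_s, on_s, iter_tr, ← Function.iterate_add_apply] at h
      refine (C.on_tr (v := C.Bz^[j] v)).1 ?_
      simpa only [sub_add_cancel] using h
    have e : C.tm (t.1, t.2 - C.Bz^[j] v) = C.tm t - c ^ j * C.a v := by
      simp only [tm, map_sub, a_iter_Stack]
      ring
    have e' : c ^ (j + k) * ((C.tm t - c ^ j * C.a v) / c ^ (j + k)) = C.tm t - c ^ j * C.a v :=
      mul_div_cancel₀ _ (by positivity)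
    refine sep_Stack Q hu (j + k) (α := (C.tm t - c ^ j * C.a v) / c ^ (j + k)) ?_
      (by rw [e, e']) (by rw [e, e']; linarith [C.ℓ_pos t.1]) (on i hi) (on i' hi')
    rw [div_sub' (by positivity), abs_div, abs_of_pos (by positivity : 0 < c ^ (j + k)),
      div_lt_iff₀ (by positivity),
      show C.tm t - c ^ j * C.a v - c ^ (j + k) * Q.α =
        C.tm t - c ^ j * (C.a v - -(c ^ k * Q.α)) by ring]
    refine (abs_sub _ _).trans_lt ?_
    rw [abs_mul, abs_of_pos (pow_pos hc j), pow_add]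
    nlinarith [mul_le_mul_of_nonneg_left h1 (pow_pos hc j).le,
      mul_lt_mul_of_pos_left hk (pow_pos hc j)]

end

end Cover

theorem stack_s : StackS := by
  intro A _ _ _ _ D ℓ c σ d e C Q β
  obtain ⟨_, l₁, -, -, hl⟩ := C.len_bounds
  choose Y h1 h2 using Cover.approx_Stack (rec_Box C) Q β hl
  obtain ⟨V, hV, hb⟩ := C.K_box (|l₁| + (‖β‖ + 1))
  have hK : IsCompact (univ.pi fun _ : Fin Q.m => (univ : Set D.X) ×ˢ V) :=
    isCompact_univ_pi fun _ => isCompact_univ.prod hV.isCompact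
  obtain ⟨y, -, φ, hφ, hy⟩ := hK.tendsto_subseq (x := Y) fun N i _ => ⟨trivial, hb _ (by
    linarith [(h1 N i).2, le_abs_self l₁, norm_nonneg β]) (by
    have a1 : (1 : ℝ) / ((N : ℝ) + 1) ≤ 1 := by
      rw [div_le_one (by positivity)]
      linarith [N.cast_nonneg (α := ℝ)]
    linarith [(h1 N i).1, abs_nonneg l₁, norm_sub_norm_le (C.z (Y N i)) β])⟩
  refine ⟨y, fun i => ?_, fun i i' hne k t ⟨m, hm⟩ ⟨m', hm'⟩ => hne ?_⟩
  · refine tendsto_nhds_unique (((C.continuous_z.comp (continuous_apply i)).tendsto y).comp hy)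
      (tendsto_iff_norm_sub_tendsto_zero.2 (squeeze_zero (fun _ => norm_nonneg _)
        (fun n => (h1 (φ n) i).1.le)
        (tendsto_one_div_add_atTop_nhds_zero_nat.comp hφ.tendsto_atTop)))
  · have ev : ∀ i m, Cover.lab (C.s m (C.S^[k] (y i))) = t →
        ∀ᶠ n in atTop, C.On (C.S^[k] (Y (φ n) i)) t := fun i m h => by
      have := ((Cover.continuous_lab.comp ((C.continuous_s m).comp ((C.continuous_S.iterate k).comp
        (continuous_apply i)))).tendsto y).comp hy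
      rw [nhds_discrete, tendsto_pure] at this
      exact this.mono fun n hn => ⟨m, hn.trans h⟩
    obtain ⟨n, a1, a2, a3⟩ := ((ev i m hm).and ((ev i' m' hm').and
      ((tendsto_natCast_atTop_atTop.comp hφ.tendsto_atTop).eventually_gt_atTop |C.tm t|))).exists
    exact h2 (φ n) k i i' t (a3.trans_le (le_mul_of_one_le_left (Nat.cast_nonneg _)
      (one_le_pow₀ C.one_lt.le))) a1 a2

section

variable {A : Type} [Fintype A] [DecidableEq A] [TopologicalSpace A] [DiscreteTopology A]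
  {D : Shift A} {ℓ : A → ℝ} {c : ℝ} {σ : DSub D ℓ c} {d e : ℕ} (C : Cover σ d e)

lemma agree_Near (Q : C.Box) (β : Fin e → ℝ) (y : Fin Q.m → D.X × Lat d) (hy : C.Stack β y)
    (hW : ∀ i, y i ∈ C.Wk Q.k) (α : ℝ) (v : Lat d) (h1 : |α + C.a (C.Bz^[Q.k] v) - Q.α| < Q.ρ)
    (h2 : ‖β + C.b (C.Bz^[Q.k] v) - Q.β‖ < Q.ρ) :
    ∀ t ∈ C.LabW Q.k α β, ∃ i, C.On (y i) t := by
  choose n hn using fun i => C.exists_K (y i) α
  have a1 : (C.LabW Q.k α β).ncard ≤ Q.m := by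
    refine ncard_le_ncard_of_injOn (fun t => (t.1, t.2 + C.Bz^[Q.k] v)) ?_ ?_
      (C.finite_LabW _ _ _)
    · rintro _ ⟨x, hx, rfl⟩
      rw [← Q.const _ _ h1 h2]
      exact ⟨_, ⟨C.tr_mem_K hx.1 _, Cover.Wk_tr hx.2 v⟩, rfl⟩
    · rintro ⟨a, w⟩ - ⟨a', w'⟩ - h
      simpa using h
  have a2 : Function.Injective fun i => Cover.lab (C.s (n i) (y i)) := fun i j h => by
    by_contra hij
    exact hy.2 i j hij 0 _ ⟨n i, rfl⟩ ⟨n j, h.symm⟩
  have a3 : range (fun i => Cover.lab (C.s (n i) (y i))) = C.LabW Q.k α β := by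
    refine eq_of_subset_of_ncard_le ?_ ?_ (C.finite_LabW _ _ _)
    · rintro _ ⟨i, rfl⟩
      exact ⟨_, ⟨hy.1 i ▸ hn i, Cover.Wk_s (hW i) _⟩, rfl⟩
    · rw [ncard_range_of_injective a2, Nat.card_eq_fintype_card, Fintype.card_fin]
      exact a1
  intro t ht
  rw [← a3] at ht
  obtain ⟨i, hi⟩ := ht
  exact ⟨i, n i, hi⟩

omit [DiscreteTopology A] in
lemma lab_Near (Q : C.Box) (α : ℝ) (β β' : Fin e → ℝ) (w : Lat d)
    (a1 : |α + C.a (C.Bz^[Q.k] w) - Q.α| < Q.ρ) (a2 : ‖β + C.b (C.Bz^[Q.k] w) - Q.β‖ < Q.ρ)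
    (a3 : ‖β' + C.b (C.Bz^[Q.k] w) - Q.β‖ < Q.ρ) : C.LabW Q.k α β ⊆ C.LabW Q.k α β' := by
  rintro _ ⟨x, hx, rfl⟩
  have a4 : Cover.lab (Cover.tr (C.Bz^[Q.k] w) x) ∈
      C.LabW Q.k (α + C.a (C.Bz^[Q.k] w)) (β + C.b (C.Bz^[Q.k] w)) :=
    ⟨_, ⟨C.tr_mem_K hx.1 _, Cover.Wk_tr hx.2 w⟩, rfl⟩
  rw [Q.const _ _ a1 a2, ← Q.const _ _ a1 a3] at a4
  obtain ⟨x', hx', e⟩ := a4
  have a5 := C.tr_mem_K hx'.1 (-C.Bz^[Q.k] w)
  have a6 := Cover.Wk_tr hx'.2 (-w)
  rw [iterate_map_neg] at a6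
  rw [map_neg, map_neg, add_neg_cancel_right, add_neg_cancel_right] at a5
  refine ⟨_, ⟨a5, a6⟩, ?_⟩
  simp only [Cover.lab, Cover.tr, Prod.mk.injEq] at e ⊢
  exact ⟨e.1, by rw [e.2, add_neg_cancel_right]⟩

end

theorem near_s : NearS := by
  intro A _ _ _ _ D ℓ c σ d e C Q β u hu hW v0 hv
  obtain ⟨L, hL⟩ := C.recK Q.k (Q.ρ / 2) (half_pos Q.ρ_pos)
  obtain ⟨l₀, l₁, -, -, h2⟩ := C.len_bounds
  have hW' : ∀ i, Cover.tr (C.Bz^[Q.k] v0) (u i) ∈ C.Wk Q.k := fun i => Cover.Wk_tr (hW i) v0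
  generalize C.Bz^[Q.k] v0 = v at hv hW' ⊢
  obtain ⟨u', hu'⟩ : ∃ u' : Fin Q.m → _, u' = fun i => Cover.tr v (u i) := ⟨_, rfl⟩
  have box : ∀ (k : ℕ) (s : ℝ), ∃ α, |α - s| ≤ L ∧
      C.Ag_Nonzero (fun i => C.S^[k] (u' i)) (fun i => C.S^[k] (u i)) α := fun k s => by
    obtain ⟨w, a1, a2⟩ := hL (Q.α - s) (Q.β - C.L.B'^[k] β)
    have a3 := hu.iter_Nonzero k
    have a4 : C.Stack (C.L.B'^[k] β + C.b (C.Bz^[k] v)) fun i => C.S^[k] (u' i) := by
      simp only [hu', C.iter_tr]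
      exact ⟨fun i => by rw [C.z_tr, a3.1 i], fun i j h => (a3.2 i j h).tr _⟩
    have a5 : |Q.α - C.a (C.Bz^[Q.k] w) + C.a (C.Bz^[Q.k] w) - Q.α| < Q.ρ := by
      simpa using Q.ρ_pos
    have a6 : ‖C.L.B'^[k] β + C.b (C.Bz^[Q.k] w) - Q.β‖ < Q.ρ / 2 := by
      rwa [show C.L.B'^[k] β + C.b (C.Bz^[Q.k] w) - Q.β =
        C.b (C.Bz^[Q.k] w) - (Q.β - C.L.B'^[k] β) by abel]
    have a7 := a6.trans (half_lt_self Q.ρ_pos)
    have a8 : ∀ i, C.S^[k] (u' i) ∈ C.Wk Q.k := fun i => Cover.Wk_iter' (hu' ▸ hW' i) k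
    refine ⟨Q.α - C.a (C.Bz^[Q.k] w), ?_, Cover.ag_of_Nonzero a4 fun i =>
      agree_Near C Q _ _ a3 (fun i => Cover.Wk_iter' (hW i) k) _ w a5 a7 _
        (lab_Near C Q _ _ _ w a5 ?_ a7
          ⟨_, ⟨a4.1 i ▸ C.ix_mem_Nonzero _ _, Cover.Wk_s (a8 i) _⟩, rfl⟩)⟩
    · rw [abs_sub_comm] at a1
      rwa [sub_right_comm]
    · rw [show C.L.B'^[k] β + C.b (C.Bz^[k] v) + C.b (C.Bz^[Q.k] w) - Q.β =
        C.L.B'^[k] β + C.b (C.Bz^[Q.k] w) - Q.β + C.b (C.Bz^[k] v) by abel]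
      linarith [norm_add_le (C.L.B'^[k] β + C.b (C.Bz^[Q.k] w) - Q.β) (C.b (C.Bz^[k] v)), hv k]
  obtain ⟨t₁, -, g1⟩ := box 0 0
  simp only [Function.iterate_zero, id_eq] at g1
  refine ⟨∑ i, C.H_Nonzero (u' i) t₁ - ∑ i, C.H_Nonzero (u i) t₁, ?_, fun τ => ?_⟩
  · have key := g1.sum_eq (fun u => C.vtx (C.s (C.ix_Nonzero u t₁) u)) fun _ _ h =>
      congrArg (fun t : A × Lat d => tile (C.st t.1, t.2)) h
    have a1 : ∀ i, C.vtx (u' i) = mono v • C.vtx (u i) := fun i => by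
      rw [hu']
      exact tile_add _ _ _
    simp only [Cover.H_Nonzero, map_sub, map_sum, C.bd_ch, Finset.sum_sub_distrib, key, a1,
      ← Finset.smul_sum, sub_smul, one_smul]
    abel
  obtain ⟨t₂, a2, g2⟩ := box 0 (max t₁ (τ + l₁) + L)
  simp only [Function.iterate_zero, id_eq] at g2
  have a3 : max t₁ (τ + l₁) ≤ t₂ := by linarith [(abs_le.1 a2).1]
  have late : ∀ y, ∀ᶠ m : ℤ in atTop, C.Late τ (C.ch y m - C.H_Nonzero y t₂) := fun y => by
    filter_upwards [eventually_ge_atTop (C.ix_Nonzero y t₂)] with m hm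
    refine (Cover.late_ch y hm).le ?_
    have b1 := (C.ix_spec_Nonzero y t₂).2
    rw [C.p_s_succ] at b1
    linarith [h2 (y.1.1 (C.ix_Nonzero y t₂)), le_max_right t₁ (τ + l₁)]
  filter_upwards [eventually_all.2 fun i => late (u' i), eventually_all.2 fun i => late (u i)]
    with m b1 b2
  refine ⟨_, Cover.agree_null box ((le_max_left _ _).trans a3) g1 g2, ?_⟩
  have b3 := (Cover.late_sum (s := Finset.univ) fun i _ => b1 i).sub
    (Cover.late_sum (s := Finset.univ) fun i _ => b2 i)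
  have b4 : ∀ i, C.ch (u' i) m = mono v • C.ch (u i) m := fun i => by rw [hu', C.ch_tr]
  refine (congrArg (C.Late τ) ?_).mp b3
  simp only [Cover.W_Nonzero, Finset.sum_sub_distrib, b4, ← Finset.smul_sum, sub_smul, one_smul]
  abel

theorem mm_Kill {R V : Type} [CommRing R] [AddCommGroup V] [Module R V] {d : ℕ}
    {P Q : Matrix (Fin d) (Fin d) R} {b : R} (h : P * Q = b • (1 : Matrix (Fin d) (Fin d) R))
    (x : Fin d → V) (m : Fin d) : ∑ i, P m i • ∑ a, Q i a • x a = b • x m := by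
  simp_rw [Finset.smul_sum, smul_smul]
  rw [Finset.sum_comm]
  simp_rw [← Finset.sum_smul, ← Matrix.mul_apply, h]
  simp [Matrix.one_apply, ite_smul]

theorem adj_Kill {R : Type} [CommRing R] {d : ℕ} {M : Matrix (Fin d) (Fin d) R} {s t : Fin d → R}
    (h : ∀ i, s i = ∑ j, M i j * t j) (l : Fin d) :
    ∑ a, M.adjugate l a * s a = M.det * t l := by
  have := mm_Kill (Matrix.adjugate_mul M) t l
  simp only [smul_eq_mul] at this
  rw [← this]
  exact Finset.sum_congr rfl fun a _ => by rw [h]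

theorem mem_Kill {R V : Type} [CommRing R] [AddCommGroup V] [Module R V] {d : ℕ}
    {G : Submodule R (R × V)} {s : Fin d → R} {c : Fin d → V} (h : ∀ i, (s i, c i) ∈ G)
    (a : Fin d → R) : (∑ i, a i * s i, ∑ i, a i • c i) ∈ G := by
  have := G.sum_mem fun i (_ : i ∈ Finset.univ) => G.smul_mem (a i) (h i)
  rwa [show ∑ i, a i • (s i, c i) = (∑ i, a i * s i, ∑ i, a i • c i) by
    ext1
    · simp [Prod.fst_sum]
    · simp [Prod.snd_sum]] at this

theorem kill_s : KillS := by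
  intro A _ d bd Vx N v E μ G n₀ p s hp hpv hcon hv hr haug hE hN hZ hsat hnil hG1 hM hG0 hGb
  classical
  let F : ℕ → (A → Rg d) →+ (A → Rg d) := fun k => AddMonoidHom.mk' E^[k] (iterate_map_add E k)
  have F0 : ∀ z, F 0 z = z := fun z => rfl
  have FS : ∀ k z, F (k + 1) z = E (F k z) := fun k z => Function.iterate_succ_apply' E k z
  have FA : ∀ k l z, F (k + l) z = F k (F l z) := fun k l z => Function.iterate_add_apply E k l z
  have mS : ∀ k P, (μ ^ (k + 1)) P = μ ((μ ^ k) P) := fun k P => by rw [pow_succ']; rfl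
  have kaug : ∀ k P, aug ((μ ^ k) P) = aug P := fun k P => by
    induction k with
    | zero => rfl
    | succ k ih => rw [mS, haug, ih]
  have kE : ∀ k (P : Rg d) z, F k (P • z) = (μ ^ k) P • F k z := fun k P z => by
    induction k with
    | zero => rfl
    | succ k ih => rw [FS, FS, mS, ih, hE]
  have kN : ∀ k, ∀ z ∈ N, F k z ∈ N := fun k z hz => by
    induction k with
    | zero => exact hz
    | succ k ih => rw [FS]; exact hN _ ih
  have kZ : ∀ k z, bd z = 0 → bd (F k z) = 0 := fun k z hz => by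
    induction k with
    | zero => exact hz
    | succ k ih => rw [FS]; exact hZ _ ih
  have cross : ∀ {a b : Rg d} {x y : A → Rg d}, (a, x) ∈ G → (b, y) ∈ G → a • y - b • x ∈ N :=
    fun {a b x y} hx hy => hG0 _ (by
      have := G.sub_mem (G.smul_mem a hy) (G.smul_mem b hx)
      rwa [Prod.smul_mk, Prod.smul_mk, Prod.mk_sub_mk, smul_eq_mul, smul_eq_mul, mul_comm a b,
        sub_self] at this)
  choose c hc using hG1
  obtain ⟨M0, hM0, hd0⟩ := hM 0
  replace hM0 : ∀ i, s i = ∑ j, M0 i j * tt j := hM0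
  have a0 : aug M0.det ≠ 0 := fun h => hd0 (by rw [h]; exact dvd_zero p)
  have b0 : M0.det ≠ 0 := fun h => a0 (by rw [h, map_zero])
  have hsI : ∀ i, aug (s i) = 0 := fun i => by
    rw [hM0, map_sum]
    exact Finset.sum_eq_zero fun j _ => by rw [map_mul, mem_II.1 (tt_mem j), mul_zero]
  have hcc : ∀ i, (M0.det * tt i, ∑ a, M0.adjugate i a • c a) ∈ G := fun i => by
    rw [← adj_Kill hM0]
    exact mem_Kill hc _
  have hr' : tot (M0.det • v) ≠ 0 := by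
    rw [tot_smul_Kill]
    exact mul_ne_zero a0 hr
  have s1 : ∀ z ∈ LinearMap.ker bd,
      tot (M0.det • v) • F n₀ z ∈ N ⊔ II d • LinearMap.ker bd := fun z hz =>
    cyc_stmt kos_stmt A d bd Vx N (M0.det • v) (fun i => ∑ a, M0.adjugate i a • c a) hcon
      (fun q hq => by rw [Pi.smul_apply, hv q hq, smul_zero])
      (fun i => by rw [hGb _ _ (hcc i), mul_comm, mul_smul])
      (fun i j => hsat M0.det _ b0 (by
        have := cross (hcc i) (hcc j)
        rwa [mul_smul, mul_smul, ← smul_sub] at this)) _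
      (kZ n₀ z hz) (hnil z hz)
  generalize tot (M0.det • v) = r at hr' s1
  have s2 : ∀ j, ∀ z ∈ LinearMap.ker bd,
      r ^ j • F (n₀ * j) z ∈ N ⊔ II d ^ j • LinearMap.ker bd := fun j z hz => by
    induction j with
    | zero =>
      rw [pow_zero, pow_zero, one_smul, one_smul, mul_zero, F0]
      exact Submodule.mem_sup_right hz
    | succ j ih =>
      have := step_Kill (kaug n₀) (kE n₀) (kN n₀) s1 j ih
      rwa [map_zsmul, smul_smul, ← pow_succ', ← FA, show n₀ + n₀ * j = n₀ * (j + 1) by ring] at this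
  obtain ⟨j, hj⟩ := ar_stmt A d (modR_Kill N p)
  obtain ⟨j', hj'⟩ := sym_stmt emb_stmt tors_stmt A d N hsat j
  have s3 : ∀ z, bd z = 0 → F (n₀ * j') z ∈ N ⊔ II d ^ j • ⊤ := fun z hz =>
    hj' _ _ (pow_ne_zero j' hr')
      (sup_le_sup_left (Submodule.smul_mono le_rfl le_top) N (s2 j' z hz))
  generalize n₀ * j' = k at s3
  obtain ⟨q0, hq0⟩ : ∃ q, v q ≠ 0 := by
    by_contra hc
    push Not at hc
    exact hr (by simp [tot, hc])
  have hpV : q0 ∈ Vx := by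
    by_contra hc
    exact hq0 (hv q0 hc)
  have hv0 : ∀ q ∉ Vx, (Pi.single q0 1 : A → Rg d) q = 0 := fun q hq =>
    Pi.single_eq_of_ne (fun h : q = q0 => hq (by rw [h]; exact hpV)) _
  obtain ⟨c0, hc0⟩ := hcon.2 (v - tot v • (Pi.single q0 1 : A → Rg d))
    (fun q hq => by rw [Pi.sub_apply, Pi.smul_apply, hv q hq, hv0 q hq, smul_zero, sub_zero])
    (by rw [tot_sub_Kill, tot_zsmul_Kill, tot_single_Kill, mul_one, sub_self])
  choose g hg using fun i : Fin d => hcon.2 (s i • (Pi.single q0 1 : A → Rg d))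
    (fun q hq => by rw [Pi.smul_apply, hv0 q hq, smul_zero])
    (by rw [tot_smul_Kill, hsI i, zero_mul])
  have cyc : ∀ i, bd (c i + s i • c0 + tot v • g i) = 0 := fun i => by
    rw [map_add, map_add, map_smul, map_zsmul, hGb _ _ (hc i), hc0, hg, smul_sub,
      smul_comm (s i) (tot v)]
    abel
  obtain ⟨M, hM1, hd⟩ := hM k
  rw [← RingHom.coe_pow] at hM1
  obtain ⟨x, hx⟩ : ∃ x : Fin d → A → Rg d, ∀ i, x i = F k (c i) + (μ ^ k) (s i) • F k c0 :=
    ⟨_, fun _ => rfl⟩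
  have x1 : ∀ i, x i ∈ modR_Kill N p ⊔ II d ^ j • ⊤ := fun i => by
    obtain ⟨m, hm⟩ := hpv
    have h1 := sup_le_sup_right (le_modR_Kill N p) _ (s3 _ (cyc i))
    rw [map_add, map_add, kE, map_zsmul, hm, mul_smul] at h1
    have h2 := Submodule.sub_mem _ h1
      (Submodule.mem_sup_left (smul_modR_Kill N p (m • F k (g i))))
    rwa [add_sub_cancel_right, ← hx] at h2
  have x2 : ∀ i l, (μ ^ k) (s l) • x i - (μ ^ k) (s i) • x l ∈ N := fun i l => by
    have := kN k _ (cross (hc l) (hc i))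
    rw [map_sub, kE, kE] at this
    rwa [hx, hx, smul_add, smul_add, smul_comm ((μ ^ k) (s l)) ((μ ^ k) (s i)),
      add_sub_add_right_eq_sub]
  obtain ⟨w, hw⟩ := hj (fun i => M.det • ∑ m, M.adjugate i m • x m) (fun i l => by
      refine le_modR_Kill N _ ?_
      have e : tt l • M.det • ∑ m, M.adjugate i m • x m - tt i • M.det • ∑ m, M.adjugate l m • x m
          = ∑ a, ∑ m, (M.adjugate l a * M.adjugate i m) •
            ((μ ^ k) (s a) • x m - (μ ^ k) (s m) • x a) := by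
        rw [smul_smul, smul_smul, mul_comm (tt l), mul_comm (tt i), ← adj_Kill hM1,
          ← adj_Kill hM1, Finset.sum_smul, Finset.smul_sum (r := ∑ a, _), ← Finset.sum_sub_distrib]
        refine Finset.sum_congr rfl fun a _ => ?_
        rw [Finset.smul_sum, Finset.sum_smul, ← Finset.sum_sub_distrib]
        refine Finset.sum_congr rfl fun m _ => ?_
        simp only [smul_sub, smul_smul]
        congr 2 <;> ring
      rw [e]
      exact N.sum_mem fun a _ => N.sum_mem fun m _ => N.smul_mem _ (x2 m a))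
    (fun i => Submodule.smul_mem _ _ (Submodule.sum_mem _ fun m _ => Submodule.smul_mem _ _ (x1 m)))
  have w2 : ∀ m, (M.det * M.det) • x m - (μ ^ k) (s m) • w ∈ modR_Kill N p := fun m => by
    have h := (modR_Kill N p).sum_mem fun i (_ : i ∈ Finset.univ) =>
      (modR_Kill N p).smul_mem (M m i) (hw i)
    simp only [smul_sub, Finset.sum_sub_distrib, smul_comm (M m _) M.det, ← Finset.smul_sum,
      mm_Kill (Matrix.mul_adjugate M)] at h
    simp only [smul_smul, ← Finset.sum_smul] at h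
    rwa [hM1]
  refine ⟨k, w - (M.det * M.det) • F k c0, M.det * M.det, fun h => ?_, fun t ht z hz => ?_⟩
  · rw [map_mul] at h
    exact hd ((hp.dvd_or_dvd h).elim id id)
  obtain ⟨a, rfl⟩ := Ideal.mem_span_range_iff_exists_fun.1 ht
  have h1 : z - ∑ i, a i • c i ∈ N := hG0 _ (by
    have := G.sub_mem hz (mem_Kill hc a)
    rwa [Prod.mk_sub_mk, sub_self] at this)
  have h2 := kN k _ h1
  rw [map_sub, map_sum] at h2
  simp only [kE] at h2
  have h3 := (modR_Kill N p).add_mem (le_modR_Kill N _ (N.smul_mem (M.det * M.det) h2))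
    ((modR_Kill N p).sum_mem fun i (_ : i ∈ Finset.univ) =>
      (modR_Kill N p).smul_mem ((μ ^ k) (a i)) (w2 i))
  have e : (M.det * M.det) • (F k z - ∑ i, (μ ^ k) (a i) • F k (c i))
      + ∑ i, (μ ^ k) (a i) • ((M.det * M.det) • x i - (μ ^ k) (s i) • w) =
      (M.det * M.det) • F k z - (μ ^ k) (∑ i, a i * s i) • (w - (M.det * M.det) • F k c0) := by
    rw [map_sum (μ ^ k), Finset.sum_smul, smul_sub, Finset.smul_sum, sub_add,
      ← Finset.sum_sub_distrib]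
    congr 1
    refine Finset.sum_congr rfl fun i _ => ?_
    rw [hx, map_mul (μ ^ k)]
    module
  rw [e, RingHom.coe_pow] at h3
  exact h3

theorem fin_s : FinS := by
  intro A _ _ _ _ D ℓ c σ d e C r β u k w p a hu hr hpa hall
  obtain ⟨-, -, -, -, -, n1, -, n3, -⟩ := null_facts C
  have hc : ∀ k : ℕ, 0 < c ^ k := fun k => pow_pos (by linarith [C.one_lt]) k
  obtain ⟨t₀, t₁, hw⟩ := loc_Null C w
  obtain ⟨T₀, hT₀⟩ := (finite_range fun i => C.p (u i)).bddBelow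
  obtain ⟨T₁, hT₁⟩ := (finite_range fun i => C.p (u i)).bddAbove
  let i₀ : Fin r := ⟨0, by omega⟩
  obtain ⟨n₀, hn₀⟩ := (C.p_s_atTop (u i₀) (max T₁ (t₁ / c ^ k))).exists
  obtain ⟨v, z, g, hv, hg, hn'⟩ := hall (C.p (C.s (n₀ + 1) (u i₀)) - min T₀ (t₀ / c ^ k))
  have hτ : C.p (C.s (n₀ + 1) (u i₀)) ≤ min T₀ (t₀ / c ^ k) + C.a v := by linarith
  obtain ⟨m, ⟨⟨n, hn, hl⟩, hm0⟩, hm⟩ := (((hg (C.p (C.s (n₀ + 1) (u i₀)))).and
    (eventually_ge_atTop 0)).and (eventually_all.2 fun i =>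
      C.p_s_atTop (u i) (C.p (C.s (n₀ + 1) (u i₀))))).exists
  have hnk : C.Null (C.E^[k] n) := Function.Iterate.rec C.Null hn n3 k
  have hna : C.Null (a • C.E^[k] n) := zsmul_mem (show _ ∈ C.nullM from hnk) a
  have hnull := n1 _ _ hn' hna
  let F : ℕ → (A → Rg d) →+ (A → Rg d) := fun k =>
    AddMonoidHom.mk' C.E^[k] (iterate_map_add C.E k)
  have hF : ∀ k z, C.E^[k] z = F k z := fun _ _ => rfl
  have key : ∀ j : ℕ, c ^ k * ℓ ((u i₀).1.1 n₀) ≤ len ℓ (C.E^[j]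
      (a • C.E^[k] z - (mu C.Bz)^[k] (mono v - 1) • w - p • g + a • C.E^[k] n)) / c ^ j :=
      fun j => by
    have hs := C.p_s_strictMono (C.S^[j + k] (u i₀))
    have a1 := C.p_ix (j + k) n₀ (u i₀)
    have a2 := C.p_ix (j + k) (n₀ + 1) (u i₀)
    rw [le_div_iff₀ (hc j)]
    refine le_trans (le_of_eq ?_) (lower_Fin C (C.S^[j + k] (u i₀)) (m := C.ix (u i₀) n₀ (j + k))
      (n := C.ix (u i₀) (n₀ + 1) (j + k)) (hs.le_iff_le.1 (by
        simp only [a1, a2]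
        exact mul_le_mul_of_nonneg_left ((C.p_s_strictMono _).monotone (by omega)) (hc _).le))
      fun i b1 b2 => ?_)
    · rw [a1, a2, C.p_s_succ, pow_add]
      ring
    have b3 : c ^ (j + k) * C.p (C.s n₀ (u i₀)) ≤ C.tm (Cover.lab (C.s i (C.S^[j + k] (u i₀)))) :=
      a1 ▸ hs.monotone b1
    have b4 : C.tm (Cover.lab (C.s i (C.S^[j + k] (u i₀)))) <
        c ^ (j + k) * C.p (C.s (n₀ + 1) (u i₀)) := a2 ▸ hs b2
    have b5 : C.On (C.S^[j + k] (u i₀)) (Cover.lab (C.s i (C.S^[j + k] (u i₀)))) := ⟨i, rfl⟩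
    generalize Cover.lab (C.s i (C.S^[j + k] (u i₀))) = t at b3 b4 b5
    have z0 : ∀ {τ : ℝ} {y : A → Rg d}, C.Late τ y →
        c ^ (j + k) * C.p (C.s (n₀ + 1) (u i₀)) ≤ τ → co t y = 0 := fun h1 h2 => by
      by_contra h3
      linarith [h1 t h3]
    have hτ' := mul_le_mul_of_nonneg_left hτ (hc (j + k)).le
    have c1 := z0 (hl.iter (j + k)) le_rfl
    have c2 : co t (mono (C.Bz^[j + k] v) • C.E^[j + k] (∑ i, C.ch (u i) m)) = 0 := by
      refine z0 (((Cover.late_sum (τ := T₀) fun i _ => ?_).iter (j + k)).mono_smul _) ?_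
      · have := (Cover.late_ch (C := C) (u i) hm0).le (τ' := T₀) (by
          rw [C.s_zero]; exact hT₀ ⟨i, rfl⟩)
        rwa [C.ch_zero, sub_zero] at this
      · rw [a_iter_Null]
        nlinarith [min_le_left T₀ (t₀ / c ^ k), hc (j + k)]
    have c3 : co t (mono (C.Bz^[j + k] v) • C.E^[j] w) = 0 := by
      refine z0 (Cover.Late.mono_smul (τ := c ^ j * t₀) (fun t h => (hw j t h).1) _) ?_
      have h1 : c ^ j * t₀ = c ^ (j + k) * (t₀ / c ^ k) := by
        rw [pow_add]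
        field_simp [(hc k).ne']
      rw [a_iter_Null, h1]
      nlinarith [min_le_right T₀ (t₀ / c ^ k), hc (j + k)]
    have c4 : co t (C.E^[j] w) = 0 := by
      by_contra h
      have h1 : c ^ j * t₁ = c ^ (j + k) * (t₁ / c ^ k) := by
        rw [pow_add]
        field_simp [(hc k).ne']
      have h2 := mul_le_mul_of_nonneg_left ((le_max_right _ _).trans hn₀) (hc (j + k)).le
      linarith [(hw j t h).2]
    have c5 : co t (C.E^[j + k] (∑ i, C.ch (u i) m)) = 1 := by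
      rw [hF, map_sum, map_sum, Finset.sum_eq_single i₀ (fun i _ hi => ?_) (by simp)]
      · have h1 := C.co_piece (j + k) (u i₀) hm0 t
        rw [C.ch_zero, sub_zero, C.s_zero] at h1
        refine h1.trans (if_pos ⟨b5, le_trans (mul_le_mul_of_nonneg_left ?_ (hc _).le) b3,
          b4.trans_le (mul_le_mul_of_nonneg_left (hm i₀) (hc _).le)⟩)
        exact (hT₁ ⟨i₀, rfl⟩).trans ((le_max_left _ _).trans hn₀)
      · have h1 := C.co_piece (j + k) (u i) hm0 t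
        rw [C.ch_zero, sub_zero] at h1
        exact h1.trans (if_neg fun h => hu.2 i i₀ hi _ t h.1 b5)
    rw [iterate_map_sub, iterate_map_sub, iter_smul_Fin, iter_mu_Fin, sub_smul, one_smul, map_sub,
      map_sub, map_sub, c2, c5] at c1
    rw [iterate_map_add, iterate_map_sub, iterate_map_sub, iter_smul_Fin, iterate_map_zsmul,
      iterate_map_zsmul, iterate_map_zsmul,
      ← Function.iterate_add_apply, ← Function.iterate_add_apply, ← Function.iterate_add_apply,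
      iter_mu_Fin, sub_smul, one_smul, map_add, map_sub, map_sub, map_sub, c3,
      c4, map_zsmul, map_zsmul, map_zsmul, smul_eq_mul, smul_eq_mul, smul_eq_mul]
    intro h
    exact hpa ⟨-co t (C.E^[j] g), by linear_combination -h - a * c1⟩
  have h1 := ge_of_tendsto' hnull key
  have h2 := mul_pos (hc k) (C.ℓ_pos ((u i₀).1.1 n₀))
  linarith

theorem coef_Div {d : ℕ} (v : Lat d) : ∃ a : Fin d → Rg d, mono v - 1 = ∑ j, a j * tt j ∧
    ∀ j, aug (a j) = v j := by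
  have h2 : v ∈ AddSubgroup.closure (range fun i : Fin d => (Pi.single i 1 : Lat d)) :=
    closure_single ▸ AddSubgroup.mem_top v
  induction h2 using AddSubgroup.closure_induction with
  | mem v hv =>
    obtain ⟨i, rfl⟩ := hv
    refine ⟨Pi.single i 1, ?_, fun j => ?_⟩
    · rw [Finset.sum_eq_single i (fun j _ hj => by simp [hj]) (by simp)]
      simp [tt]
    · by_cases h : j = i
      · simp [h]
      · simp [h]
  | zero => exact ⟨0, by simp, by simp⟩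
  | add v w _ _ hv hw =>
    obtain ⟨a, a1, a2⟩ := hv
    obtain ⟨b, b1, b2⟩ := hw
    refine ⟨fun j => mono w * a j + b j, ?_, fun j => by simp [a2, b2]⟩
    simp only [add_mul, Finset.sum_add_distrib, mul_assoc, ← Finset.mul_sum, ← a1, ← b1, mono_add]
    ring
  | neg v _ hv =>
    obtain ⟨a, a1, a2⟩ := hv
    refine ⟨fun j => -(mono (-v) * a j), ?_, fun j => by simp [a2]⟩
    simp only [neg_mul, Finset.sum_neg_distrib, mul_assoc, ← Finset.mul_sum, ← a1]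
    rw [mul_sub, ← mono_add, neg_add_cancel, mono_zero, mul_one, neg_sub]

section

variable {A : Type} [Fintype A] [DecidableEq A] [TopologicalSpace A] {D : Shift A} {ℓ : A → ℝ}
  {c : ℝ} {σ : DSub D ℓ c} {d e : ℕ} {C : Cover σ d e}

theorem iter_Div {r : ℕ} {u : Fin r → D.X × Lat d} {P : Rg d} {z : A → Rg d}
    (h : C.Good2 u P z) (k : ℕ) :
    C.Good2 (fun i => C.S^[k] (u i)) ((mu C.Bz)^[k] P) (C.E^[k] z) := by
  intro τ
  have hc : 0 < c ^ k := pow_pos (by linarith [C.one_lt]) k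
  obtain ⟨R, hR⟩ := C.late_smul ((mu C.Bz)^[k] P)
  obtain ⟨m, ⟨n, a1, a2⟩, a3⟩ := ((h (τ / c ^ k)).and (eventually_all.2 fun i =>
    C.p_s_atTop (u i) ((τ + R) / c ^ k))).exists
  let F : (A → Rg d) →+ (A → Rg d) := AddMonoidHom.mk' C.E^[k] (iterate_map_add C.E k)
  have hF : ∀ z, C.E^[k] z = F z := fun _ => rfl
  have b1 := a2.iter k
  rw [mul_div_cancel₀ _ hc.ne', iterate_map_sub, iterate_map_sub, iter_smul_Fin,
    hF (∑ i, _), map_sum] at b1
  simp only [← hF, C.iter_E_ch] at b1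
  filter_upwards [eventually_all.2 fun i => eventually_ge_atTop (C.ix (u i) m k)] with m' hm
  refine ⟨C.E^[k] n, Function.Iterate.rec C.Null a1 (null_facts C).2.2.2.2.2.2.2.1 k, ?_⟩
  have b2 := hR _ _ (Cover.late_sum (s := Finset.univ) (τ := τ + R) fun i _ =>
    (Cover.late_ch (C := C) (C.S^[k] (u i)) (hm i)).le (by
      rw [C.p_ix]
      exact (div_le_iff₀' hc).1 (a3 i)))
  rw [add_sub_cancel_right] at b2
  refine (congrArg (C.Late τ) ?_).mp (b1.add b2)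
  rw [Finset.sum_sub_distrib, smul_sub]
  abel

theorem pow_Div (C : Cover σ d e) (k : ℕ) (v : Lat d) : C.Bz^[k] v = (C.B ^ k) *ᵥ v := by
  induction k with
  | zero => simp
  | succ k ih => rw [Function.iterate_succ_apply', ih, pow_succ', ← Matrix.mulVec_mulVec]; rfl

end

theorem div_s (hS : StackS) (hN : NearS) (hK : KillS) (hF : FinS) : DivS := by
  intro A _ _ _ _ D ℓ c σ d e C Q p hp hdvd
  by_contra hnd
  obtain ⟨-, -, -, -, -, -, -, n3, n4⟩ := null_facts C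
  obtain ⟨u₀, hu₀⟩ := hS A D ℓ c σ d e C Q 0
  obtain ⟨n₀, hn₀⟩ := nil C
  have hm := Q.m_pos
  obtain ⟨k₀, hk₀⟩ : ∃ k₀, ∀ k ≥ k₀, ∀ i, ‖C.b (C.Bz^[k] (Pi.single i 1))‖ < Q.ρ / 2 :=
    eventually_atTop.1 (eventually_all.2 fun i =>
      (tendsto_zero_iff_norm_tendsto_zero.1 (contr C _)).eventually_lt_const (half_pos Q.ρ_pos))
  obtain ⟨K, hK'⟩ : ∃ K, K = Q.k + k₀ := ⟨_, rfl⟩
  obtain ⟨s, hs⟩ : ∃ s : Fin d → Rg d, s = fun i => (mu C.Bz)^[K] (tt i) := ⟨_, rfl⟩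
  have s1 : ∀ k i, (mu C.Bz)^[k] (s i) = mono (C.Bz^[k + K] (Pi.single i 1)) - 1 := fun k i => by
    rw [hs, ← Function.iterate_add_apply, tt, iter_mu_Fin]
  have s2 : ∀ P ∈ II d, (mu C.Bz)^[K] P ∈ Ideal.span (range s) := fun P hP => by
    obtain ⟨a, rfl⟩ := exists_of_mem_II hP
    rw [← RingHom.coe_pow, map_sum]
    refine Ideal.sum_mem _ fun i _ => ?_
    rw [map_mul]
    exact Ideal.mul_mem_left _ _ (Ideal.subset_span ⟨i, by rw [hs, RingHom.coe_pow]⟩)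
  have hall : ∀ β (U : Fin Q.m → D.X × Lat d), C.Stack β U → (∀ i, U i ∈ C.Wk Q.k) →
      ∀ t ∈ Ideal.span (range s), ∃ z, (t, z) ∈ C.goodM U := fun β U h1 h2 t ht => by
    have h3 : Ideal.span (range s) ≤ (C.goodM U).map (LinearMap.fst _ _ _) := Ideal.span_le.2 (by
      rintro _ ⟨i, rfl⟩
      obtain ⟨z, hz⟩ := hN A D ℓ c σ d e C Q β U h1 h2 (C.Bz^[k₀] (Pi.single i 1)) fun k => by
        rw [← Function.iterate_add_apply, ← Function.iterate_add_apply]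
        exact hk₀ _ (by omega) i
      refine ⟨(s i, z), ?_, rfl⟩
      have h4 := s1 0 i
      rw [Function.iterate_zero_apply, zero_add, hK', Function.iterate_add_apply] at h4
      rw [h4]
      exact hz)
    obtain ⟨⟨_, z⟩, h4, rfl⟩ := h3 ht
    exact ⟨z, h4⟩
  obtain ⟨u, hu⟩ : ∃ u : Fin Q.m → D.X × Lat d, u = fun i => C.S^[Q.k] (u₀ i) := ⟨_, rfl⟩
  have u1 : C.Stack (C.L.B'^[Q.k] 0) u := hu ▸ hu₀.iter_Nonzero Q.k
  have u2 : ∀ i, u i ∈ C.Wk Q.k := fun i => hu ▸ Cover.iter_mem_Wk _ _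
  have htot : tot (∑ i, C.vtx (u i)) = Q.m := by
    have h1 : ∀ y, ∑ p, aug (C.vtx y p) = 1 := fun y => by
      rw [Finset.sum_eq_single (C.st (y.1.1 0)) (fun p _ hp => by simp [Cover.vtx, tile, hp])
        (by simp)]
      simp [Cover.vtx, tile]
    simp only [tot, Finset.sum_apply, map_sum]
    rw [Finset.sum_comm]
    simp [h1]
  obtain ⟨k, w, β, hβ, hw⟩ := hK A d C.bd (range C.st) C.nullM (∑ i, C.vtx (u i)) C.E (mu C.Bz)
    (C.goodM u) n₀ p s hp (htot ▸ hdvd) (isConn C) (fun q hq => by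
      rw [Finset.sum_apply]
      exact Finset.sum_eq_zero fun i _ => Pi.single_eq_of_ne (fun h => hq ⟨_, h.symm⟩) _)
    (by rw [htot]; exact_mod_cast hm.ne') (aug_mu _) C.E_smul n3 (fun z => C.bd_E) n4 hn₀
    (fun i => hall _ u u1 u2 _ (Ideal.subset_span ⟨i, rfl⟩)) (fun k => by
      choose a a1 a2 using fun i : Fin d => coef_Div (C.Bz^[k + K] (Pi.single i 1))
      refine ⟨Matrix.of a, fun i => (s1 k i).trans (a1 i), fun h => hnd ?_⟩
      have h1 : (Matrix.of a).map aug = (C.B ^ (k + K))ᵀ := by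
        ext i j
        rw [Matrix.map_apply, Matrix.of_apply, a2, pow_Div, Matrix.mulVec_single_one]
        rfl
      rw [RingHom.map_det, RingHom.mapMatrix_apply, h1, Matrix.det_transpose, Matrix.det_pow] at h
      exact hp.dvd_of_dvd_pow h)
    (fun z hz => Cover.Good2.null hz.2) fun P z hz => hz.1
  have hb : (mu C.Bz)^[K] β - (aug β : ℤ) ∈ Ideal.span (range s) := by
    have h1 := s2 (β - (aug β : ℤ)) (mem_II.2 (by simp))
    rwa [← RingHom.coe_pow, map_sub, map_intCast, RingHom.coe_pow] at h1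
  obtain ⟨z', hz'⟩ := hall _ _ (u1.iter_Nonzero (K + k)) (fun i => Cover.Wk_iter' (u2 i) _) _ hb
  refine hF A D ℓ c σ d e C _ _ u (K + k) (C.E^[K] w - z') p (aug β) u1 hm hβ fun τ => ?_
  obtain ⟨L, hL⟩ := rec_Box C 1 one_pos
  obtain ⟨v, hv, -⟩ := hL (|τ| + L) 0
  have v1 : |τ| ≤ C.a v := by linarith [(abs_le.1 hv).1]
  have v2 : mono (C.Bz^[K] v) - 1 ∈ Ideal.span (range s) :=
    iter_mu_Fin C.Bz K v ▸ s2 _ (mono_sub_mem v)
  obtain ⟨z, hz⟩ := hall _ u u1 u2 _ v2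
  obtain ⟨g, hg⟩ := hw _ v2 z hz
  refine ⟨_, z, C.E^[K] g, ?_, hz.2, ?_⟩
  · rw [a_iter_Null]
    exact ((le_abs_self τ).trans v1).trans (le_mul_of_one_le_left ((abs_nonneg τ).trans v1)
      (one_le_pow₀ C.one_lt.le))
  · have b1 : C.E^[K] _ ∈ C.nullM := Function.Iterate.rec C.Null hg n3 K
    have b2 : _ ∈ C.nullM := Cover.Good2.cross hz'.2 (iter_Div hz.2 (K + k))
    rw [iterate_map_sub, iterate_map_sub, iter_smul_Fin, iter_smul_Fin, iterate_map_zsmul,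
      ← Function.iterate_add_apply, ← Function.iterate_add_apply] at b1
    refine (congrArg C.Null ?_).mp (C.nullM.sub_mem b1 b2)
    rw [sub_smul, Int.cast_smul_eq_zsmul, smul_sub]
    abel

end Pool.Agent.MP_4168de_an.W
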