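import Pool.Agent.MP_4168de_an.W.St

/-! The fibres of the maximal equicontinuous factor. -/

namespace Pool.Agent.MP_4168de_an.W

open Set Filter Topology Shift Matrix G MeasureTheory

/-- A vector that pairs integrally with the dual group of `H` lies in `H`. -/
theorem dual_Lift {d : ℕ} (H : AddSubgroup (Lat d)) (x : Fin d → ℝ)
    (h : ∀ q : Fin d → ℝ, (∀ g ∈ H, ∃ n : ℤ, q ⬝ᵥ toR g = n) → ∃ n : ℤ, q ⬝ᵥ x = n) :
    ∃ g ∈ H, x = toR g := by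
  classical
  choose g hg using fun i => h (Pi.single i 1) fun g _ => ⟨g i, by simp [toR]⟩
  have hx : x = toR g := funext fun i => by simpa [toR] using hg i
  refine ⟨g, by_contra fun hn => ?_, hx⟩
  obtain ⟨χ, hχ⟩ := CharacterModule.exists_character_apply_ne_zero_of_ne_zero
    (A := Lat d ⧸ H) (a := (g : Lat d ⧸ H)) (fun h0 => hn ((QuotientAddGroup.eq_zero_iff g).1 h0))
  let ψ : Lat d →+ AddCircle (1 : ℚ) :=
    { toFun := fun v => χ (v : Lat d ⧸ H)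
      map_zero' := by rw [QuotientAddGroup.mk_zero, map_zero]
      map_add' := fun v w => by rw [QuotientAddGroup.mk_add, map_add] }
  have hs : ∀ i, ∃ r : ℚ, (r : AddCircle (1 : ℚ)) = ψ (Pi.single i 1) := fun i =>
    QuotientAddGroup.mk_surjective _
  choose q hq using hs
  have key : ∀ v : Lat d, ψ v = ((∑ i, v i • q i : ℚ) : AddCircle (1 : ℚ)) := fun v => by
    have e1 : v = ∑ i, v i • (Pi.single i 1 : Lat d) := by
      funext j
      simp [Finset.sum_apply, Pi.single_apply]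
    rw [QuotientAddGroup.mk_sum]
    conv_lhs => rw [e1, map_sum]
    exact Finset.sum_congr rfl fun i _ => by rw [map_zsmul, ← hq, QuotientAddGroup.mk_zsmul]
  have cast : ∀ v : Lat d, (fun i => (q i : ℝ)) ⬝ᵥ toR v = ((∑ i, v i • q i : ℚ) : ℝ) := fun v => by
    simp [dotProduct, toR, mul_comm]
  obtain ⟨n, hn⟩ := h (fun i => (q i : ℝ)) fun v hv => by
    have h0 : ψ v = 0 := by
      change χ (v : Lat d ⧸ H) = 0
      rw [(QuotientAddGroup.eq_zero_iff v).2 hv, map_zero]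
    rw [key, AddCircle.coe_eq_zero_iff] at h0
    obtain ⟨n, hn⟩ := h0
    exact ⟨n, by rw [cast, ← hn]; simp⟩
  apply hχ
  change ψ g = 0
  rw [key, AddCircle.coe_eq_zero_iff]
  refine ⟨n, ?_⟩
  rw [hx, cast] at hn
  have : (∑ i, g i • q i : ℚ) = n := by exact_mod_cast hn
  rw [this]
  simp

section

variable {A : Type} [TopologicalSpace A] [Fintype A] [DecidableEq A] {D : Shift A} {ℓ : A → ℝ}
  {c : ℝ} {σ : DSub D ℓ c} {d e : ℕ}

namespace Cover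

variable (C : Cover σ d e)

theorem iff_Lift (k : ℕ) (g : Lat d) (y : D.X × Lat d) (n : ℤ) :
    tr g (C.s n (C.S^[k] y)) ∈ C.Wk k ↔ tr g (C.S^[k] (y.1, 0)) ∈ C.Wk k := by
  have e1 : y = tr y.2 (y.1, 0) := by simp [tr]
  have e2 : tr g (C.s n (C.S^[k] y)) =
      C.s n (tr (C.Bz^[k] y.2) (tr g (C.S^[k] (y.1, 0)))) := by
    conv_lhs => rw [e1, iter_tr]
    rw [← s_tr]
    simp only [tr, add_right_comm]
  rw [e2]
  refine ⟨fun h => ?_, fun h => Wk_s (Wk_tr h _) n⟩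
  have h1 := Wk_tr (Wk_s h (-n)) (-y.2)
  rw [s_s, add_neg_cancel, s_zero, iterate_map_neg] at h1
  simpa only [tr, add_neg_cancel_right] using h1

variable [DiscreteTopology A]

theorem key_Lift {k : ℕ} (hc : IsClosed (C.Wk k)) {g : Lat d} {y : D.X × Lat d} (h1 : y ∈ C.Wk k)
    (h2 : tr g y ∈ C.Wk k) : ∀ y' ∈ C.Wk k, tr g y' ∈ C.Wk k := by
  obtain ⟨y₀, n, rfl⟩ := h1
  have cS : Continuous fun x : D.X => tr g (C.S^[k] (x, 0)) := by
    have := C.continuous_S.iterate k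
    unfold tr
    fun_prop
  have hZ := eq_univ_of_closed (s := (fun x : D.X => tr g (C.S^[k] (x, 0))) ⁻¹' C.Wk k)
    (hc.preimage cS) (x := y₀.1) fun m => by
      have a1 := (C.iff_Lift k g y₀ n).1 h2
      have a2 := (C.iff_Lift k g (y₀.1, 0) (C.ix (y₀.1, 0) m k)).2 a1
      rw [← iter_s] at a2
      have a3 := (C.iff_Lift k g (C.s m (y₀.1, 0)) 0).1 (by rwa [s_zero])
      exact a3
  rintro _ ⟨y', m, rfl⟩
  exact (C.iff_Lift k g y' m).2 (hZ.symm ▸ mem_univ y'.1 :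
    y'.1 ∈ (fun x : D.X => tr g (C.S^[k] (x, 0))) ⁻¹' C.Wk k)

/-- The deck translations that preserve the inflated strands. -/
def grp_Lift {k : ℕ} (hc : IsClosed (C.Wk k)) : AddSubgroup (Lat d) where
  carrier := {g | ∀ y ∈ C.Wk k, tr g y ∈ C.Wk k}
  zero_mem' := fun y hy => by simpa [tr] using hy
  add_mem' := fun {g g'} h h' y hy => by
    have := h' _ (h y hy)
    simpa only [tr, add_assoc] using this
  neg_mem' := fun {g} h y hy =>
    C.key_Lift hc (h y hy) (by simpa only [tr, add_neg_cancel_right] using hy) y hy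

theorem wd_Lift {k : ℕ} (hc : IsClosed (C.Wk k)) {y y' : D.X × Lat d} {α α' : ℝ}
    (h : y ∈ C.Wk k) (h' : y' ∈ C.Wk k) (ht : C.til y α = C.til y' α') :
    ∃ g ∈ C.grp_Lift hc, C.L.Ψ (α, C.z y) = C.L.Ψ (α', C.z y') + toR g := by
  obtain ⟨m, h1, h2⟩ := θ_eq C.ℓ_pos ht
  have h3 : y.1 = (C.s m y').1 := Subtype.ext h1
  have e1 : y = tr (y.2 - (C.s m y').2) (C.s m y') := Prod.ext h3 (by simp [tr])
  refine ⟨y.2 - (C.s m y').2, C.key_Lift hc (Wk_s h' m) (e1 ▸ h), ?_⟩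
  have a1 := congrArg C.p e1
  have a2 := congrArg C.z e1
  rw [p_tr, p_s] at a1
  rw [z_tr, z_s] at a2
  rw [← C.Ψ_ab, ← map_add, Prod.mk_add_mk, ← a2]
  congr 2
  linarith

omit [DiscreteTopology A] in
theorem rep_Lift (k : ℕ) {l₁ : ℝ} (hl : ∀ a, ℓ a ≤ l₁) {T : Patch A} (hT : T ∈ Om D ℓ) :
    ∃ x : D.X, ∃ s ∈ Icc 0 (c ^ k * l₁),
      T = C.til (C.S^[k] (x, 0)) (C.p (C.S^[k] (x, 0)) + s) := by
  obtain ⟨x, t, ht⟩ := C.exists_til hT
  obtain ⟨v, y, n, hy⟩ := C.exists_Wk k x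
  have c0 : 0 < c ^ k := pow_pos (by linarith [C.one_lt]) k
  obtain ⟨α, hα⟩ : ∃ α, T = C.til (C.S^[k] y) α := ⟨_, by rw [ht v, hy, til_s]⟩
  obtain ⟨m, -, a1, a2⟩ := C.exists_K y (α / c ^ k)
  generalize hw : C.s m y = w at a1 a2
  have a3 : T = C.til (C.S^[k] w) α := by rw [← hw, iter_s, til_s, hα]
  have e1 : w = tr w.2 (w.1, 0) := by simp [tr]
  have e2 : C.S^[k] w = tr (C.Bz^[k] w.2) (C.S^[k] (w.1, 0)) := by
    conv_lhs => rw [e1, iter_tr]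
  have e3 := C.p_iter k w
  rw [le_div_iff₀' c0] at a1
  rw [div_lt_iff₀' c0] at a2
  refine ⟨w.1, α - c ^ k * C.p w, ⟨by linarith, by nlinarith [hl (w.1.1 0)]⟩, ?_⟩
  rw [← C.til_tr (C.Bz^[k] w.2), ← e2, a3]
  rw [e2, p_tr] at e3
  congr 1
  linarith

theorem eigen_Lift {k : ℕ} (hc : IsClosed (C.Wk k)) (q : Fin d → ℝ)
    (hq : ∀ g ∈ C.grp_Lift hc, ∃ n : ℤ, q ⬝ᵥ toR g = n) : ∃ f, IsEigen (Om D ℓ) f ∧
      ∀ y ∈ C.Wk k, ∀ α, f (C.til y α) =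
        Complex.exp ((q ⬝ᵥ C.L.Ψ (α, C.z y) : ℝ) * (2 * Real.pi * Complex.I)) := by
  classical
  let F : (D.X × Lat d) × ℝ → ℂ := fun r =>
    Complex.exp ((q ⬝ᵥ C.L.Ψ (r.2, C.z r.1) : ℝ) * (2 * Real.pi * Complex.I))
  have cF : Continuous F := by
    have a1 := C.continuous_z
    have a2 := C.L.Ψ.continuous
    have a3 : Continuous fun r : (D.X × Lat d) × ℝ => C.L.Ψ (r.2, C.z r.1) := by fun_prop
    have a4 : Continuous fun r : (D.X × Lat d) × ℝ => q ⬝ᵥ C.L.Ψ (r.2, C.z r.1) :=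
      continuous_const.dotProduct a3
    exact Complex.continuous_exp.comp ((Complex.continuous_ofReal.comp a4).mul continuous_const)
  let f : Patch A → ℂ := fun T =>
    if h : ∃ r : (D.X × Lat d) × ℝ, r.1 ∈ C.Wk k ∧ C.til r.1 r.2 = T then F h.choose else 0
  have hf : ∀ y ∈ C.Wk k, ∀ α, f (C.til y α) = F (y, α) := fun y hy α => by
    have h : ∃ r : (D.X × Lat d) × ℝ, r.1 ∈ C.Wk k ∧ C.til r.1 r.2 = C.til y α :=
      ⟨(y, α), hy, rfl⟩
    obtain ⟨g, hg, a1⟩ := C.wd_Lift hc h.choose_spec.1 hy h.choose_spec.2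
    obtain ⟨n, hn⟩ := hq g hg
    simp only [f, dif_pos h, F]
    rw [a1, dotProduct_add, hn, Complex.exp_eq_exp_iff_exists_int]
    exact ⟨n, by push_cast; ring⟩
  obtain ⟨-, l₁, -, -, hl⟩ := C.len_bounds
  refine ⟨f, ⟨continuousOn_iff_isClosed.2 fun t ht => ?_, -(q ⬝ᵥ C.L.Ψ (1, 0)),
    fun T hT t => ?_⟩, hf⟩
  · let Q : D.X × ℝ → (D.X × Lat d) × ℝ := fun r =>
      (C.S^[k] (r.1, 0), C.p (C.S^[k] (r.1, 0)) + r.2)
    have cQ : Continuous Q := by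
      have a1 := C.continuous_S.iterate k
      have a2 := C.continuous_p
      fun_prop
    refine ⟨(fun r => C.til (Q r).1 (Q r).2) '' (univ ×ˢ Icc 0 (c ^ k * l₁) ∩ (F ∘ Q) ⁻¹' t),
      isClosed_of_compact C.ℓ_pos (((isCompact_univ.prod isCompact_Icc).inter_right
        (ht.preimage (cF.comp cQ))).image (C.continuous_til.comp cQ))
        (by rintro _ ⟨r, -, rfl⟩; exact ⟨_, _, rfl⟩), ?_⟩
    ext T
    refine and_congr_left fun hT => ⟨fun h => ?_, ?_⟩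
    · obtain ⟨x, s, hs, rfl⟩ := C.rep_Lift k hl hT
      rw [mem_preimage, hf _ (iter_mem_Wk k _)] at h
      exact ⟨(x, s), ⟨⟨trivial, hs⟩, h⟩, rfl⟩
    · rintro ⟨r, ⟨-, h⟩, rfl⟩
      rw [mem_preimage, hf _ (iter_mem_Wk k _)]
      exact h
  · obtain ⟨x, s, -, rfl⟩ := C.rep_Lift k hl hT
    rw [translate_til, hf _ (iter_mem_Wk k _), hf _ (iter_mem_Wk k _)]
    simp only [F]
    generalize C.p (C.S^[k] (x, 0)) + s = α
    generalize C.z (C.S^[k] (x, 0)) = β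
    rw [show (α - t, β) = (α, β) - t • ((1 : ℝ), (0 : Fin e → ℝ)) by simp, map_sub, map_smul,
      dotProduct_sub, dotProduct_smul, ← Complex.exp_add]
    congr 1
    simp only [smul_eq_mul]
    push_cast
    ring

end Cover

end

theorem lift_s (h : ClS) : LiftS := by
  intro A _ _ _ _ D ℓ c σ d e C k y α hy T hT
  have hc := h A D ℓ c σ d e C k
  obtain ⟨x, t, ht⟩ := C.exists_til hT.1
  obtain ⟨v, hv⟩ := C.exists_Wk k x
  obtain ⟨y₂, h₂, α₂, rfl⟩ : ∃ y₂ ∈ C.Wk k, ∃ α₂, T = C.til y₂ α₂ := ⟨_, hv, _, ht v⟩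
  obtain ⟨g, hg, a1⟩ := dual_Lift (C.grp_Lift hc) (C.L.Ψ (α₂, C.z y₂) - C.L.Ψ (α, C.z y))
    fun q hq => by
      obtain ⟨f, f1, f2⟩ := C.eigen_Lift hc q hq
      have a2 := hT.2 f f1
      rw [f2 _ h₂, f2 _ hy, Complex.exp_eq_exp_iff_exists_int] at a2
      obtain ⟨n, hn⟩ := a2
      refine ⟨n, ?_⟩
      rw [← add_mul] at hn
      have a3 := mul_right_cancel₀ Complex.two_pi_I_ne_zero hn
      rw [dotProduct_sub, sub_eq_iff_eq_add']
      exact_mod_cast a3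
  rw [← map_sub, ← C.Ψ_ab] at a1
  have a2 := C.L.Ψ.injective a1
  rw [Prod.mk_sub_mk, Prod.mk.injEq] at a2
  refine ⟨Cover.tr (-g) y₂, (C.grp_Lift hc).neg_mem hg y₂ h₂, ?_, ?_⟩
  · rw [C.z_tr, map_neg, ← a2.2]
    abel
  · rw [← C.til_tr (-g) y₂, map_neg, ← a2.1]
    congr 1
    ring

/-- The character of the line with frequency `γ`. -/
noncomputable def ex_Eig (γ t : ℝ) : ℂ := Complex.exp (2 * Real.pi * Complex.I * γ * t)

lemma ex_add_Eig (γ s t : ℝ) : ex_Eig γ (s + t) = ex_Eig γ s * ex_Eig γ t := by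
  unfold ex_Eig
  rw [← Complex.exp_add]
  congr 1
  push_cast
  ring

lemma ex_norm_Eig (γ t : ℝ) : ‖ex_Eig γ t‖ = 1 := by
  unfold ex_Eig
  rw [show 2 * Real.pi * Complex.I * γ * t = ((2 * Real.pi * γ * t : ℝ) : ℂ) * Complex.I by
    push_cast; ring, Complex.norm_exp_ofReal_mul_I]

lemma ex_sub_Eig (γ t : ℝ) (a b : ℂ) : ‖ex_Eig γ t * a - ex_Eig γ t * b‖ = ‖a - b‖ := by
  rw [← mul_sub, norm_mul, ex_norm_Eig, one_mul]

lemma lim_Eig {K : Set ℂ} (hK : IsCompact K) (U : Ultrafilter ℕ) {u : ℕ → ℂ} (h : ∀ k, u k ∈ K) :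
    ∃ a, Tendsto u U (𝓝 a) := by
  obtain ⟨a, -, ha⟩ := hK.ultrafilter_le_nhds (U.map u)
    (le_principal_iff.2 (mem_map.2 (univ_mem' h)))
  exact ⟨a, ha⟩

section

variable {A : Type} [Fintype A] [DecidableEq A] [TopologicalSpace A] {D : Shift A} {ℓ : A → ℝ}
  {c : ℝ} {σ : DSub D ℓ c} {d e : ℕ} (C : Cover σ d e) {f : Patch A → ℂ} {γ : ℝ}

lemma til_Eig (hf : ∀ T ∈ Om D ℓ, ∀ t : ℝ, f (translate t T) = ex_Eig γ t * f T)
    (y : D.X × Lat d) (α : ℝ) : f (C.til y α) = ex_Eig γ (-α) * f (C.til y 0) := by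
  rw [← hf _ (C.til_mem y 0), C.translate_til, zero_sub, neg_neg]

lemma tr_Eig (hf : ∀ T ∈ Om D ℓ, ∀ t : ℝ, f (translate t T) = ex_Eig γ t * f T)
    (k : ℕ) (v : Lat d) (y : D.X × Lat d) : f (C.til (C.S^[k] (Cover.tr v y)) 0)
      = ex_Eig γ (c ^ k * C.a v) * f (C.til (C.S^[k] y) 0) := by
  have h := C.til_tr (C.Bz^[k] v) (C.S^[k] y) (-C.a (C.Bz^[k] v))
  rw [neg_add_cancel] at h
  rw [C.iter_tr, h, til_Eig C hf, neg_neg, a_iter_Null]

lemma s_Eig (k : ℕ) (n : ℤ) (y : D.X × Lat d) :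
    C.til (C.S^[k] (C.s n y)) 0 = C.til (C.S^[k] y) 0 := by
  rw [C.iter_s, C.til_s]

lemma same_Eig {l₀ : ℝ} (h1 : ∀ a, l₀ ≤ ℓ a) (k : ℕ) {y y' : D.X × Lat d}
    (h : Cover.lab y = Cover.lab y') {a : A} {q : ℝ} (hq : |q| < c ^ k * l₀ / 2)
    (hm : (a, q) ∈ (C.til (C.S^[k] y) (c ^ k * (C.p y + ℓ (y.1.1 0) / 2))).tiles) :
    (a, q) ∈ (C.til (C.S^[k] y') (c ^ k * (C.p y + ℓ (y.1.1 0) / 2))).tiles := by
  obtain ⟨t, a1, a2, a3⟩ := C.mem_til.1 hm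
  have c0 : 0 < c ^ k := pow_pos (by linarith [C.one_lt]) k
  have a4 := mul_le_mul_of_nonneg_left (h1 (y.1.1 0)) c0.le
  obtain ⟨a5, a6⟩ := abs_lt.1 hq
  exact C.mem_til.2 ⟨t, C.on_loc h a1 (by linarith) (by linarith), a2, a3⟩

variable [DiscreteTopology A]

lemma loc_Eig (hc : ContinuousOn f (Om D ℓ))
    (hf : ∀ T ∈ Om D ℓ, ∀ t : ℝ, f (translate t T) = ex_Eig γ t * f T) {ε : ℝ} (hε : 0 < ε) :
    ∀ᶠ k in atTop, ∀ y y' : D.X × Lat d, Cover.lab y = Cover.lab y' →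
      ‖f (C.til (C.S^[k] y) 0) - f (C.til (C.S^[k] y') 0)‖ ≤ ε := by
  obtain ⟨l₀, -, h0, h1, -⟩ := C.len_bounds
  have a1 : ∀ T ∈ Om D ℓ, ∃ δ : ℝ, 0 < δ ∧ δ ≤ 1 ∧ ∀ T' ∈ Om D ℓ, Close δ T T' →
      ‖f T' - f T‖ < ε / 2 := fun T hT => by
    have a2 := Metric.tendsto_nhds.1 (hc T hT) (ε / 2) (half_pos hε)
    obtain ⟨δ, b1, b2⟩ := (nhds_basis T).mem_iff.1 (eventually_nhdsWithin_iff.1 a2)
    refine ⟨min δ 1, lt_min b1 one_pos, min_le_right _ _, fun T' hT' h => ?_⟩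
    rw [← dist_eq_norm]
    exact b2 (h.mono (lt_min b1 one_pos) (min_le_left _ _)) hT'
  choose! δ d0 d1 d2 using a1
  obtain ⟨F, hF, hcov⟩ := C.compact_Om.elim_nhds_subcover (fun T => {T' | Close (δ T / 2) T T'})
    fun T hT => (nhds_basis T).mem_of_mem (half_pos (d0 T hT))
  have a3 : Tendsto (fun k : ℕ => c ^ k * l₀ / 2) atTop atTop :=
    ((tendsto_pow_atTop_atTop_of_one_lt C.one_lt).atTop_mul_const h0).atTop_div_const two_pos
  filter_upwards [(eventually_all_finset F).2 fun T _ => a3.eventually_ge_atTop (δ T / 2)⁻¹]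
    with k hk y y' h
  rw [← ex_sub_Eig γ (-(c ^ k * (C.p y + ℓ (y.1.1 0) / 2))), ← til_Eig C hf, ← til_Eig C hf]
  obtain ⟨T, hT, b1⟩ := mem_iUnion₂.1 (hcov (C.til_mem (C.S^[k] y)
    (c ^ k * (C.p y + ℓ (y.1.1 0) / 2))))
  have e1 : C.p y = C.p y' := congrArg C.tm h
  have e2 : y.1.1 0 = y'.1.1 0 := congrArg Prod.fst h
  have b2 : Close (δ T / 2) (C.til (C.S^[k] y) (c ^ k * (C.p y + ℓ (y.1.1 0) / 2)))
      (C.til (C.S^[k] y') (c ^ k * (C.p y + ℓ (y.1.1 0) / 2))) := by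
    refine ⟨0, by simpa using d0 T (hF T hT), fun a q hq => ?_⟩
    rw [add_zero]
    refine ⟨same_Eig C h1 k h (hq.trans_le (hk T hT)), ?_⟩
    rw [e1, e2]
    exact same_Eig C h1 k h.symm (hq.trans_le (hk T hT))
  have b3 := d2 T (hF T hT) _ (C.til_mem _ _) (Close.trans (d0 T (hF T hT)) (d1 T (hF T hT)) b1 b2)
  have b4 := d2 T (hF T hT) _ (C.til_mem _ _)
    (Close.mono b1 (half_pos (d0 T (hF T hT))) (half_le_self (d0 T (hF T hT)).le))
  rw [norm_sub_rev] at b3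
  exact (norm_sub_le_norm_sub_add_norm_sub _ (f T) _).trans (by linarith)

lemma unif_Eig (hc : ContinuousOn f (Om D ℓ))
    (hf : ∀ T ∈ Om D ℓ, ∀ t : ℝ, f (translate t T) = ex_Eig γ t * f T) (U : Ultrafilter ℕ)
    (hU : ↑U ≤ (atTop : Filter ℕ)) :
    ∃ g₀, ∀ y, Tendsto (fun k => f (C.til (C.S^[k] y) 0)) U (𝓝 g₀) := by
  obtain ⟨R, hR⟩ := C.compact_Om.exists_bound_of_continuousOn hc
  choose xa hxa using C.occ
  choose g hg using fun a => lim_Eig (isCompact_closedBall (0 : ℂ) R) U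
    (u := fun k => f (C.til (C.S^[k] (xa a, 0)) 0))
    fun k => mem_closedBall_zero_iff.2 (hR _ (C.til_mem _ _))
  choose χ hχ using fun v : Lat d => lim_Eig (isCompact_closedBall (0 : ℂ) 1) U
    (u := fun k => ex_Eig γ (c ^ k * C.a v))
    fun k => mem_closedBall_zero_iff.2 (ex_norm_Eig _ _).le
  have χadd : ∀ v w, χ (v + w) = χ v * χ w := fun v w =>
    tendsto_nhds_unique (hχ (v + w)) (((hχ v).mul (hχ w)).congr fun k => by
      rw [map_add, mul_add, ex_add_Eig])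
  have χ0 : χ 0 = 1 := tendsto_nhds_unique (hχ 0) (tendsto_const_nhds.congr fun k => by
    simp [ex_Eig])
  have L0 : ∀ x : D.X, Tendsto (fun k => f (C.til (C.S^[k] (x, 0)) 0)) U (𝓝 (g (x.1 0))) :=
    fun x => (hg (x.1 0)).congr_dist (Metric.tendsto_nhds.2 fun ε hε => by
      filter_upwards [hU (loc_Eig C hc hf (half_pos hε))] with k hk
      rw [dist_zero_right, Real.norm_of_nonneg dist_nonneg, dist_eq_norm]
      exact (hk _ _ (by simp [Cover.lab, hxa])).trans_lt (half_lt_self hε))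
  have L : ∀ y : D.X × Lat d,
      Tendsto (fun k => f (C.til (C.S^[k] y) 0)) U (𝓝 (χ y.2 * g (y.1.1 0))) := fun y =>
    ((hχ y.2).mul (L0 y.1)).congr fun k => by
      rw [← tr_Eig C hf]
      simp [Cover.tr]
  have I : ∀ (x : D.X) (n : ℤ), χ (bs (fun x => C.δ (x.1 0)) x n) * g (x.1 n) = g (x.1 0) :=
    fun x n => by
      have a1 := L (C.s n (x, 0))
      simp only [s_Eig, C.s_letter] at a1
      have a2 := tendsto_nhds_unique a1 (L0 x)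
      simpa [Cover.s] using a2
  obtain ⟨h, h1, -⟩ := C.univ ℂ g (fun a => χ (-C.δ a) * g a) fun x => by
    rw [← I x 1, bs_one, ← mul_assoc, ← χadd, neg_add_cancel, χ0, one_mul]
  obtain ⟨x₀, hx₀⟩ := C.base
  have g0 : ∀ a, g a = g (x₀.1 0) := fun a => by
    obtain ⟨n, a1, a2⟩ := hx₀ a
    rw [← I x₀ n, a2, χ0, one_mul, ← h1, ← h1, a1]
  have hv : ∀ v, χ v * g (x₀.1 0) = g (x₀.1 0) := fun v => by
    have a1 : v ∈ AddSubgroup.closure (range C.δ) := C.span_δ ▸ AddSubgroup.mem_top v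
    induction a1 using AddSubgroup.closure_induction with
    | mem v hv =>
      obtain ⟨a, rfl⟩ := hv
      have a2 := I (xa a) 1
      rwa [bs_one, hxa, g0, g0 a] at a2
    | zero => rw [χ0, one_mul]
    | add v w _ _ a2 a3 => rw [χadd, mul_assoc, a3, a2]
    | neg v _ a2 =>
      conv_lhs => rw [← a2]
      rw [← mul_assoc, ← χadd, neg_add_cancel, χ0, one_mul]
  refine ⟨g (x₀.1 0), fun y => ?_⟩
  have a1 := L y
  rwa [g0, hv] at a1

end

theorem eig_s : EigS := by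
  intro A _ _ _ _ D ℓ c σ d e C f ⟨hc, γ, hf⟩ ε hε
  replace hf : ∀ T ∈ Om D ℓ, ∀ t : ℝ, f (translate t T) = ex_Eig γ t * f T := hf
  refine mem_iff_ultrafilter.2 fun U hU => ?_
  obtain ⟨g₀, hg⟩ := unif_Eig C hc hf U hU
  obtain ⟨-, l₁, -, -, hl⟩ := C.len_bounds
  obtain ⟨R₁, h1⟩ := isCompact_univ.exists_bound_of_continuousOn
    (f := fun x : D.X => C.p (x, 0)) (C.continuous_p.comp (by fun_prop)).continuousOn
  obtain ⟨R₂, h2⟩ := isCompact_univ.exists_bound_of_continuousOn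
    (f := fun x : D.X => C.z (x, 0)) (C.continuous_z.comp (by fun_prop)).continuousOn
  obtain ⟨V, hV, hb⟩ := C.K_box (|R₁| + |l₁| + |R₂|)
  choose Y hY using C.exists_lab
  have hε4 : 0 < ε / 4 := by linarith
  have ev : ∀ᶠ k in (U : Filter ℕ), ∀ t ∈ (univ : Set A) ×ˢ V,
      dist (f (C.til (C.S^[k] (Y t)) 0)) g₀ < ε / 4 :=
    (eventually_all_finite ((finite_univ (α := A)).prod hV)).2 fun t _ =>
      Metric.tendsto_nhds.1 (hg (Y t)) _ hε4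
  change ∀ᶠ k in (U : Filter ℕ), _
  filter_upwards [ev, hU (loc_Eig C hc hf hε4)] with k k1 k2 y y' α hz
  have near : ∀ u : D.X × Lat d, u.2 ∈ V → ‖f (C.til (C.S^[k] u) 0) - g₀‖ ≤ ε / 2 := fun u hu => by
    have a1 := k1 (Cover.lab u) ⟨trivial, hu⟩
    have a2 := k2 u _ (hY (Cover.lab u)).symm
    rw [dist_eq_norm] at a1
    exact (norm_sub_le_norm_sub_add_norm_sub _ (f (C.til (C.S^[k] (Y (Cover.lab u))) 0)) _).trans
      (by linarith)
  obtain ⟨n, hn⟩ := C.exists_K y' (C.p y)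
  have e1 : Cover.tr (-y.2) y = (y.1, 0) := by simp [Cover.tr]
  obtain ⟨b1, b2, b3⟩ := C.tr_mem_K hn (-y.2)
  rw [← hz, ← C.z_tr, e1] at b1
  rw [← C.p_tr, e1] at b2 b3
  have b4 := abs_le.1 ((h1 y.1 trivial).trans (le_abs_self R₁))
  have b5 := (h2 y.1 trivial).trans (le_abs_self R₂)
  have n1 := near (y.1, 0) (hb _ (abs_le.2 ⟨by linarith [abs_nonneg l₁, abs_nonneg R₂],
    by linarith [abs_nonneg l₁, abs_nonneg R₂]⟩) (by linarith [abs_nonneg l₁, abs_nonneg R₁]))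
  have n2 := near (Cover.tr (-y.2) (C.s n y')) (hb _ (abs_le.2
    ⟨by linarith [le_abs_self l₁, abs_nonneg R₂, hl ((Cover.tr (-y.2) (C.s n y')).1.1 0)],
    by linarith [abs_nonneg l₁, abs_nonneg R₂]⟩)
    (by rw [b1]; linarith [abs_nonneg l₁, abs_nonneg R₁]))
  rw [til_Eig C hf, til_Eig C hf _ α, ex_sub_Eig, ← s_Eig C k n y',
    ← ex_sub_Eig γ (c ^ k * C.a (-y.2)), ← tr_Eig C hf, ← tr_Eig C hf, e1]
  rw [norm_sub_rev] at n2
  exact (norm_sub_le_norm_sub_add_norm_sub _ g₀ _).trans (by linarith)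

theorem low_s (h : EigS) : LowS := by
  intro A _ _ _ _ D ℓ c σ d e C r hst T hT
  have hE := h A D ℓ c σ d e C
  obtain ⟨x, t, hx⟩ := C.exists_til hT
  obtain ⟨_, l₁, -, -, hl⟩ := C.len_bounds
  have key : ∀ k : ℕ, ∃ (w : Fin r → D.X × Lat d) (u : Fin r → D.X × Lat d) (y : D.X × Lat d)
      (α : ℝ), (∀ i, w i ∈ C.K (C.p (x, 0) + t) (C.z (x, 0))) ∧
      (∀ i j, i ≠ j → C.NC (w i) (w j)) ∧ (∀ i, C.z (u i) = C.z y) ∧
      (∀ i, C.til (w i) (C.p (x, 0) + t) = C.til (C.S^[k] (u i)) α) ∧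
      T = C.til (C.S^[k] y) α := fun k => by
    obtain ⟨v, y, n, hy⟩ := C.exists_Wk k x
    obtain ⟨u, hu⟩ := hst (C.z y)
    have e1 : ((x, v) : D.X × Lat d) = Cover.tr v (x, 0) := by simp [Cover.tr]
    have e2 : ∀ i, C.z (Cover.tr (-v) (C.S^[k] (u i))) = C.z (x, 0) := fun i => by
      have a1 := congrArg C.z hy
      rw [C.z_s, C.z_iter, e1, C.z_tr] at a1
      rw [C.z_tr, C.z_iter, hu.1, ← a1, map_neg, add_neg_cancel_right]
    choose m hm using fun i => C.exists_K (Cover.tr (-v) (C.S^[k] (u i))) (C.p (x, 0) + t)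
    refine ⟨fun i => C.s (m i) (Cover.tr (-v) (C.S^[k] (u i))), u, y, C.p (x, 0) + t + C.a v,
      fun i => e2 i ▸ hm i, fun i j hij => (((hu.2 i j hij).iter k).tr (-v)).s _ _, hu.1,
      fun i => ?_, ?_⟩
    · rw [C.til_s, ← C.til_tr (-v) (C.S^[k] (u i)), map_neg, add_neg_cancel_right]
    · rw [← C.til_s n, ← hy, hx v]
      congr 1
      rw [e1, C.p_tr]
      ring
  choose Y u y α h1 h2 h3 h4 h5 using key
  obtain ⟨V, hV, hb⟩ := C.K_box (|C.p (x, 0) + t| + |l₁| + ‖C.z (x, 0)‖)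
  have hK : IsCompact (univ.pi fun _ : Fin r => (univ : Set D.X) ×ˢ V) :=
    isCompact_univ_pi fun _ => isCompact_univ.prod hV.isCompact
  obtain ⟨w, -, φ, hφ, hw⟩ := hK.tendsto_subseq (x := Y) fun N i _ => by
    obtain ⟨a1, a2, a3⟩ := h1 N i
    refine ⟨trivial, hb _ (abs_le.2 ⟨?_, ?_⟩) ?_⟩
    · linarith [neg_abs_le (C.p (x, 0) + t), le_abs_self l₁, hl ((Y N i).1.1 0),
        norm_nonneg (C.z (x, 0))]
    · linarith [le_abs_self (C.p (x, 0) + t), abs_nonneg l₁, norm_nonneg (C.z (x, 0))]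
    · rw [a1]
      linarith [abs_nonneg (C.p (x, 0) + t), abs_nonneg l₁]
  have hinj : Function.Injective fun i => C.til (w i) (C.p (x, 0) + t) := fun i j hij => by
    by_contra hne
    obtain ⟨n, hn⟩ := C.eq_of_til hij
    have ev : ∀ i m t', Cover.lab (C.s m (w i)) = t' →
        ∀ᶠ n in atTop, C.On (Y (φ n) i) t' := fun i m t' h => by
      have := ((Cover.continuous_lab.comp ((C.continuous_s m).comp
        (continuous_apply i))).tendsto w).comp hw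
      rw [nhds_discrete, tendsto_pure] at this
      exact this.mono fun n hn => ⟨m, hn.trans h⟩
    obtain ⟨N, a1, a2⟩ := ((ev i 0 (Cover.lab (w i)) (by rw [C.s_zero])).and
      (ev j n (Cover.lab (w i)) (by rw [hn]))).exists
    exact h2 (φ N) i j hne 0 _ a1 a2
  have hsub : range (fun i => C.til (w i) (C.p (x, 0) + t)) ⊆ fibre (Om D ℓ) T := by
    rintro _ ⟨i, rfl⟩
    refine ⟨C.til_mem _ _, fun f hf => ?_⟩
    have a1 : Tendsto (fun n => C.til (Y (φ n) i) (C.p (x, 0) + t)) atTop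
        (𝓝[Om D ℓ] C.til (w i) (C.p (x, 0) + t)) :=
      tendsto_nhdsWithin_iff.2 ⟨(C.continuous_til.tendsto (w i, C.p (x, 0) + t)).comp
        ((((continuous_apply i).tendsto w).comp hw).prodMk_nhds tendsto_const_nhds),
        .of_forall fun n => C.til_mem _ _⟩
    refine tendsto_nhds_unique ((hf.1 _ (C.til_mem _ _)).tendsto.comp a1) ?_
    refine Metric.tendsto_nhds.2 fun ε hε => ?_
    filter_upwards [hφ.tendsto_atTop.eventually (hE f hf (ε / 2) (half_pos hε))] with n hn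
    have a2 := hn _ _ (α (φ n)) (h3 (φ n) i)
    rw [← h4, ← h5] at a2
    rw [dist_eq_norm]
    exact a2.trans_lt (half_lt_self hε)
  refine le_trans ?_ (encard_le_encard hsub)
  simpa using hinj.encard_range

section

variable {A : Type} [TopologicalSpace A] [Fintype A] [DecidableEq A] [DiscreteTopology A]
  {D : Shift A} {ℓ : A → ℝ} {c : ℝ} {σ : DSub D ℓ c} {d e : ℕ}

lemma lift_Up (h : LiftS) (C : Cover σ d e) {j k : ℕ} {y : D.X × Lat d} (hy : y ∈ C.Wk j) (α : ℝ)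
    {T : Patch A} (hT : T ∈ fibre (Om D ℓ) (C.til (C.S^[k] y) (c ^ k * α))) :
    ∃ u ∈ C.K α (C.z y) ∩ C.Wk j, T = C.til (C.S^[k] u) (c ^ k * α) := by
  obtain ⟨y', h1, h2, h3⟩ := h A D ℓ c σ d e C (k + j) _ _ (Cover.Wk_iter hy k) T hT
  obtain ⟨u, hu, n, rfl⟩ := Cover.Wk_add h1
  rw [C.z_s, C.z_iter, C.z_iter] at h2
  obtain ⟨m, hm⟩ := C.exists_K u α
  rw [C.L.B'.injective.iterate k h2] at hm
  exact ⟨_, ⟨hm, Cover.Wk_s hu m⟩, by rw [h3, C.iter_s, C.til_s, C.til_s]⟩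

omit [DiscreteTopology A] in
lemma loc_Up (C : Cover σ d e) {k : ℕ} {u u' : D.X × Lat d} (h : Cover.lab u = Cover.lab u')
    {α ρ q : ℝ} (h1 : C.tm (Cover.lab u) + ρ ≤ α)
    (h2 : α + ρ ≤ C.tm (Cover.lab u) + ℓ (Cover.lab u).1) (hq : |q| < c ^ k * ρ) {a : A}
    (ha : (a, q) ∈ (C.til (C.S^[k] u) (c ^ k * α)).tiles) :
    (a, q) ∈ (C.til (C.S^[k] u') (c ^ k * α)).tiles := by
  obtain ⟨t, t1, t2, t3⟩ := C.mem_til.1 ha
  have hc : 0 < c ^ k := pow_pos (by linarith [C.one_lt]) k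
  have d1 : c ^ k * (C.p u + ρ) ≤ c ^ k * α := mul_le_mul_of_nonneg_left h1 hc.le
  have d2 : c ^ k * (α + ρ) ≤ c ^ k * (C.p u + ℓ (u.1.1 0)) := mul_le_mul_of_nonneg_left h2 hc.le
  rw [mul_add] at d1 d2
  obtain ⟨q1, q2⟩ := abs_lt.1 hq
  exact C.mem_til.2 ⟨t, C.on_loc h t1 (by linarith) (by linarith), t2, t3⟩

lemma pair_Up (h : LiftS) (C : Cover σ d e) (Q : C.Box) {η : ℝ} (hη : η < Q.ρ) {T : Patch A}
    {k : ℕ} (hT : T ∈ Q.U k η) {F : Set (Patch A)} (hF : F ⊆ fibre (Om D ℓ) T)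
    (hm : (Q.m : ℕ∞) < F.encard) : ∃ T₁ ∈ F, ∃ T₂ ∈ F, T₁ ≠ T₂ ∧
      ∀ a q, |q| < c ^ k * Q.ρ → ((a, q) ∈ T₁.tiles ↔ (a, q) ∈ T₂.tiles) := by
  obtain ⟨y, hy, α, rfl, h1, h2⟩ := hT
  have h3 : ∀ T', ∃ u, T' ∈ F → u ∈ C.K α (C.z y) ∩ C.Wk Q.k ∧
      T' = C.til (C.S^[k] u) (c ^ k * α) := fun T' => by
    by_cases hT' : T' ∈ F
    · obtain ⟨u, hu⟩ := lift_Up h C hy α (hF hT')
      exact ⟨u, fun _ => hu⟩
    · exact ⟨y, fun x => absurd x hT'⟩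
  choose u hu using h3
  have h4 : MapsTo (fun T' => Cover.lab (u T')) F (C.LabW Q.k Q.α Q.β) := fun T' hT' => by
    rw [← Q.const α (C.z y) (h1.trans_lt hη) (h2.trans_lt hη)]
    exact ⟨_, (hu T' hT').1, rfl⟩
  rw [Cover.Box.m, (C.finite_LabW _ _ _).cast_ncard_eq] at hm
  obtain ⟨T₁, a1, T₂, a2, a3, a4⟩ := exists_ne_map_eq_of_encard_lt_of_maps_to hm h4
  obtain ⟨b1, b2⟩ := abs_lt.1 (h1.trans_lt hη)
  obtain ⟨c1, c2⟩ := Q.inner _ (h4 a1)
  obtain ⟨c3, c4⟩ := Q.inner _ (h4 a2)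
  refine ⟨T₁, a1, T₂, a2, a3, fun a q hq => ?_⟩
  rw [(hu T₁ a1).2, (hu T₂ a2).2]
  exact ⟨loc_Up C a4 (by linarith) (by linarith) hq,
    loc_Up C a4.symm (by linarith) (by linarith) hq⟩

end

theorem up_s (h : LiftS) : UpS := by
  intro A _ _ _ _ D ℓ c σ d e C Q η hη T hT
  by_contra h1
  obtain ⟨F, hF, h2⟩ := exists_subset_encard_eq
    (show ((Q.m + 1 : ℕ) : ℕ∞) ≤ _ from Order.add_one_le_of_lt (not_le.1 h1))
  have hfin : F.Finite := finite_of_encard_eq_coe h2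
  have h3 : ∀ᶠ k : ℕ in atTop, ∀ T₁ ∈ F, ∀ T₂ ∈ F, T₁ ≠ T₂ →
      ¬ ∀ a q, |q| < c ^ k * Q.ρ → ((a, q) ∈ T₁.tiles ↔ (a, q) ∈ T₂.tiles) := by
    refine (eventually_all_finite hfin).2 fun T₁ _ => (eventually_all_finite hfin).2 fun T₂ _ => ?_
    by_cases h4 : T₁ = T₂
    · exact .of_forall fun _ x => absurd h4 x
    · obtain ⟨a, h5⟩ := not_forall.1 fun x => h4 (Patch.ext' x)
      obtain ⟨q, h6⟩ := not_forall.1 h5
      filter_upwards [((tendsto_pow_atTop_atTop_of_one_lt C.one_lt).atTop_mul_const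
        Q.ρ_pos).eventually_gt_atTop |q|] with k hk _ x using h6 (x a q hk)
  obtain ⟨k, h4, h5⟩ := (hT.and_eventually h3).exists
  obtain ⟨T₁, a1, T₂, a2, a3, a4⟩ := pair_Up h C Q hη h4 hF (by
    rw [h2]
    exact_mod_cast Nat.lt_succ_self _)
  exact h5 T₁ a1 T₂ a2 a3 a4

theorem gen_Ae {X : Type} [MeasurableSpace X] (μ : Measure X) [IsFiniteMeasure μ] {B : Set X}
    (hB : MeasurableSet B) {U : ℕ → Set X} (hU : ∀ k, MeasurableSet (U k)) (F : Finset ℝ)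
    (f : ℕ → ℝ → X → X) (hf : ∀ k s, MeasurePreserving (f k s) μ μ)
    (hcov : ∀ k, ∀ᵐ T ∂μ, T ∈ B → ∃ s ∈ F, f k s T ∈ B ∩ U k)
    (hB' : ∀ T ∈ B, ∀ᶠ k in atTop, T ∉ U k) : μ B = 0 := by
  have h1 : ∀ k, μ B ≤ F.card * μ (B ∩ U k) := fun k => by
    calc μ B ≤ μ (⋃ s ∈ F, f k s ⁻¹' (B ∩ U k)) := by
          refine measure_mono_ae ((hcov k).mono fun T hT hb => ?_)
          obtain ⟨s, hs, h⟩ := hT hb
          exact mem_biUnion hs h
      _ ≤ ∑ s ∈ F, μ (f k s ⁻¹' (B ∩ U k)) := measure_biUnion_finset_le _ _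
      _ = ∑ s ∈ F, μ (B ∩ U k) := Finset.sum_congr rfl fun s _ =>
          (hf k s).measure_preimage (hB.inter (hU k)).nullMeasurableSet
      _ = F.card * μ (B ∩ U k) := by simp
  have h2 : Tendsto (fun k => μ (B ∩ U k)) atTop (𝓝 (μ ∅)) := by
    refine tendsto_measure_of_tendsto_indicator_of_isFiniteMeasure atTop μ
      (fun k => hB.inter (hU k)) fun T => ?_
    by_cases hT : T ∈ B
    · exact (hB' T hT).mono fun k hk => by simp [hk]
    · exact Eventually.of_forall fun k => by simp [hT]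
  rw [measure_empty] at h2
  have h3 := ENNReal.Tendsto.const_mul (a := (F.card : ENNReal)) h2
    (Or.inr (ENNReal.natCast_ne_top _))
  rw [mul_zero] at h3
  exact le_antisymm (ge_of_tendsto' h3 h1) bot_le

section

variable {A : Type} [Fintype A] [DecidableEq A] [TopologicalSpace A] {D : Shift A} {ℓ : A → ℝ}
  {c : ℝ} {σ : DSub D ℓ c} {d e : ℕ} {C : Cover σ d e}

theorem shift_Ae (Q : C.Box) {k : ℕ} {η η' t : ℝ} {T : Patch A} (h : T ∈ Q.U k η)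
    (ht : |t| ≤ c ^ k * (η' - η)) : translate t T ∈ Q.U k η' := by
  obtain ⟨y, hy, α, rfl, h1, h2⟩ := h
  have c0 : 0 < c ^ k := pow_pos (by linarith [C.one_lt]) k
  have h3 : |t / c ^ k| ≤ η' - η := by
    rw [abs_div, abs_of_pos c0, div_le_iff₀' c0]
    exact ht
  have h4 : η ≤ η' := by linarith [abs_nonneg (t / c ^ k)]
  refine ⟨y, hy, α - t / c ^ k, ?_, ?_, h2.trans h4⟩
  · rw [Cover.translate_til, mul_sub, mul_div_cancel₀ _ c0.ne']
  · rw [sub_right_comm]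
    linarith [abs_sub (α - Q.α) (t / c ^ k)]

theorem mono_Ae (Q : C.Box) {k : ℕ} {η η' : ℝ} {T : Patch A} (h : T ∈ Q.U k η) (h' : η ≤ η') :
    T ∈ Q.U k η' := by
  obtain ⟨y, hy, α, e1, h1, h2⟩ := h
  exact ⟨y, hy, α, e1, h1.trans h', h2.trans h'⟩

theorem inv_Ae (Q : C.Box) {T : Patch A} (h : ∃ η < Q.ρ, ∃ᶠ k in atTop, T ∈ Q.U k η) (t : ℝ) :
    ∃ η < Q.ρ, ∃ᶠ k in atTop, translate t T ∈ Q.U k η := by
  obtain ⟨η, h1, h2⟩ := h
  have h3 : ∀ᶠ k : ℕ in atTop, |t| ≤ c ^ k * ((η + Q.ρ) / 2 - η) :=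
    ((tendsto_pow_atTop_atTop_of_one_lt C.one_lt).atTop_mul_const
      (by linarith)).eventually_ge_atTop _
  exact ⟨(η + Q.ρ) / 2, by linarith, (h2.and_eventually h3).mono fun k hk =>
    shift_Ae Q hk.1 hk.2⟩

theorem cov_Ae (Q : C.Box) : ∃ F : Finset ℝ, ∀ k, ∀ T ∈ Om D ℓ, ∃ s ∈ F,
    translate (c ^ k * s) T ∈ Q.U k (Q.ρ / 2) := by
  have hρ : 0 < Q.ρ / 2 := half_pos Q.ρ_pos
  obtain ⟨L, hL⟩ := C.recK Q.k _ hρ
  obtain ⟨F, -, hF, hc⟩ := finite_cover_balls_of_compact (isCompact_Icc (a := -L) (b := L)) hρ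
  refine ⟨hF.toFinset, fun k T hT => ?_⟩
  have c0 : 0 < c ^ k := pow_pos (by linarith [C.one_lt]) k
  obtain ⟨x, t, hx⟩ := C.exists_til hT
  obtain ⟨v, hv⟩ := C.exists_Wk (k + Q.k) x
  obtain ⟨y, hy, n, hn⟩ := Cover.Wk_add hv
  have e1 := hx v
  generalize C.p (x, v) + t = α₀ at e1
  rw [hn, Cover.til_s] at e1
  obtain ⟨w, w1, w2⟩ := hL (Q.α - α₀ / c ^ k) (Q.β - C.z y)
  obtain ⟨s, hs, hs'⟩ := mem_iUnion₂.1 (hc (abs_le.1 w1))
  refine ⟨s, hF.mem_toFinset.2 hs, Cover.tr (C.Bz^[Q.k] w) y, Cover.Wk_tr hy w,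
    α₀ / c ^ k + C.a (C.Bz^[Q.k] w) - s, ?_, ?_, ?_⟩
  · rw [e1, ← C.til_tr (C.Bz^[k] (C.Bz^[Q.k] w)), Cover.translate_til, Cover.iter_tr,
      a_iter_Null C k, mul_sub, mul_add, mul_div_cancel₀ _ c0.ne']
  · rw [Metric.mem_ball, Real.dist_eq] at hs'
    refine le_of_eq_of_le ?_ hs'.le
    congr 1
    ring
  · refine le_of_eq_of_le ?_ w2.le
    rw [Cover.z_tr]
    congr 1
    abel

theorem closed_Ae [DiscreteTopology A] (Q : C.Box) (h : IsClosed (C.Wk Q.k)) (k : ℕ) (η : ℝ) :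
    IsClosed (Q.U k η) := by
  obtain ⟨l₀, l₁, h0, h1, h2⟩ := C.len_bounds
  obtain ⟨V, hV, hb⟩ := C.K_box (|Q.α| + |η| + |l₁| + ‖Q.β‖)
  have hz := C.continuous_z
  have hK : IsCompact (((univ ×ˢ V) ×ˢ Metric.closedBall Q.α η) ∩
      {q : (D.X × Lat d) × ℝ | q.1 ∈ C.Wk Q.k ∧ ‖C.z q.1 - Q.β‖ ≤ η}) :=
    ((isCompact_univ.prod hV.isCompact).prod (isCompact_closedBall _ _)).inter_right
      ((h.preimage continuous_fst).inter
        (isClosed_le ((hz.comp continuous_fst).sub continuous_const).norm continuous_const))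
  have hc : Continuous fun q : (D.X × Lat d) × ℝ => C.til (C.S^[k] q.1) (c ^ k * q.2) :=
    C.continuous_til.comp (f := fun q : (D.X × Lat d) × ℝ => (C.S^[k] q.1, c ^ k * q.2))
      (((C.continuous_S.iterate k).comp continuous_fst).prodMk (by fun_prop))
  have e1 : Q.U k η = (fun q : (D.X × Lat d) × ℝ => C.til (C.S^[k] q.1) (c ^ k * q.2)) ''
      (((univ ×ˢ V) ×ˢ Metric.closedBall Q.α η) ∩
        {q : (D.X × Lat d) × ℝ | q.1 ∈ C.Wk Q.k ∧ ‖C.z q.1 - Q.β‖ ≤ η}) := by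
    refine subset_antisymm ?_ ?_
    · rintro _ ⟨y, hy, α, rfl, a1, a2⟩
      obtain ⟨n, -, a3, a4⟩ := C.exists_K y α
      refine ⟨(C.s n y, α), ⟨⟨⟨trivial, hb _ ?_ ?_⟩, ?_⟩, Cover.Wk_s hy n, ?_⟩, ?_⟩
      · have := h2 ((C.s n y).1.1 0)
        have := abs_le.1 a1
        refine abs_le.2 ⟨?_, ?_⟩
        · linarith [neg_abs_le Q.α, le_abs_self η, le_abs_self l₁, norm_nonneg Q.β]
        · linarith [le_abs_self Q.α, le_abs_self η, abs_nonneg l₁, norm_nonneg Q.β]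
      · rw [Cover.z_s]
        linarith [norm_sub_norm_le (C.z y) Q.β, abs_nonneg Q.α, le_abs_self η, abs_nonneg l₁]
      · exact a1
      · simpa using a2
      · simp only [Cover.iter_s, Cover.til_s]
    · rintro _ ⟨⟨y, α⟩, ⟨⟨-, a1⟩, a2, a3⟩, rfl⟩
      exact ⟨y, a2, α, rfl, a1, a3⟩
  refine isClosed_of_compact C.ℓ_pos (e1 ▸ hK.image hc) ?_
  rintro _ ⟨y, -, α, rfl, -⟩
  exact ⟨_, _, rfl⟩

end

theorem ae_s (h : ClS) : AeS := by
  intro A _ _ _ _ D ℓ c σ d e C Q μ _ hμ hinv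
  have hU : ∀ k η, MeasurableSet (Q.U k η) := fun k η =>
    (closed_Ae Q (h A D ℓ c σ d e C Q.k) k η).measurableSet
  obtain ⟨F, hF⟩ := cov_Ae Q
  have e1 : {T | ∃ η < Q.ρ, ∃ᶠ k in atTop, T ∈ Q.U k η} =
      ⋃ n : ℕ, ⋂ k : ℕ, ⋃ k' : ℕ, ⋃ _ : k ≤ k', Q.U k' (Q.ρ - 1 / ((n : ℝ) + 1)) := by
    ext T
    simp only [mem_ofPred_eq, mem_iUnion, mem_iInter, frequently_atTop, exists_prop]
    constructor
    · rintro ⟨η, h1, h2⟩
      obtain ⟨n, hn⟩ := exists_nat_one_div_lt (sub_pos.2 h1)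
      refine ⟨n, fun k => ?_⟩
      obtain ⟨k', a1, a2⟩ := h2 k
      exact ⟨k', a1, mono_Ae Q a2 (by linarith)⟩
    · rintro ⟨n, hn⟩
      exact ⟨_, sub_lt_self _ Nat.one_div_pos_of_nat, hn⟩
  have hG : MeasurableSet {T | ∃ η < Q.ρ, ∃ᶠ k in atTop, T ∈ Q.U k η} := by
    rw [e1]
    exact MeasurableSet.iUnion fun n => MeasurableSet.iInter fun k => MeasurableSet.iUnion
      fun k' => MeasurableSet.iUnion fun _ => hU _ _
  refine gen_Ae μ hG.compl (fun k => hU k (Q.ρ / 2)) F (fun k s => translate (c ^ k * s))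
    (fun k s => hinv _) (fun k => ?_) (fun T hT => ?_)
  · refine (show ∀ᵐ T ∂μ, T ∈ Om D ℓ from hμ).mono fun T hT hb => ?_
    obtain ⟨s, hs, hs'⟩ := hF k T hT
    refine ⟨s, hs, fun hg => hb ?_, hs'⟩
    have := inv_Ae Q hg (-(c ^ k * s))
    rwa [translate_translate_Orbit, neg_add_cancel, translate_zero_Orbit] at this
  · exact not_frequently.1 fun hf => hT ⟨_, half_lt_self Q.ρ_pos, hf⟩

theorem ex_Ex {A : Type} [Fintype A] [DecidableEq A] [TopologicalSpace A] [DiscreteTopology A]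
    {D : Shift A} {ℓ : A → ℝ} {c : ℝ} {σ : DSub D ℓ c} {d e : ℕ} {C : Cover σ d e} (Q : C.Box)
    (h : IsClosed (C.Wk Q.k)) : ∃ T ∈ Om D ℓ, ∃ η < Q.ρ, ∃ᶠ k in atTop, T ∈ Q.U k η := by
  obtain ⟨F, hF⟩ := cov_Ae Q
  obtain ⟨R, hR⟩ := (F.finite_toSet.image fun s => |s|).bddAbove
  have hρ := Q.ρ_pos
  have c0 : ∀ k : ℕ, 0 < c ^ k := fun k => pow_pos (by linarith [C.one_lt]) k
  obtain ⟨g, ⟨g1, g2⟩, g3⟩ := ((((tendsto_pow_atTop_atTop_of_one_lt C.one_lt).eventually_ge_atTop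
    2).and (((tendsto_pow_atTop_atTop_of_one_lt C.one_lt).atTop_mul_const
      (show 0 < Q.ρ / 4 by linarith)).eventually_ge_atTop (2 * |R|))).and
    (eventually_ge_atTop 1)).exists
  have om : ∀ t, ∀ T ∈ Om D ℓ, translate t T ∈ Om D ℓ := by
    rintro t _ ⟨r, rfl⟩
    exact ⟨(r.1, r.2 - t), (translate_θ _ _ _).symm⟩
  have one : ∀ k, ∀ T ∈ Om D ℓ, ∃ t, |t| ≤ |R| * c ^ k ∧ translate t T ∈ Q.U k (Q.ρ / 2) :=
    fun k T hT => by
      obtain ⟨s, hs, h1⟩ := hF k T hT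
      refine ⟨_, ?_, h1⟩
      rw [abs_mul, abs_of_pos (c0 k), mul_comm]
      exact mul_le_mul_of_nonneg_right ((hR ⟨s, hs, rfl⟩).trans (le_abs_self R)) (c0 k).le
  have key : ∀ n, ∀ T ∈ Om D ℓ, ∃ t, |t| ≤ 2 * |R| * c ^ (g * n) ∧
      ∀ i ≤ n, translate t T ∈ Q.U (g * i) (3 * Q.ρ / 4) := fun n => by
    induction n with
    | zero =>
      intro T hT
      obtain ⟨t, h1, h2⟩ := one (g * 0) T hT
      refine ⟨t, h1.trans (mul_le_mul_of_nonneg_right (by linarith [abs_nonneg R]) (c0 _).le),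
        fun i hi => ?_⟩
      rw [Nat.le_zero.1 hi]
      exact mono_Ae Q h2 (by linarith)
    | succ n ih =>
      intro T hT
      obtain ⟨t, h1, h2⟩ := one (g * (n + 1)) T hT
      obtain ⟨t', h3, h4⟩ := ih _ (om t T hT)
      have e1 : c ^ (g * (n + 1)) = c ^ g * c ^ (g * n) := by rw [mul_add, mul_one, pow_add, mul_comm]
      have a1 := mul_le_mul_of_nonneg_right g2 (c0 (g * n)).le
      have a2 := mul_le_mul_of_nonneg_right g1 (mul_nonneg (abs_nonneg R) (c0 (g * n)).le)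
      refine ⟨t' + t, ?_, fun i hi => ?_⟩
      · rw [e1] at h1 ⊢
        linarith [abs_add_le t' t]
      · rw [← translate_translate_Orbit]
        rcases Nat.le_succ_iff.1 hi with h5 | rfl
        · exact h4 i h5
        · refine shift_Ae Q h2 ?_
          rw [Nat.succ_eq_add_one, e1]
          linarith
  have cl : ∀ n, IsClosed {T | ∀ i ≤ n, T ∈ Q.U (g * i) (3 * Q.ρ / 4)} := fun n => by
    simp only [ofPred_forall]
    exact isClosed_iInter fun i => isClosed_iInter fun _ => closed_Ae Q h _ _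
  obtain ⟨T, h1, h2⟩ := C.compact_Om.inter_iInter_nonempty
    (fun n => {T | ∀ i ≤ n, T ∈ Q.U (g * i) (3 * Q.ρ / 4)}) cl fun u => by
      obtain ⟨x⟩ : Nonempty D.X := inferInstance
      obtain ⟨t, -, h1⟩ := key (u.sup id) _ (C.til_mem (x, 0) 0)
      exact ⟨_, om t _ (C.til_mem (x, 0) 0), mem_iInter₂.2 fun n hn i hi =>
        h1 i (hi.trans (Finset.le_sup (f := id) hn))⟩
  refine ⟨T, h1, 3 * Q.ρ / 4, by linarith, frequently_atTop.2 fun k => ⟨g * k,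
    Nat.le_mul_of_pos_left k g3, mem_iInter.1 h2 k k le_rfl⟩⟩

end Pool.Agent.MP_4168de_an.W
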