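import Pool.Agent.MP_4168de_an.W.Dyn
import Pool.Agent.MP_4168de_an.W.Fib

/-! The coincidence rank divides a power of the norm. -/

namespace Pool.Agent.MP_4168de_an.W

open Set Filter Topology Shift Matrix G MeasureTheory

theorem rad_Main (a : ℤ) (r : ℕ) (hr : r ≠ 0) (h : ∀ p : ℤ, Prime p → p ∣ r → p ∣ a) :
    ∃ k : ℕ, (r : ℤ) ∣ a ^ k := by
  induction r using induction_on_primes with
  | zero => exact absurd rfl hr
  | one => exact ⟨0, by simp⟩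
  | prime_mul p r hp ih =>
    obtain ⟨k, hk⟩ := ih (right_ne_zero_of_mul hr) fun q hq hd => h q hq (by
      rw [Nat.cast_mul]
      exact hd.mul_left _)
    refine ⟨k + 1, ?_⟩
    rw [Nat.cast_mul, pow_succ']
    exact mul_dvd_mul (h p (Nat.prime_iff_prime_int.1 hp) (by
      rw [Nat.cast_mul]
      exact dvd_mul_right _ _)) hk

open Polynomial in
theorem int_Main {c : ℝ} (hc : IsIntegral ℤ c) (h0 : c ≠ 0) :
    IsIntegral ℤ (((minpoly ℤ c).coeff 0 : ℝ) * c⁻¹) := by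
  have h2 : IsIntegral ℤ (aeval c (minpoly ℤ c).divX) :=
    adjoin_le_integralClosure hc (aeval_mem_adjoin_singleton ℤ c)
  have h3 := congrArg (aeval c) (divX_mul_X_add (minpoly ℤ c))
  rw [minpoly.aeval, map_add, map_mul, aeval_X, aeval_C, eq_intCast] at h3
  have h4 : ((minpoly ℤ c).coeff 0 : ℝ) * c⁻¹ = -aeval c (minpoly ℤ c).divX := by
    rw [mul_inv_eq_iff_eq_mul₀ h0]
    linarith
  exact h4 ▸ h2.neg

open Polynomial in
theorem det_Main {d d' : ℕ} {B : Matrix (Fin d) (Fin d) ℤ} {u : Fin d → ℝ} {c : ℝ}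
    (hc : IsPisot c d') (hd : d ≤ d') (hu : u ≠ 0)
    (huB : u ᵥ* B.map (Int.cast : ℤ → ℝ) = c • u) {n : ℤ} (hn : IsIntegral ℤ ((n : ℝ) * c⁻¹)) :
    ∃ m : ℕ, B.det ∣ n ^ m := by
  by_cases h0 : n = 0
  · exact ⟨1, by simp [h0]⟩
  obtain ⟨p, h1, h2⟩ := hn
  have r1 := (left_Lin _ c).1 ⟨u, hu, huB⟩
  have hmap : (B.map (Int.cast : ℤ → ℝ)).charpoly = B.charpoly.map (algebraMap ℤ ℝ) :=
    Matrix.charpoly_map B (algebraMap ℤ ℝ)
  rw [hmap, IsRoot.def, eval_map_algebraMap] at r1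
  have hmin : B.charpoly = minpoly ℤ c := by
    refine eq_of_monic_of_dvd_of_natDegree_le (minpoly.monic hc.int) (Matrix.charpoly_monic _)
      (minpoly.isIntegrallyClosed_dvd hc.int r1) ?_
    rw [Matrix.charpoly_natDegree_eq_dim, Fintype.card_fin,
      ← (minpoly.monic hc.int).natDegree_map (algebraMap ℤ ℚ),
      ← minpoly.isIntegrallyClosed_eq_field_fractions' ℚ hc.int, hc.deg]
    exact hd
  have c0 : c ≠ 0 := by linarith [hc.one_lt]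
  have n0 : (n : ℝ) ≠ 0 := by exact_mod_cast h0
  have := invertibleOfNonzero (mul_ne_zero n0 (inv_ne_zero c0))
  have h3 := scaleRoots_eval₂_eq_zero (algebraMap ℤ ℝ) (s := n)
    ((eval₂_reverse_eq_zero_iff (algebraMap ℤ ℝ) ((n : ℝ) * c⁻¹) p).2 h2)
  rw [invOf_eq_inv, mul_inv, inv_inv, eq_intCast, mul_inv_cancel_left₀ n0] at h3
  obtain ⟨q, hq⟩ := minpoly.isIntegrallyClosed_dvd hc.int (p := p.reverse.scaleRoots n) h3
  have h4 := congrArg (fun f => coeff f 0) hq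
  simp only [coeff_scaleRoots, coeff_zero_reverse, h1.leadingCoeff, mul_coeff_zero, one_mul] at h4
  refine ⟨p.reverse.natDegree - 0, ?_⟩
  rw [Matrix.det_eq_sign_charpoly_coeff, hmin, h4]
  exact ((isUnit_neg_one.pow _).mul_left_dvd).2 (dvd_mul_right _ _)

theorem glue_Main {A : Type} [Fintype A] [DecidableEq A] (σ : A → List A) (M : Matrix A A ℤ)
    (hσM : ∀ i j, M i j = (σ j).count i) (hprim : M.IsPrimitive)
    {c : ℝ} {d : ℕ} (hc : IsPisot c d) {ℓ : A → ℝ}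
    (hℓ : ∀ i, 0 < ℓ i) (heig : ∀ a, ((σ a).map ℓ).sum = c * ℓ a) {T₀ : Patch A}
    (htil : IsTiling ℓ T₀) (hfix : ∃ k, 0 < k ∧ (inflate σ ℓ c)^[k] T₀ = T₀)
    (hmin : ∀ T ∈ hull T₀, T₀ ∈ hull T) (hrank : cechRank (hull T₀) = d) :
    ∃ r k : ℕ, (r : ℤ) ∣ (minpoly ℤ c).coeff 0 ^ k ∧
      (∀ T ∈ hull T₀, (r : ℕ∞) ≤ (fibre (hull T₀) T).encard) ∧
      (∃ T ∈ hull T₀, (fibre (hull T₀) T).encard = r) ∧
      ∀ (μ : Measure (Patch A)) [IsProbabilityMeasure μ], μ (hull T₀)ᶜ = 0 →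
        (∀ t, MeasurePreserving (translate t) μ μ) →
        ∀ᵐ T ∂μ, (fibre (hull T₀) T).encard = r := by
  have hB := box_s cl_s
  have hS := stack_s
  have hD := div_s stack_s near_s kill_s fin_s
  have hL := low_s eig_s
  have hU := up_s (lift_s cl_s)
  have hA := ae_s cl_s
  let : TopologicalSpace A := ⊥
  have : DiscreteTopology A := ⟨rfl⟩
  have hc1 := hc.one_lt
  obtain ⟨x₀, t₀, rfl⟩ := htil.exists_θ
  have : Nonempty A := ⟨x₀ 0⟩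
  obtain ⟨l₀, l₁, h0, h1, h2⟩ := exists_len_bounds hℓ
  have hσ : ∀ a, σ a ≠ [] := fun a h => by
    have := heig a
    rw [h] at this
    exact (mul_pos (by linarith) (hℓ a)).ne this
  obtain ⟨k, hk, hfix⟩ := hfix
  rw [inflate_iterate σ hσ heig] at hfix
  obtain ⟨m, hm, hm'⟩ := θ_eq hℓ hfix
  obtain ⟨m1, m2, -⟩ := mat_stmt.1 A ℓ c
  have hm1 := m2 _ M k (m1 σ hσ heig M hσM)
  have hck : 1 < c ^ k := one_lt_pow₀ hc1 hk.ne'
  obtain ⟨N, -, hN'⟩ := hprim.exists_pos_pow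
  obtain ⟨D, τ, hτ, hD', occ, -⟩ := limit_stmt mat_stmt.1 A ℓ _ _ _ x₀ t₀ m N hℓ hck hm1 (by
    obtain ⟨k', rfl⟩ := Nat.exists_eq_succ_of_ne_zero hk.ne'
    rw [← pow_mul, mul_comm, pow_mul]
    exact pow_entries_pos hN' k') hm hm'
  have hm2 : HasMat τ.toRSub (M ^ k) := hτ ▸ hm1
  obtain ⟨j, hj⟩ := pow_unbounded_of_one_lt (l₁ / l₀) hck
  have hl : 0 < l₁ := (hℓ _).trans_le (h2 (x₀ 0))
  have hj1 : 1 < (c ^ k) ^ j :=
    lt_of_le_of_lt ((one_le_div h0).2 ((h1 _).trans (h2 (x₀ 0)))) hj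
  have hj0 : 0 < j := Nat.pos_of_ne_zero fun h => by simp [h] at hj1
  rw [div_lt_iff₀ h0] at hj
  have hr : ∀ x, 2 ≤ (τ.pow j).r x := fun x => by
    have a1 := (τ.pow j).r_ge (by linarith) h1 h2 x
    have a2 : (1 : ℝ) < (τ.pow j).r x := lt_of_mul_lt_mul_left (by linarith) hl.le
    have a3 : 1 < (τ.pow j).r x := by exact_mod_cast a2
    omega
  have hm3 : HasMat (τ.pow j).toRSub ((M ^ k) ^ j) := (mat_stmt.1 A ℓ _).2.1 _ _ j hm2
  have hΩ := hull_eq hℓ h2 x₀ t₀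
  have hP := pisot_stmt _ _ j (pisot_stmt c d k hc hk) hj0
  obtain ⟨d', hd', ⟨G⟩⟩ := graph (τ.pow j) _ d hℓ hj1 occ hr hm3
    (cech2_stmt A D ℓ l₁ _ _ d hℓ h2 hD' hΩ hrank)
  obtain ⟨e, ⟨L⟩⟩ := lin G.B G.u hP hd' G.detB G.u_ne G.uB
  obtain ⟨C⟩ := cover G L hℓ hj1 occ hr hm3
  obtain ⟨Q⟩ := hB A D ℓ _ _ d' e C
  have hO : hull (θ ℓ x₀ t₀) = Om D ℓ := by
    refine subset_antisymm ?_ ?_
    · rw [hΩ]
      rintro _ ⟨⟨y, t⟩, ⟨hy, -⟩, rfl⟩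
      obtain ⟨x, hx⟩ := D.ne
      refine ⟨(⟨y, closure_minimal ?_ D.closed
        (mem_orb.2 (orb_min hℓ hmin x (hD' hx) y hy))⟩, t), rfl⟩
      rintro _ ⟨n, rfl⟩
      exact D.inv n x hx
    · rintro _ ⟨r, rfl⟩
      exact θ_mem_hull hℓ (hD' r.1.2) _ _
  rw [hO]
  obtain ⟨n, hn⟩ := det_Main hP hd' C.u_ne C.uB (n := ((minpoly ℤ c).coeff 0 ^ k) ^ j) (by
    have a1 := ((int_Main hc.int (by linarith)).pow k).pow j
    rw [mul_pow, mul_pow, inv_pow, inv_pow] at a1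
    exact_mod_cast a1)
  obtain ⟨k', hk'⟩ := rad_Main ((minpoly ℤ c).coeff 0) Q.m Q.m_pos.ne' fun p hp hd =>
    hp.dvd_of_dvd_pow (hp.dvd_of_dvd_pow (hp.dvd_of_dvd_pow
      ((hD A D ℓ _ _ d' e C Q p hp hd).trans hn)))
  have low := hL A D ℓ _ _ d' e C Q.m (hS A D ℓ _ _ d' e C Q)
  refine ⟨Q.m, k', hk', low, ?_, fun μ _ hμ hinv => ?_⟩
  · obtain ⟨T, a3, η, a1, a2⟩ := ex_Ex Q (cl_s A D ℓ _ _ d' e C Q.k)
    exact ⟨T, a3, le_antisymm (hU A D ℓ _ _ d' e C Q η a1 T a2) (low T a3)⟩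
  filter_upwards [hA A D ℓ _ _ d' e C Q μ hμ hinv, mem_ae_iff.2 hμ] with T ⟨η, a1, a2⟩ a3
  exact le_antisymm (hU A D ℓ _ _ d' e C Q η a1 T a2) (low T a3)

theorem crc_main (n : ℕ) (σ : Fin n → List (Fin n)) (M : Matrix (Fin n) (Fin n) ℤ)
    (hM : ∀ i j, M i j = (σ j).count i) (hprim : M.IsPrimitive)
    (c : ℝ) (hc : 1 < c) (ℓ : Fin n → ℝ) (hℓ : ∀ i, 0 < ℓ i)
    (heig : ∀ j, ∑ i, ℓ i * M i j = c * ℓ j)
    (hint : IsIntegral ℤ c) (hpisot : ∀ z ∈ (minpoly ℚ c).aroots ℂ, z ≠ c → ‖z‖ < 1)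
    (T₀ : Patch (Fin n)) (htil : IsTiling ℓ T₀) (hfix : ∃ k, 0 < k ∧ (inflate σ ℓ c)^[k] T₀ = T₀)
    (hmin : ∀ T ∈ hull T₀, T₀ ∈ hull T)
    (hrank : cechRank (hull T₀) = (minpoly ℚ c).natDegree) :
    (minpoly ℤ c).coeff 0 ≠ 0 ∧ ∃ r k : ℕ, (r : ℤ) ∣ (minpoly ℤ c).coeff 0 ^ k ∧
      (∀ T ∈ hull T₀, (r : ℕ∞) ≤ (fibre (hull T₀) T).encard) ∧
      (∃ T ∈ hull T₀, (fibre (hull T₀) T).encard = r) ∧
      ∀ (μ : Measure (Patch (Fin n))) [IsProbabilityMeasure μ], μ (hull T₀)ᶜ = 0 →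
        (∀ t, MeasurePreserving (translate t) μ μ) →
        ∀ᵐ T ∂μ, (fibre (hull T₀) T).encard = r := by
  refine ⟨fun h => minpoly.coeff_zero_ne_zero (A := ℚ) hint.tower_top (by linarith : c ≠ 0) ?_,
    glue_Main σ M hM hprim ⟨hc, hint, hpisot, rfl⟩ hℓ (fun j => ?_) htil hfix hmin hrank⟩
  · rw [minpoly.isIntegrallyClosed_eq_field_fractions' ℚ hint, Polynomial.coeff_map, h, map_zero]
  · rw [← heig, Finset.sum_list_map_count, Finset.sum_subset (Finset.subset_univ _)]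
    · simp [hM, mul_comm]
    · intro i _ hi
      simp [List.count_eq_zero_of_not_mem (fun h => hi (List.mem_toFinset.2 h))]

end Pool.Agent.MP_4168de_an.W
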