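import Pool.Agent.MP_4168de_an.W.Chain
import Pool.Agent.MP_4168de_an.W.Defs

/-! Inflated strands, boxes, tilings of strands, and the statements of the steps. -/

namespace Pool.Agent.MP_4168de_an.W

open Set Filter Topology Shift Matrix G MeasureTheory

variable {A : Type} [TopologicalSpace A]

/-- The tiling space of the subshift. -/
def Om (D : Shift A) (ℓ : A → ℝ) : Set (Patch A) := range fun r : D.X × ℝ => θ ℓ r.1.1 r.2

variable [Fintype A] [DecidableEq A] {D : Shift A} {ℓ : A → ℝ} {c : ℝ} {σ : DSub D ℓ c} {d e : ℕ}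

namespace Cover

variable (C : Cover σ d e)

/-- Lifted points on `k`-fold inflated strands. -/
def Wk (k : ℕ) : Set (D.X × Lat d) := {y | ∃ y' n, y = C.s n (C.S^[k] y')}

/-- Tiles of `k`-fold inflated strands over `β` that contain `α`. -/
def LabW (k : ℕ) (α : ℝ) (β : Fin e → ℝ) : Set (A × Lat d) := lab '' (C.K α β ∩ C.Wk k)

/-- A box over which the set of tiles of inflated strands is constant and of least size. -/
structure Box where
  k : ℕ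
  α : ℝ
  β : Fin e → ℝ
  ρ : ℝ
  ρ_pos : 0 < ρ
  least : ∀ k' α' β', (C.LabW k α β).ncard ≤ (C.LabW k' α' β').ncard
  inner : ∀ t ∈ C.LabW k α β, C.tm t + 2 * ρ ≤ α ∧ α + 2 * ρ ≤ C.tm t + ℓ t.1
  const : ∀ α' β', |α' - α| < ρ → ‖β' - β‖ < ρ → C.LabW k α' β' = C.LabW k α β

/-- The number of tiles over the box. -/
noncomputable def Box.m {C : Cover σ d e} (Q : C.Box) : ℕ := (C.LabW Q.k Q.α Q.β).ncard

/-- The tiling given by the strand of `y`, with the origin at time `α`. -/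
def til (y : D.X × Lat d) (α : ℝ) : Patch A := θ ℓ y.1.1 (α - C.p y)

/-- Tilings whose origin is a box time of level `k`, with tolerance `η`. -/
def Box.U {C : Cover σ d e} (Q : C.Box) (k : ℕ) (η : ℝ) : Set (Patch A) :=
  {T | ∃ y ∈ C.Wk Q.k, ∃ α, T = C.til (C.S^[k] y) (c ^ k * α) ∧ |α - Q.α| ≤ η ∧ ‖C.z y - Q.β‖ ≤ η}

variable {C}

lemma Wk_s {k : ℕ} {y : D.X × Lat d} (h : y ∈ C.Wk k) (n : ℤ) : C.s n y ∈ C.Wk k := by
  obtain ⟨y', m, rfl⟩ := h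
  exact ⟨y', _, C.s_s _ _ _⟩

lemma iter_mem_Wk (k : ℕ) (y : D.X × Lat d) : C.S^[k] y ∈ C.Wk k := ⟨y, 0, by simp⟩

lemma Wk_iter {k : ℕ} {y : D.X × Lat d} (h : y ∈ C.Wk k) (j : ℕ) : C.S^[j] y ∈ C.Wk (j + k) := by
  obtain ⟨y', m, rfl⟩ := h
  rw [iter_s, ← Function.iterate_add_apply]
  exact Wk_s (iter_mem_Wk _ _) _

lemma Wk_add {j k : ℕ} {y : D.X × Lat d} (h : y ∈ C.Wk (j + k)) :
    ∃ y' ∈ C.Wk k, ∃ n, y = C.s n (C.S^[j] y') := by
  obtain ⟨y', m, rfl⟩ := h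
  exact ⟨_, iter_mem_Wk k y', m, by rw [Function.iterate_add_apply]⟩

lemma Wk_anti {j k : ℕ} {y : D.X × Lat d} (h : y ∈ C.Wk (j + k)) : y ∈ C.Wk k := by
  obtain ⟨y', m, rfl⟩ := h
  exact ⟨C.S^[j] y', m, by rw [add_comm, Function.iterate_add_apply]⟩

lemma Wk_iter' {k : ℕ} {y : D.X × Lat d} (h : y ∈ C.Wk k) (j : ℕ) : C.S^[j] y ∈ C.Wk k :=
  Wk_anti (Wk_iter h j)

lemma Wk_tr {k : ℕ} {y : D.X × Lat d} (h : y ∈ C.Wk k) (v : Lat d) :
    tr (C.Bz^[k] v) y ∈ C.Wk k := by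
  obtain ⟨y', m, rfl⟩ := h
  exact ⟨tr v y', m, by rw [iter_tr, s_tr]⟩

variable (C)

lemma exists_Wk (k : ℕ) (x : D.X) : ∃ v, (x, v) ∈ C.Wk k := by
  obtain ⟨x', n, h⟩ := (σ.pow k).surj' x
  have h1 : ∀ (j : ℕ) (y : D.X × Lat d), (C.S^[j] y).1 = σ.T^[j] y.1 := fun j y => by
    induction j with
    | zero => rfl
    | succ j ih => simp only [Function.iterate_succ_apply', ← ih]; rfl
  refine ⟨(C.s n (C.S^[k] (x', 0))).2, (x', 0), n, Prod.ext ?_ rfl⟩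
  rw [h, DSub.pow_T]
  exact congrArg (D.τ n) (h1 k (x', 0)).symm

lemma b_iter (k : ℕ) (v : Lat d) : C.b (C.Bz^[k] v) = C.L.B'^[k] (C.b v) := by
  induction k with
  | zero => rfl
  | succ k ih => rw [Function.iterate_succ_apply', b_Bz, ih, Function.iterate_succ_apply']

lemma recK (k : ℕ) : ∀ ρ : ℝ, 0 < ρ → ∃ L : ℝ, ∀ t β, ∃ v,
    |C.a (C.Bz^[k] v) - t| ≤ L ∧ ‖C.b (C.Bz^[k] v) - β‖ < ρ := by
  induction k with
  | zero => exact rec_Box C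
  | succ k ih =>
    intro ρ hρ
    have c0 : 0 < c := by linarith [C.one_lt]
    obtain ⟨N, hN0, hN⟩ : ∃ N : ℝ, 0 < N ∧ ∀ x, ‖C.L.B' x‖ ≤ N * ‖x‖ :=
      (C.L.B' : (Fin e → ℝ) →L[ℝ] (Fin e → ℝ)).bound
    obtain ⟨L, hL⟩ := ih (ρ / N) (div_pos hρ hN0)
    refine ⟨c * L, fun t β => ?_⟩
    obtain ⟨v, h1, h2⟩ := hL (t / c) (C.L.B'.symm β)
    refine ⟨v, ?_, ?_⟩
    · rw [Function.iterate_succ_apply', a_Bz, show c * C.a (C.Bz^[k] v) - t =
        c * (C.a (C.Bz^[k] v) - t / c) by field_simp, abs_mul, abs_of_pos c0]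
      exact mul_le_mul_of_nonneg_left h1 c0.le
    · rw [Function.iterate_succ_apply', b_Bz, ← C.L.B'.apply_symm_apply β, ← map_sub]
      exact (hN _).trans_lt ((lt_div_iff₀' hN0).1 h2)

lemma til_mem (y : D.X × Lat d) (α : ℝ) : C.til y α ∈ Om D ℓ := ⟨(y.1, _), rfl⟩

lemma exists_til {T : Patch A} (h : T ∈ Om D ℓ) :
    ∃ x : D.X, ∃ t : ℝ, ∀ v, T = C.til (x, v) (C.p (x, v) + t) := by
  obtain ⟨⟨x, t⟩, rfl⟩ := h
  exact ⟨x, t, fun v => by simp [til]⟩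

lemma til_s (n : ℤ) (y : D.X × Lat d) (α : ℝ) : C.til (C.s n y) α = C.til y α := by
  rw [til, til, p_s, ← θ_sh y.1.1 (α - C.p y) n, sub_sub]
  rfl

lemma til_tr (v : Lat d) (y : D.X × Lat d) (α : ℝ) : C.til (tr v y) (α + C.a v) = C.til y α := by
  rw [til, til, p_tr, add_sub_add_right_eq_sub]
  rfl

lemma translate_til (t : ℝ) (y : D.X × Lat d) (α : ℝ) :
    translate t (C.til y α) = C.til y (α - t) := by
  rw [til, til, translate_θ, sub_right_comm]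

lemma mem_til {y : D.X × Lat d} {α q : ℝ} {a : A} :
    (a, q) ∈ (C.til y α).tiles ↔ ∃ t, C.On y t ∧ t.1 = a ∧ C.tm t - α = q := by
  rw [til, mem_θ]
  constructor
  · rintro ⟨i, h1, h2⟩
    refine ⟨_, ⟨i, rfl⟩, (C.s_letter i y).trans h1, ?_⟩
    change C.p (C.s i y) - α = q
    rw [p_s]
    linarith
  · rintro ⟨_, ⟨i, rfl⟩, h1, h2⟩
    refine ⟨i, (C.s_letter i y).symm.trans h1, ?_⟩
    change C.p (C.s i y) - α = q at h2
    rw [p_s] at h2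
    linarith

/-- Equal tilings at the same time come from the same strand. -/
lemma eq_of_til {y y' : D.X × Lat d} {α : ℝ} (h : C.til y α = C.til y' α) : ∃ n, y = C.s n y' := by
  obtain ⟨m, h1, h2⟩ := θ_eq C.ℓ_pos h
  have h3 : y.1 = (C.s m y').1 := Subtype.ext h1
  have h4 : C.p y = C.p (C.s m y') := by rw [p_s]; linarith
  refine ⟨m, Prod.ext h3 (C.a_inj ?_)⟩
  simp only [p, tm, lab, h3] at h4
  linarith

variable [DiscreteTopology A]

lemma continuous_til : Continuous fun q : (D.X × Lat d) × ℝ => C.til q.1 q.2 := by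
  have := C.continuous_p
  exact (continuous_θ C.ℓ_pos).comp (f := fun q : (D.X × Lat d) × ℝ => (q.1.1.1, q.2 - C.p q.1))
    (by fun_prop)

include C in
lemma compact_Om : IsCompact (Om D ℓ) := by
  obtain ⟨-, l₁, -, -, h2⟩ := C.len_bounds
  have h : Om D ℓ = (fun r : D.X × ℝ => θ ℓ r.1.1 r.2) '' (univ ×ˢ Icc 0 l₁) := by
    refine subset_antisymm ?_ (image_subset_range _ _)
    rintro _ ⟨⟨x, t⟩, rfl⟩
    obtain ⟨n, hn⟩ := exists_rep C.ℓ_pos h2 x.1 t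
    exact ⟨(D.τ n x, _), ⟨trivial, hn⟩, θ_sh _ _ _⟩
  rw [h]
  exact (isCompact_univ.prod isCompact_Icc).image ((continuous_θ C.ℓ_pos).comp
    (f := fun r : D.X × ℝ => (r.1.1, r.2)) (by fun_prop))

lemma finite_LabW (k : ℕ) (α : ℝ) (β : Fin e → ℝ) : (C.LabW k α β).Finite :=
  (C.finite_Lab α β).subset (image_mono inter_subset_left)

lemma Box.m_pos {C : Cover σ d e} (Q : C.Box) : 0 < Q.m := by
  obtain ⟨x⟩ : Nonempty D.X := inferInstance
  obtain ⟨L, hL⟩ := C.recK Q.k Q.ρ Q.ρ_pos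
  obtain ⟨v, -, hv⟩ := hL 0 (Q.β - C.z (C.S^[Q.k] (x, 0)))
  obtain ⟨n, hn⟩ := C.exists_K (tr (C.Bz^[Q.k] v) (C.S^[Q.k] (x, 0))) Q.α
  refine (ncard_pos (C.finite_LabW _ _ _)).2 ?_
  rw [← Q.const Q.α (C.z (tr (C.Bz^[Q.k] v) (C.S^[Q.k] (x, 0)))) (by simpa using Q.ρ_pos) (by
    rwa [z_tr, add_comm, add_sub_assoc, ← neg_sub Q.β, ← sub_eq_add_neg])]
  exact ⟨_, _, ⟨hn, Wk_s (Wk_tr (iter_mem_Wk _ _) v) n⟩, rfl⟩

end Cover

/-- A property of all covers. -/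
def All (P : ∀ {A : Type} [Fintype A] [DecidableEq A] [TopologicalSpace A]
    [DiscreteTopology A] {D : Shift A} {ℓ : A → ℝ} {c : ℝ} {σ : DSub D ℓ c} {d e : ℕ},
    Cover σ d e → Prop) : Prop :=
  ∀ (A : Type) [Fintype A] [DecidableEq A] [TopologicalSpace A] [DiscreteTopology A]
    (D : Shift A) (ℓ : A → ℝ) (c : ℝ) (σ : DSub D ℓ c) (d e : ℕ) (C : Cover σ d e), P C

/-- The inflated strands form a closed set. -/
def ClS : Prop := All fun C => ∀ k, IsClosed (C.Wk k)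

/-- Boxes exist. -/
def BoxS : Prop := All fun C => Nonempty C.Box

/-- Stacks exist over every internal point. -/
def StackS : Prop := All fun C => ∀ (Q : C.Box) β, ∃ y : Fin Q.m → _, C.Stack β y

/-- Translation by a vector with small internal orbit gives a good pair. -/
def NearS : Prop := All fun C => ∀ (Q : C.Box) β (u : Fin Q.m → _), C.Stack β u →
  (∀ i, u i ∈ C.Wk Q.k) → ∀ v, (∀ k, ‖C.b (C.Bz^[k] (C.Bz^[Q.k] v))‖ < Q.ρ / 2) →
    ∃ z, C.Good u (mono (C.Bz^[Q.k] v) - 1) z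

/-- After inflation the class of the module `G` vanishes modulo a prime `p` that divides `tot v`,
up to a factor of augmentation prime to `p`. -/
def KillS : Prop :=
  ∀ (A : Type) [Fintype A] (d : ℕ) (bd : (A → Rg d) →ₗ[Rg d] (A → Rg d)) (Vx : Set A)
    (N : Submodule (Rg d) (A → Rg d)) (v : A → Rg d) (E : (A → Rg d) →+ (A → Rg d))
    (μ : Rg d →+* Rg d) (G : Submodule (Rg d) (Rg d × (A → Rg d))) (n₀ : ℕ) (p : ℤ)
    (s : Fin d → Rg d), Prime p → p ∣ tot v →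
    IsConn bd Vx → (∀ q ∉ Vx, v q = 0) → tot v ≠ 0 →
    (∀ P, aug (μ P) = aug P) → (∀ (P : Rg d) z, E (P • z) = μ P • E z) → (∀ z ∈ N, E z ∈ N) →
    (∀ z, bd z = 0 → bd (E z) = 0) → (∀ (P : Rg d) z, P ≠ 0 → P • z ∈ N → z ∈ N) →
    (∀ z, bd z = 0 → ∀ x, aug (E^[n₀] z x) = 0) → (∀ i, ∃ z, (s i, z) ∈ G) →
    (∀ k : ℕ, ∃ M : Matrix (Fin d) (Fin d) (Rg d), (∀ i, μ^[k] (s i) = ∑ j, M i j * tt j) ∧
      ¬ p ∣ aug M.det) →
    (∀ z, (0, z) ∈ G → z ∈ N) → (∀ P z, (P, z) ∈ G → bd z = -(P • v)) →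
    ∃ (k : ℕ) (w : A → Rg d) (β : Rg d), ¬ p ∣ aug β ∧ ∀ t ∈ Ideal.span (range s), ∀ z,
      (t, z) ∈ G → ∃ g, β • E^[k] z - μ^[k] t • w - p • g ∈ N

/-- The class of a nonempty stack does not vanish modulo `p`. -/
def FinS : Prop := All fun C => ∀ (r : ℕ) β (u : Fin r → _) (k : ℕ) w (p a : ℤ), C.Stack β u →
  0 < r → ¬ p ∣ a → ¬ ∀ τ : ℝ, ∃ v z g, τ ≤ C.a v ∧ C.Good2 u (mono v - 1) z ∧
    C.Null (a • C.E^[k] z - (mu C.Bz)^[k] (mono v - 1) • w - p • g)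

/-- Every prime factor of the number of tiles over the box divides the determinant. -/
def DivS : Prop := All fun C => ∀ (Q : C.Box) (p : ℤ), Prime p → p ∣ Q.m → p ∣ C.B.det

/-- Tilings in one fibre lift to inflated strands over one internal point. -/
def LiftS : Prop := All fun {_} _ _ _ _ {D ℓ _ _ _ _} C => ∀ (k : ℕ) y α, y ∈ C.Wk k →
  ∀ T ∈ fibre (Om D ℓ) (C.til y α), ∃ y' ∈ C.Wk k, C.z y' = C.z y ∧ T = C.til y' α

/-- Eigenfunctions almost agree on inflated strands over one internal point. -/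
def EigS : Prop := All fun {_} _ _ _ _ {D ℓ _ _ _ _} C => ∀ f, IsEigen (Om D ℓ) f →
  ∀ ε : ℝ, 0 < ε → ∀ᶠ k in atTop, ∀ y y' α, C.z y = C.z y' →
    ‖f (C.til (C.S^[k] y) α) - f (C.til (C.S^[k] y') α)‖ ≤ ε

/-- Every fibre is at least as large as a stack. -/
def LowS : Prop := All fun {_} _ _ _ _ {D ℓ _ _ _ _} C => ∀ r : ℕ,
  (∀ β, ∃ y : Fin r → _, C.Stack β y) → ∀ T ∈ Om D ℓ, (r : ℕ∞) ≤ (fibre (Om D ℓ) T).encard

/-- The fibre of a tiling that visits the box at infinitely many levels is small. -/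
def UpS : Prop := All fun {_} _ _ _ _ {D ℓ _ _ _ _} C => ∀ (Q : C.Box) (η : ℝ), η < Q.ρ →
  ∀ T, (∃ᶠ k in atTop, T ∈ Q.U k η) → (fibre (Om D ℓ) T).encard ≤ Q.m

/-- Almost every tiling visits the box at infinitely many levels. -/
def AeS : Prop := All fun {A} _ _ _ _ {D ℓ _ _ _ _} C => ∀ (Q : C.Box) (μ : Measure (Patch A))
  [IsProbabilityMeasure μ], μ (Om D ℓ)ᶜ = 0 → (∀ t, MeasurePreserving (translate t) μ μ) →
    ∀ᵐ T ∂μ, ∃ η < Q.ρ, ∃ᶠ k in atTop, T ∈ Q.U k η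

end Pool.Agent.MP_4168de_an.W
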